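import Pool.Agent.H50.CI.N4

/-!
# ROW N1: maps out of the quotient complex
`Z : HCpx K`, `Z.quot` (file `N0.lean`), `Z.proj`.
1. `quot_hom`: a cellular map `φ : Z → X` which is an immersion and is constant on `K`-orbits of
   cells descends to `ψ : Z.quot → X` (`Quotient.liftOn'`/`Quotient.lift`), with `ψ (proj x) = φ x`, and `ψ` is an
   immersion: if `[ε]`, `[ε']` have the same source orbit and the same image then `k • src ε' = src ε`
   for some `k` (`N4_v` in `N4.lean`), so `k • ε'` and `ε` have the same source and the same image, so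
   they are equal and `[ε] = [ε']`. Same for targets and 2-cells.
2. `quot_conn`: project walks (`hom_walk_map` in `U4.lean` or `isWalk_map` in `Im.lean`; here it is easiest to
   prove it directly by induction on the word with `Z.proj`; `Quotient.exists_rep`/`Quotient.ind`).
3. `quot_finite`: a quotient with finitely many representatives is finite (`Set.Finite`/`Finite.of_surjective`
   from the subtype of the finset).
4. `quot_h1`: if every `K`-invariant cocycle of `Z` is the coboundary of a `K`-invariant function then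
   `Z.quot.H1Zero`: pull a cocycle `w` of the quotient back to `w ∘ Z.proj.e` (invariant; cocycle by
   `Cpx.integ_map` and `Z.proj.bd_e`), get `Ψ`, descend it (`Quotient.lift`).
-/

set_option autoImplicit false
set_option linter.unusedVariables false

namespace Pool.Agent.H60.CI.HCpx

variable {K : Type} [Group K]

theorem quot_hom (Z : HCpx K) {X : Cpx} (φ : Cpx.Hom Z.toCpx X) (hφ : φ.IsImm)
    (hv : ∀ (k : K) (x : Z.V), φ.v (k • x) = φ.v x) (he : ∀ (k : K) (x : Z.E), φ.e (k • x) = φ.e x)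
    (hf : ∀ (k : K) (x : Z.F), φ.f (k • x) = φ.f x) :
    ∃ ψ : Cpx.Hom Z.quot X, ψ.IsImm := by
  obtain ⟨ψ, hψe, hψf⟩ : ∃ ψ : Cpx.Hom Z.quot X,
      (∀ x, ψ.e (Z.proj.e x) = φ.e x) ∧ (∀ x, ψ.f (Z.proj.f x) = φ.f x) := by
    refine ⟨{
      v := fun x => Quotient.liftOn' x φ.v (by rintro a b ⟨k, rfl⟩; exact hv k b)
      e := fun x => Quotient.liftOn' x φ.e (by rintro a b ⟨k, rfl⟩; exact he k b)
      f := fun x => Quotient.liftOn' x φ.f (by rintro a b ⟨k, rfl⟩; exact hf k b)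
      src_v := ?_
      tgt_v := ?_
      base_v := ?_
      bd_e := ?_ }, ?_, ?_⟩
    · intro ε
      induction ε using Quotient.ind with
      | _ ε => exact φ.src_v ε
    · intro ε
      induction ε using Quotient.ind with
      | _ ε => exact φ.tgt_v ε
    · intro τ
      induction τ using Quotient.ind with
      | _ τ => exact φ.base_v τ
    · intro τ
      induction τ using Quotient.ind with
      | _ τ =>
        refine (φ.bd_e τ).trans ?_
        refine Eq.trans ?_ (List.map_map (l := Z.bd τ)).symm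
        rfl
    · intro x
      rfl
    · intro x
      rfl
  refine ⟨ψ, ?_, ?_, ?_⟩
  · intro ε ε' h1 h2
    obtain ⟨a, rfl⟩ : ∃ a : Z.E, Z.proj.e a = ε := Quotient.exists_rep ε
    obtain ⟨b, rfl⟩ : ∃ b : Z.E, Z.proj.e b = ε' := Quotient.exists_rep ε'
    rw [Z.proj.src_v, Z.proj.src_v] at h1
    rw [hψe, hψe] at h2
    obtain ⟨k, hk⟩ := (N4_v Z).1 h1
    have h3 : a = k • b := hφ.src_inj a (k • b) (by rw [Z.src_smul, hk]) (by rw [he, h2])
    rw [h3, N4_ke]
  · intro ε ε' h1 h2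
    obtain ⟨a, rfl⟩ : ∃ a : Z.E, Z.proj.e a = ε := Quotient.exists_rep ε
    obtain ⟨b, rfl⟩ : ∃ b : Z.E, Z.proj.e b = ε' := Quotient.exists_rep ε'
    rw [Z.proj.tgt_v, Z.proj.tgt_v] at h1
    rw [hψe, hψe] at h2
    obtain ⟨k, hk⟩ := (N4_v Z).1 h1
    have h3 : a = k • b := hφ.tgt_inj a (k • b) (by rw [Z.tgt_smul, hk]) (by rw [he, h2])
    rw [h3, N4_ke]
  · intro τ τ' h1 h2
    obtain ⟨a, rfl⟩ : ∃ a : Z.F, Z.proj.f a = τ := Quotient.exists_rep τ
    obtain ⟨b, rfl⟩ : ∃ b : Z.F, Z.proj.f b = τ' := Quotient.exists_rep τ'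
    rw [Z.proj.base_v, Z.proj.base_v] at h1
    rw [hψf, hψf] at h2
    obtain ⟨k, hk⟩ := (N4_v Z).1 h1
    have h3 : a = k • b := hφ.face_inj a (k • b) (by rw [Z.base_smul, hk]) (by rw [hf, h2])
    rw [h3]
    exact Quotient.sound ⟨k, rfl⟩

theorem N1_walk (Z : HCpx K) (w : List (Z.E × Bool)) (x y : Z.V) (h : IsWalk Z.src Z.tgt x w y) :
    IsWalk Z.quot.src Z.quot.tgt (Z.proj.v x) (w.map (Prod.map Z.proj.e id)) (Z.proj.v y) := by
  induction w generalizing x with
  | nil => exact congrArg Z.proj.v h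
  | cons a w ih =>
    obtain ⟨h1, h2⟩ := h
    obtain ⟨e, b⟩ := a
    refine ⟨?_, ?_⟩
    · rw [← h1]
      cases b <;> rfl
    · have h3 := ih _ h2
      cases b <;> exact h3

theorem quot_conn (Z : HCpx K) (h : Z.Conn) : Z.quot.Conn := by
  obtain ⟨⟨v⟩, hconn⟩ := h
  refine ⟨⟨Z.proj.v v⟩, fun x y => ?_⟩
  obtain ⟨a, rfl⟩ : ∃ a : Z.V, Z.proj.v a = x := Quotient.exists_rep x
  obtain ⟨b, rfl⟩ : ∃ b : Z.V, Z.proj.v b = y := Quotient.exists_rep y
  obtain ⟨w, hw⟩ := hconn a b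
  exact ⟨_, N1_walk Z w a b hw⟩

theorem quot_finite {T : Type} [MulAction K T] (S : Finset T) (h : ∀ x : T, ∃ k : K, ∃ s ∈ S, x = k • s) :
    Finite (MulAction.orbitRel.Quotient K T) := by
  refine Finite.of_surjective
    (fun s : {x // x ∈ S} => (Quotient.mk'' (s : T) : MulAction.orbitRel.Quotient K T)) ?_
  intro q
  obtain ⟨x, rfl⟩ : ∃ x : T, (Quotient.mk'' x : MulAction.orbitRel.Quotient K T) = q :=
    Quotient.exists_rep q
  obtain ⟨k, s, hs, rfl⟩ := h x
  refine ⟨⟨s, hs⟩, ?_⟩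
  symm
  exact Quotient.sound ⟨k, rfl⟩

theorem quot_h1 (Z : HCpx K)
    (h : ∀ w : Z.E → ℚ, (∀ τ, Cpx.integ w (Z.bd τ) = 0) → (∀ (k : K) (ε : Z.E), w (k • ε) = w ε) →
      ∃ ψ : Z.V → ℚ, (∀ (k : K) (x : Z.V), ψ (k • x) = ψ x) ∧
        ∀ ε, w ε = ψ (Z.tgt ε) - ψ (Z.src ε)) : Z.quot.H1Zero := by
  intro w hw
  obtain ⟨ψ, h1, h2⟩ := h (w ∘ Z.proj.e) (fun τ => by
    rw [← Cpx.integ_map, ← Z.proj.bd_e]
    exact hw _) (fun k ε => by
    change w (Z.proj.e (k • ε)) = w (Z.proj.e ε)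
    rw [N4_ke])
  refine ⟨fun x => Quotient.liftOn' x ψ (by rintro a b ⟨k, rfl⟩; exact h1 k b), ?_⟩
  intro ε
  induction ε using Quotient.ind with
  | _ ε => exact h2 ε

end Pool.Agent.H60.CI.HCpx
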