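import Pool.Agent.H50.CI.N0

/-!
# ROW N2: `H¹ = 0` implies Euler characteristic at least one
`Y` finite connected, every rational 1-cocycle is a coboundary (`Cpx.H1Zero`, `N0.lean`). Linear maps
`d0 : (Y.V → ℚ) →ₗ (Y.E → ℚ)`, `(d0 ψ) ε = ψ (tgt ε) - ψ (src ε)`, and
`d1 : (Y.E → ℚ) →ₗ (Y.F → ℚ)`, `(d1 w) τ = integ w (bd τ)` (linear: `Cpx.integ` is a list sum).
* `ker d0` = constants: if `d0 ψ = 0` then `ψ` is constant along walks (induction on the word), so
  constant by connectedness. So `finrank (ker d0) ≤ 1` (`ker d0 ≤ span {1}`).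
* `ker d1 ≤ range d0` by hypothesis.
Rank-nullity (`LinearMap.finrank_range_add_finrank_ker`) with `finrank (Y.V → ℚ) = card V` etc.:
`card V = rk d0 + nullity d0 ≤ rk d0 + 1`; and we need `chi ≥ 1`:
`card E = rk d1 + nullity d1 ≤ card F + rk d0`, and `rk d0 = card V - nullity d0 ≤ card V - 1` because the
constant function `1` lies in `ker d0` and is not zero (`Y.V` is non-empty), so `nullity d0 ≥ 1`.
Hence `card E ≤ card F + card V - 1`. (Only `nullity d0 ≥ 1` is used; connectedness is not needed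
beyond `Nonempty Y.V`.) `Nat.card = Fintype.card`.
-/

set_option autoImplicit false

namespace Pool.Agent.H60.CI.Cpx

theorem N2_add {E : Type} (w w' : E → ℚ) (l : List (E × Bool)) :
    integ (w + w') l = integ w l + integ w' l := by
  induction l with
  | nil => simp [integ_nil]
  | cons a l ih =>
    rw [integ_cons, integ_cons, integ_cons, ih]
    split_ifs
    · show w a.1 + w' a.1 + _ = _
      ring
    · show -(w a.1 + w' a.1) + _ = _
      ring

theorem N2_smul {E : Type} (c : ℚ) (w : E → ℚ) (l : List (E × Bool)) :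
    integ (c • w) l = c * integ w l := by
  induction l with
  | nil => simp [integ_nil]
  | cons a l ih =>
    rw [integ_cons, integ_cons, ih]
    split_ifs
    · show c * w a.1 + _ = _
      ring
    · show -(c * w a.1) + _ = _
      ring

theorem one_le_chi (Y : Cpx) [Finite Y.V] [Finite Y.E] [Finite Y.F] (hc : Y.Conn)
    (h : Y.H1Zero) : 1 ≤ Y.chi := by
  classical
  have : Fintype Y.V := Fintype.ofFinite _
  have : Fintype Y.E := Fintype.ofFinite _
  have : Fintype Y.F := Fintype.ofFinite _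
  let d0 : (Y.V → ℚ) →ₗ[ℚ] (Y.E → ℚ) :=
    { toFun := fun ψ ε => ψ (Y.tgt ε) - ψ (Y.src ε)
      map_add' := by
        intro ψ ψ'
        funext ε
        show (ψ (Y.tgt ε) + ψ' (Y.tgt ε)) - (ψ (Y.src ε) + ψ' (Y.src ε)) =
          (ψ (Y.tgt ε) - ψ (Y.src ε)) + (ψ' (Y.tgt ε) - ψ' (Y.src ε))
        ring
      map_smul' := by
        intro c ψ
        funext ε
        show c * ψ (Y.tgt ε) - c * ψ (Y.src ε) = c * (ψ (Y.tgt ε) - ψ (Y.src ε))
        ring }
  let d1 : (Y.E → ℚ) →ₗ[ℚ] (Y.F → ℚ) :=
    { toFun := fun w τ => integ w (Y.bd τ)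
      map_add' := by
        intro w w'
        funext τ
        exact N2_add w w' (Y.bd τ)
      map_smul' := by
        intro c w
        funext τ
        exact N2_smul c w (Y.bd τ) }
  have hle : LinearMap.ker d1 ≤ LinearMap.range d0 := by
    intro w hw
    have h1 : ∀ τ, integ w (Y.bd τ) = 0 := by
      intro τ
      have h2 : d1 w = 0 := hw
      exact congrFun h2 τ
    obtain ⟨ψ, hψ⟩ := h w h1
    refine ⟨ψ, ?_⟩
    funext ε
    exact (hψ ε).symm
  obtain ⟨x0⟩ := hc.1
  have hone : (fun _ : Y.V => (1 : ℚ)) ∈ LinearMap.ker d0 := by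
    rw [LinearMap.mem_ker]
    funext ε
    show (1 : ℚ) - 1 = 0
    ring
  have hnt : Nontrivial (LinearMap.ker d0) := by
    refine ⟨⟨⟨_, hone⟩, 0, ?_⟩⟩
    intro h0
    have h1 : (fun _ : Y.V => (1 : ℚ)) = 0 := congrArg Subtype.val h0
    have h2 := congrFun h1 x0
    exact one_ne_zero h2
  have k0 : 0 < Module.finrank ℚ (LinearMap.ker d0) := Module.finrank_pos
  have r0 := LinearMap.finrank_range_add_finrank_ker d0
  have r1 := LinearMap.finrank_range_add_finrank_ker d1
  have s1 := Submodule.finrank_mono hle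
  have s2 := Submodule.finrank_le (LinearMap.range d1)
  rw [Module.finrank_fintype_fun_eq_card] at r0 r1 s2
  unfold chi
  rw [Nat.card_eq_fintype_card, Nat.card_eq_fintype_card, Nat.card_eq_fintype_card]
  omega

end Pool.Agent.H60.CI.Cpx
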