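import Pool.Agent.H50.CI.TA

/-!
# ROW N5: finitely many relators detecting that there is no homomorphism to `ℚ`
`K` generated by `s j`, every homomorphism `K →* Multiplicative ℚ` trivial. Definitions `ev`, `Lam` in
`TA.lean`.

`lam_const`: for a constant cochain `Lam s (fun _ j => lam j) k ρ` does not depend on `k`, equals the value
`toAdd (FreeGroup.lift (fun j => Multiplicative.ofAdd (lam j)) (FreeGroup.mk ρ))`. Induction on `ρ`.
`ev_eq`: `ev s ρ = FreeGroup.lift s (FreeGroup.mk ρ)` (`FreeGroup.lift_mk`; `cond`/`if`).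

Main statement. For a list `R` of relators let `A R` be the submodule of `Fin n → ℚ` of all `lam` with
`Lam .. ρ = 0` for all `ρ ∈ R` (linear in `lam`). Choose a list `R` of relators (`ev s ρ = 1`) with
`finrank (A R)` minimal. Claim `A R = ⊥`. Let `lam ∈ A R`. For every relator `ρ`: `A (ρ :: R) ≤ A R` and
by minimality `finrank (A R) ≤ finrank (A (ρ :: R))`, so equality
(`Submodule.eq_of_le_of_finrank_le`), so `Lam lam ρ = 0`. So the homomorphism
`FreeGroup.lift (fun j => ofAdd (lam j)) : FreeGroup (Fin n) →* Multiplicative ℚ` kills the kernel of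
`FreeGroup.lift s : FreeGroup (Fin n) →* K` (every element is `FreeGroup.mk ρ`), which is surjective
(its range contains the `s j`, `Subgroup.closure (range s) = ⊤`). So it factors
(`MonoidHom.liftOfSurjective` or `QuotientGroup.lift` with
`QuotientGroup.quotientKerEquivOfSurjective`) over `K`, hence it is trivial and `lam j = 0`.
-/

noncomputable section

set_option autoImplicit false
set_option linter.unusedVariables false

namespace Pool.Agent.H60.CI

theorem lam_const {K : Type} [Group K] {n : ℕ} (s : Fin n → K) (lam : Fin n → ℚ) (k : K)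
    (ρ : List (Fin n × Bool)) : Lam s (fun _ j => lam j) k ρ =
      Multiplicative.toAdd (FreeGroup.lift (fun j => Multiplicative.ofAdd (lam j)) (FreeGroup.mk ρ)) := by
  induction ρ generalizing k with
  | nil => simp [Lam, FreeGroup.lift_mk]
  | cons a ρ ih =>
    obtain ⟨j, b⟩ := a
    have h1 : (FreeGroup.mk ((j, b) :: ρ) : FreeGroup (Fin n)) =
        FreeGroup.mk [(j, b)] * FreeGroup.mk ρ := by
      rw [FreeGroup.mul_mk]; rfl
    rw [h1, map_mul, toAdd_mul]
    cases b with
    | true =>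
      show lam j + Lam s (fun _ j => lam j) (k * s j) ρ = _
      rw [ih]
      simp [FreeGroup.lift_mk]
    | false =>
      show - lam j + Lam s (fun _ j => lam j) (k * (s j)⁻¹) ρ = _
      rw [ih]
      simp [FreeGroup.lift_mk]

theorem ev_eq {K : Type} [Group K] {n : ℕ} (s : Fin n → K) (ρ : List (Fin n × Bool)) :
    ev s ρ = FreeGroup.lift s (FreeGroup.mk ρ) := by
  rw [FreeGroup.lift_mk, ev]
  congr 1
  refine List.map_congr_left fun a _ => ?_
  obtain ⟨j, b⟩ := a
  cases b <;> rfl

theorem N5_add {K : Type} [Group K] {n : ℕ} (s : Fin n → K) (lam lam' : Fin n → ℚ)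
    (ρ : List (Fin n × Bool)) (k : K) : Lam s (fun _ j => (lam + lam') j) k ρ =
      Lam s (fun _ j => lam j) k ρ + Lam s (fun _ j => lam' j) k ρ := by
  induction ρ generalizing k with
  | nil => simp [Lam]
  | cons a ρ ih =>
    obtain ⟨j, b⟩ := a
    cases b with
    | true =>
      show (lam + lam') j + Lam s (fun _ j => (lam + lam') j) (k * s j) ρ =
        (lam j + Lam s (fun _ j => lam j) (k * s j) ρ) +
          (lam' j + Lam s (fun _ j => lam' j) (k * s j) ρ)
      rw [ih, Pi.add_apply]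
      ring
    | false =>
      show -(lam + lam') j + Lam s (fun _ j => (lam + lam') j) (k * (s j)⁻¹) ρ =
        (-lam j + Lam s (fun _ j => lam j) (k * (s j)⁻¹) ρ) +
          (-lam' j + Lam s (fun _ j => lam' j) (k * (s j)⁻¹) ρ)
      rw [ih, Pi.add_apply]
      ring

theorem N5_smul {K : Type} [Group K] {n : ℕ} (s : Fin n → K) (c : ℚ) (lam : Fin n → ℚ)
    (ρ : List (Fin n × Bool)) (k : K) : Lam s (fun _ j => (c • lam) j) k ρ =
      c * Lam s (fun _ j => lam j) k ρ := by
  induction ρ generalizing k with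
  | nil => simp [Lam]
  | cons a ρ ih =>
    obtain ⟨j, b⟩ := a
    cases b with
    | true =>
      show (c • lam) j + Lam s (fun _ j => (c • lam) j) (k * s j) ρ =
        c * (lam j + Lam s (fun _ j => lam j) (k * s j) ρ)
      rw [ih, Pi.smul_apply, smul_eq_mul]
      ring
    | false =>
      show -(c • lam) j + Lam s (fun _ j => (c • lam) j) (k * (s j)⁻¹) ρ =
        c * (-lam j + Lam s (fun _ j => lam j) (k * (s j)⁻¹) ρ)
      rw [ih, Pi.smul_apply, smul_eq_mul]
      ring

/-- the constant cochains vanishing on the relators of `R` -/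
def N5_A {K : Type} [Group K] {n : ℕ} (s : Fin n → K) (R : List (List (Fin n × Bool))) :
    Submodule ℚ (Fin n → ℚ) where
  carrier := {lam | ∀ ρ ∈ R, Lam s (fun _ j => lam j) 1 ρ = 0}
  add_mem' := by
    intro x y hx hy ρ hρ
    rw [N5_add, hx ρ hρ, hy ρ hρ, add_zero]
  zero_mem' := by
    intro ρ hρ
    have h := N5_smul s 0 0 ρ 1
    rw [zero_smul, zero_mul] at h
    exact h
  smul_mem' := by
    intro c x hx ρ hρ
    rw [N5_smul, hx ρ hρ, mul_zero]

theorem N5_mem {K : Type} [Group K] {n : ℕ} (s : Fin n → K) (R : List (List (Fin n × Bool)))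
    (lam : Fin n → ℚ) : lam ∈ N5_A s R ↔ ∀ ρ ∈ R, Lam s (fun _ j => lam j) 1 ρ = 0 := Iff.rfl

theorem N5_surj {K : Type} [Group K] {n : ℕ} (s : Fin n → K)
    (hs : Subgroup.closure (Set.range s) = ⊤) : Function.Surjective (FreeGroup.lift s) := by
  rw [← MonoidHom.range_eq_top, eq_top_iff, ← hs, Subgroup.closure_le]
  rintro _ ⟨j, rfl⟩
  exact ⟨FreeGroup.of j, by simp⟩

theorem exists_relators {K : Type} [Group K] {n : ℕ} (s : Fin n → K)
    (hs : Subgroup.closure (Set.range s) = ⊤) (h0 : ∀ f : K →* Multiplicative ℚ, f = 1) :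
    ∃ R : List (List (Fin n × Bool)), (∀ ρ ∈ R, ev s ρ = 1) ∧
      ∀ lam : Fin n → ℚ, (∀ ρ ∈ R, ∀ k, Lam s (fun _ j => lam j) k ρ = 0) → lam = 0 := by
  classical
  have hex : ∃ m : ℕ, ∃ R : List (List (Fin n × Bool)), (∀ ρ ∈ R, ev s ρ = 1) ∧
      Module.finrank ℚ (N5_A s R) = m := ⟨_, [], by simp, rfl⟩
  obtain ⟨R, hR, hRm⟩ := Nat.find_spec hex
  refine ⟨R, hR, fun lam hlam => ?_⟩
  have hlamA : lam ∈ N5_A s R := fun ρ hρ => hlam ρ hρ 1
  have hall : ∀ ρ : List (Fin n × Bool), ev s ρ = 1 → Lam s (fun _ j => lam j) 1 ρ = 0 := by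
    intro ρ hρ
    have hle : N5_A s (ρ :: R) ≤ N5_A s R :=
      fun x hx ρ' hρ' => hx ρ' (List.mem_cons_of_mem _ hρ')
    have hfr : Module.finrank ℚ (N5_A s R) ≤ Module.finrank ℚ (N5_A s (ρ :: R)) := by
      rw [hRm]
      refine Nat.find_min' hex ⟨ρ :: R, ?_, rfl⟩
      intro ρ' hρ'
      rcases List.mem_cons.mp hρ' with rfl | h
      · exact hρ
      · exact hR ρ' h
    have heq := Submodule.eq_of_le_of_finrank_le hle hfr
    rw [← heq] at hlamA
    exact hlamA ρ List.mem_cons_self
  have hker : (FreeGroup.lift s).ker ≤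
      (FreeGroup.lift (fun j => Multiplicative.ofAdd (lam j))).ker := by
    intro x hx
    have hx' : FreeGroup.mk x.toWord = x := FreeGroup.mk_toWord
    rw [MonoidHom.mem_ker] at hx ⊢
    have h1 := hall x.toWord (by rw [ev_eq, hx', hx])
    rw [lam_const, hx'] at h1
    exact Multiplicative.toAdd.injective h1
  have hsurj := N5_surj s hs
  obtain ⟨g, hg⟩ : ∃ g : K →* Multiplicative ℚ, ∀ x, g (FreeGroup.lift s x) =
      FreeGroup.lift (fun j => Multiplicative.ofAdd (lam j)) x :=
    ⟨(FreeGroup.lift s).liftOfRightInverse _ (Function.rightInverse_surjInv hsurj) ⟨_, hker⟩,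
      fun x => MonoidHom.liftOfRightInverse_comp_apply _ _ _ ⟨_, hker⟩ x⟩
  funext j
  have h1 := hg (FreeGroup.of j)
  rw [h0 g, MonoidHom.one_apply, FreeGroup.lift_apply_of] at h1
  have h2 := congrArg Multiplicative.toAdd h1
  rw [toAdd_one, toAdd_ofAdd] at h2
  exact h2.symm

end Pool.Agent.H60.CI
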