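import Mathlib

/-!
# ROW N8: locally indicable groups have unique products, so their group rings are domains
`LocInd G`: every finitely generated subgroup `K ≠ ⊥` has a nontrivial homomorphism to `ℚ`.

`uniqueProds`: `UniqueProds G` (Mathlib: `UniqueProds.uniqueMul_of_nonempty : A.Nonempty → B.Nonempty →
∃ a0 ∈ A, ∃ b0 ∈ B, UniqueMul A B a0 b0`). Strong induction on `A.card + B.card`. If
`A.card = 1` and `B.card = 1` it is clear (`uniqueMul_of_subsingleton`-like; or use
`Finset.card_eq_one`). Otherwise fix `a1 ∈ A`, `b1 ∈ B`, put `A1 = a1⁻¹ • A`, `B1 = B • b1⁻¹` (images under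
`a ↦ a1⁻¹ a`, `b ↦ b b1⁻¹`), both contain `1` and have the same cardinalities, and a unique product for `A1`,
`B1` gives one for `A`, `B` (`a b = a' b'` iff `(a1⁻¹ a) (b b1⁻¹) = (a1⁻¹ a') (b' b1⁻¹)`). Let
`K = Subgroup.closure (A1 ∪ B1)`, finitely generated and `≠ ⊥` (one of `A1`, `B1` has an element `≠ 1`). Take
`f : K → ℚ` nontrivial. Extend to a function `F : G → ℚ` by `0` outside `K`. `F` is not constant on `A1`
or not constant on `B1` (otherwise `F = F 1 = 0` on `A1 ∪ B1`, so `f = 1` on the generators and `f = 1`,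
`Subgroup.closure_induction` or `MonoidHom.eq_of_eqOn_dense`-type lemma). Let `A2 ⊆ A1`, `B2 ⊆ B1` be the
subsets where `F` is maximal (`Finset.exists_max_image`, `Finset.filter`): non-empty, and
`A2.card + B2.card < A1.card + B1.card`. By induction `A2`, `B2` have a unique product `a0 b0`. It is
unique for `A1`, `B1`: if `a b = a0 b0` with `a ∈ A1`, `b ∈ B1` then `F a + F b = F (a b) = F a0 + F b0`
(`f` is a homomorphism on `K`), with `F a ≤ F a0`, `F b ≤ F b0`, so equality, `a ∈ A2`, `b ∈ B2`, so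
`a = a0`, `b = b0`.

`noZeroDivisors_subgroup`: for `K ≤ G`: `UniqueProds K` (`UniqueProds.of_injective_mulHom` or prove directly
by mapping finsets into `G`; Mathlib may have `UniqueProds.of_mulHom`), then Mathlib's instance
`MonoidAlgebra` over `ℚ` with `UniqueProds` has `NoZeroDivisors`.
-/

set_option autoImplicit false

namespace Pool.Agent.H50.CI

/-- locally indicable -/
def LocInd (G : Type) [Group G] : Prop :=
  ∀ K : Subgroup G, K.FG → K ≠ ⊥ → ∃ f : K →* Multiplicative ℚ, f ≠ 1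

theorem N8_aux {G : Type} [Group G] (h : LocInd G) : ∀ (n : ℕ) (A B : Finset G),
    A.card + B.card ≤ n → A.Nonempty → B.Nonempty → ∃ a ∈ A, ∃ b ∈ B, UniqueMul A B a b := by
  classical
  intro n
  induction n with
  | zero =>
    intro A B hc hA hB
    have h1 := hA.card_pos
    omega
  | succ n ih =>
    intro A B hc hA hB
    by_cases h1 : A.card ≤ 1 ∧ B.card ≤ 1
    · exact UniqueMul.of_card_le_one hA hB h1.1 h1.2
    obtain ⟨a1, ha1⟩ := hA
    obtain ⟨b1, hb1⟩ := hB
    obtain ⟨S, hS⟩ : ∃ S : Finset G, S = A.image (fun a => a1⁻¹ * a) ∪ B.image (fun b => b * b1⁻¹) :=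
      ⟨_, rfl⟩
    have hSA : ∀ a ∈ A, a1⁻¹ * a ∈ S := by
      intro a ha
      rw [hS]
      exact Finset.mem_union_left _ (Finset.mem_image_of_mem _ ha)
    have hSB : ∀ b ∈ B, b * b1⁻¹ ∈ S := by
      intro b hb
      rw [hS]
      exact Finset.mem_union_right _ (Finset.mem_image_of_mem _ hb)
    have hSS : ∀ s ∈ S, (∃ a ∈ A, a1⁻¹ * a = s) ∨ ∃ b ∈ B, b * b1⁻¹ = s := by
      intro s hs
      rw [hS] at hs
      rcases Finset.mem_union.1 hs with hs | hs
      · exact Or.inl (Finset.mem_image.1 hs)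
      · exact Or.inr (Finset.mem_image.1 hs)
    have hKA : ∀ a ∈ A, a1⁻¹ * a ∈ Subgroup.closure (S : Set G) := fun a ha =>
      Subgroup.subset_closure (hSA a ha)
    have hKB : ∀ b ∈ B, b * b1⁻¹ ∈ Subgroup.closure (S : Set G) := fun b hb =>
      Subgroup.subset_closure (hSB b hb)
    have hne : Subgroup.closure (S : Set G) ≠ ⊥ := by
      intro hbot
      apply h1
      constructor
      · refine Finset.card_le_one_iff.2 ?_
        have h2 : ∀ a ∈ A, a = a1 := by
          intro a ha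
          have h3 := hKA a ha
          rw [hbot, Subgroup.mem_bot, inv_mul_eq_one] at h3
          exact h3.symm
        intro a b ha hb
        rw [h2 a ha, h2 b hb]
      · refine Finset.card_le_one_iff.2 ?_
        have h2 : ∀ b ∈ B, b = b1 := by
          intro b hb
          have h3 := hKB b hb
          rw [hbot, Subgroup.mem_bot, mul_inv_eq_one] at h3
          exact h3
        intro a b ha hb
        rw [h2 a ha, h2 b hb]
    obtain ⟨f, hf⟩ := h (Subgroup.closure (S : Set G)) ⟨S, rfl⟩ hne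
    obtain ⟨F, hF⟩ : ∃ F : G → ℚ, F = fun g => if hg : g ∈ Subgroup.closure (S : Set G) then
        Multiplicative.toAdd (f ⟨g, hg⟩) else 0 := ⟨_, rfl⟩
    have hFg : ∀ g (hg : g ∈ Subgroup.closure (S : Set G)),
        F g = Multiplicative.toAdd (f ⟨g, hg⟩) := by
      intro g hg
      rw [hF]
      exact dif_pos hg
    have hFm : ∀ g ∈ Subgroup.closure (S : Set G), ∀ g' ∈ Subgroup.closure (S : Set G),
        F (g * g') = F g + F g' := by
      intro g hg g' hg'
      rw [hFg _ hg, hFg _ hg', hFg _ (mul_mem hg hg'), ← toAdd_mul, ← map_mul]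
      rfl
    have hF1 : F 1 = 0 := by
      have h2 := hFm 1 (one_mem _) 1 (one_mem _)
      rw [mul_one] at h2
      linarith
    have hprod : ∀ a ∈ A, ∀ b ∈ B, ∀ a' ∈ A, ∀ b' ∈ B, a * b = a' * b' →
        F (a1⁻¹ * a) + F (b * b1⁻¹) = F (a1⁻¹ * a') + F (b' * b1⁻¹) := by
      intro a ha b hb a' ha' b' hb' he
      rw [← hFm _ (hKA a ha) _ (hKB b hb), ← hFm _ (hKA a' ha') _ (hKB b' hb')]
      congr 1
      calc a1⁻¹ * a * (b * b1⁻¹) = a1⁻¹ * (a * b) * b1⁻¹ := by group
        _ = a1⁻¹ * (a' * b') * b1⁻¹ := by rw [he]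
        _ = a1⁻¹ * a' * (b' * b1⁻¹) := by group
    obtain ⟨aM, haM, hMA⟩ := A.exists_max_image (fun a => F (a1⁻¹ * a)) ⟨a1, ha1⟩
    obtain ⟨bM, hbM, hMB⟩ := B.exists_max_image (fun b => F (b * b1⁻¹)) ⟨b1, hb1⟩
    obtain ⟨A2, hA2⟩ : ∃ A2, A2 = A.filter (fun a => F (a1⁻¹ * a) = F (a1⁻¹ * aM)) := ⟨_, rfl⟩
    obtain ⟨B2, hB2⟩ : ∃ B2, B2 = B.filter (fun b => F (b * b1⁻¹) = F (bM * b1⁻¹)) := ⟨_, rfl⟩
    have hA2m : ∀ a, a ∈ A2 ↔ a ∈ A ∧ F (a1⁻¹ * a) = F (a1⁻¹ * aM) := by
      intro a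
      rw [hA2, Finset.mem_filter]
    have hB2m : ∀ b, b ∈ B2 ↔ b ∈ B ∧ F (b * b1⁻¹) = F (bM * b1⁻¹) := by
      intro b
      rw [hB2, Finset.mem_filter]
    have hA2s : A2 ⊆ A := by rw [hA2]; exact Finset.filter_subset _ _
    have hB2s : B2 ⊆ B := by rw [hB2]; exact Finset.filter_subset _ _
    have hlt : A2.card + B2.card < A.card + B.card := by
      by_contra hge
      have h2 := Finset.card_le_card hA2s
      have h3 := Finset.card_le_card hB2s
      have h4 : A2 = A := Finset.eq_of_subset_of_card_le hA2s (by omega)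
      have h5 : B2 = B := Finset.eq_of_subset_of_card_le hB2s (by omega)
      apply hf
      refine MonoidHom.eq_of_eqOn_dense (Subgroup.closure_closure_coe_preimage (k := (S : Set G))) ?_
      rintro ⟨s, hs⟩ hsS
      have hsS' : s ∈ S := hsS
      have h6 : F s = 0 := by
        rcases hSS s hsS' with ⟨a, ha, rfl⟩ | ⟨b, hb, rfl⟩
        · rw [((hA2m a).1 (by rw [h4]; exact ha)).2, ← ((hA2m a1).1 (by rw [h4]; exact ha1)).2,
            inv_mul_cancel, hF1]
        · rw [((hB2m b).1 (by rw [h5]; exact hb)).2, ← ((hB2m b1).1 (by rw [h5]; exact hb1)).2,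
            mul_inv_cancel, hF1]
      rw [hFg s hs] at h6
      exact Multiplicative.toAdd.injective h6
    obtain ⟨a0, ha0, b0, hb0, hu⟩ := ih A2 B2 (by omega) ⟨aM, (hA2m aM).2 ⟨haM, rfl⟩⟩
      ⟨bM, (hB2m bM).2 ⟨hbM, rfl⟩⟩
    have ha0' := (hA2m a0).1 ha0
    have hb0' := (hB2m b0).1 hb0
    refine ⟨a0, ha0'.1, b0, hb0'.1, ?_⟩
    intro a b ha hb he
    have h2 := hprod a ha b hb a0 ha0'.1 b0 hb0'.1 he
    have h3 := hMA a ha
    have h4 := hMB b hb
    have h5 := ha0'.2
    have h6 := hb0'.2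
    exact hu ((hA2m a).2 ⟨ha, by linarith⟩) ((hB2m b).2 ⟨hb, by linarith⟩) he

theorem uniqueProds {G : Type} [Group G] (h : LocInd G) : UniqueProds G := by
  exact ⟨fun {A B} hA hB => N8_aux h _ A B le_rfl hA hB⟩

theorem noZeroDivisors_subgroup {G : Type} [Group G] (h : LocInd G) (K : Subgroup G) :
    NoZeroDivisors (MonoidAlgebra ℚ K) := by
  have h1 : UniqueProds K :=
    UniqueProds.of_injective_mulHom (K.subtype : K →ₙ* G) K.subtype_injective (uniqueProds h)
  infer_instance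

end Pool.Agent.H50.CI
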