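import Pool.Agent.H50.CI.TA

/-!
# ROW TC: finiteness modulo `K` and connectedness of `Z`; constructor
Definitions: `TD.lean`, `TA.lean`, `HIm.lean` (`HIm.HFin`).

1. `finV` (`T` finite): `S` = image of the finite set `T` under `u ↦ D.cls (1, u)`; every vertex is
   `D.cls (k, u) = k • D.cls (1, u)` (`smul_cls`, `ind_cls`).
2. `finE` (`T` finite): for `u ∈ T` with last letter: edges of `Z` are `edg h` with `h : D.tadj x e y`,
   `x = (k, u)`, `y = (k, u')` and `u' = u ++ [(k⁻¹ e, true)]` or `u = u' ++ [(k⁻¹ e, false)]`. So the edge is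
   `k • ε` with `ε` an edge `edg h'`, `h' : D.tadj (1, u) (k⁻¹ • e) (1, u')`. The set
   `{ε | ∃ u u' e' (h' : D.tadj (1, u) e' (1, u')), ε = edg h'}` is finite: it injects into `T × T` and the letter
   `e'` is determined by `(u, u')` up to the two alternatives: more simply, the map `ε ↦ ` (the longer one of
   the two words, whose last letter gives `e'` and the other word) shows that it is the image of the
   finite set `T` under a partial function; e.g. define for `w ∈ T` the set `A w` of such edges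
   with `u' = w` or `u = w` longer; it has at most one element each. Any proof is fine.
3. `finM` (`M` finite): marks are `k • (cls (1, u), σ)` with `(u, σ) ∈ M`.
4. `hfin`: `orb` from `finV`. `out`, `inn`, `mks`: e.g. the map `e ↦` (edge of `Z` from `X` over `e`) maps
   `{e | ∃ Y, Z.adj X e Y}` injectively to `{ε | Z.esrc ε = X}`, and this set is finite: by `finE` each such `ε`
   is `k • s` with `s ∈ S`, and `k` is determined by `s` (`k • Z.esrc s = X`, freeness `HIm.free`: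
   `k • y = k' • y → k = k'`); a finite union over `s ∈ S` of sets with at most one element. Same for `inn`
   (targets) and `mks`.
5. `conn` (the `s j` generate `K`): every `D.cls (k, u)` is joined to `D.cls (root k)` by `pth` (`pth_walk`);
   `D.cls (root k)` is joined to `D.cls (root (k * s j))` by `pth (wsv k j)` and `cls_gs`. The set of `g` such
   that for all `k` the vertices `cls (root k)` and `cls (root (k * g))` are joined by a path is a subgroup
   containing all `s j` (`isWalk_append`, `isWalk_invRev`), so it is everything. `Cpx.Conn` also asks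
   for `Nonempty`.
6. `TD.of`: already complete (constructor from a set of words and a set of marks); `of_T_finite`: the set of
   prefixes of a finite set of words is finite (`List.inits`, `Set.Finite.subset`, `Set.Finite.biUnion`).
-/

noncomputable section

set_option autoImplicit false
set_option linter.unusedVariables false

namespace Pool.Agent.H60.CI.TD

variable {K : Type} [Group K] {B : HCpx K}

theorem TC_cls (k : K) (D : TD B) (u : {u // u ∈ D.T}) :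
    D.cls (k, u) = k • D.cls ((1 : K), u) :=
  congrArg D.cls (Prod.ext (mul_one k).symm rfl)

theorem finV (D : TD B) (hT : D.T.Finite) : ∃ S : Finset D.Z.V, ∀ x, ∃ k : K, ∃ s ∈ S, x = k • s := by
  have hf : Finite {u // u ∈ D.T} := hT.to_subtype
  have h1 : (Set.range fun u : {u // u ∈ D.T} => D.cls ((1 : K), u)).Finite :=
    Set.finite_range _
  refine ⟨h1.toFinset, ?_⟩
  refine ind_cls (D := D) (P := fun x => ∃ k : K, ∃ s ∈ h1.toFinset, x = k • s) ?_
  rintro ⟨k, u⟩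
  exact ⟨k, D.cls ((1 : K), u), h1.mem_toFinset.2 ⟨u, rfl⟩, TC_cls k D u⟩

/-- the edge of the tree ending with the word `w` -/
def TC_A (D : TD B) (w : List (B.E × Bool)) : Set D.Z.Edg :=
  {ε | ∃ (u : List (B.E × Bool)) (hu : u ∈ D.T) (hw : w ∈ D.T) (e : B.E),
    (w = u ++ [(e, true)] ∧
      ε.1 = (D.cls ((1 : K), ⟨u, hu⟩), e, D.cls ((1 : K), ⟨w, hw⟩))) ∨
    (w = u ++ [(e, false)] ∧
      ε.1 = (D.cls ((1 : K), ⟨w, hw⟩), e, D.cls ((1 : K), ⟨u, hu⟩)))}

theorem TC_A_sub (D : TD B) (w : List (B.E × Bool)) : (TC_A D w).Subsingleton := by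
  rintro ε ⟨u, hu, hw, e, h⟩ ε' ⟨u', hu', hw', e', h'⟩
  apply Subtype.ext
  rcases h with ⟨h1, h2⟩ | ⟨h1, h2⟩ <;> rcases h' with ⟨h1', h2'⟩ | ⟨h1', h2'⟩ <;>
    obtain ⟨h3, h4⟩ := List.append_inj' (h1.symm.trans h1') rfl <;> subst h3
  · have h5 : e = e' := by simpa using h4
    subst h5
    rw [h2, h2']
  · simp at h4
  · simp at h4
  · have h5 : e = e' := by simpa using h4
    subst h5
    rw [h2, h2']

theorem finE (D : TD B) (hT : D.T.Finite) : ∃ S : Finset D.Z.Edg, ∀ ε, ∃ k : K, ∃ s ∈ S, ε = k • s := by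
  have h1 : (⋃ w ∈ D.T, TC_A D w).Finite := hT.biUnion fun w _ => (TC_A_sub D w).finite
  refine ⟨h1.toFinset, ?_⟩
  rintro ⟨⟨X, e, Y⟩, hε⟩
  obtain ⟨⟨k, u, hu⟩, ⟨k', u', hu'⟩, hx, hy, hk, h⟩ := hε
  change D.cls _ = X at hx
  change D.cls _ = Y at hy
  subst hx
  subst hy
  change k = k' at hk
  subst hk
  change u' = u ++ [(k⁻¹ • e, true)] ∨ u = u' ++ [(k⁻¹ • e, false)] at h
  have h' : D.tadj ((1 : K), ⟨u, hu⟩) (k⁻¹ • e) ((1 : K), ⟨u', hu'⟩) := by
    refine ⟨rfl, ?_⟩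
    show u' = u ++ [((1 : K)⁻¹ • k⁻¹ • e, true)] ∨ u = u' ++ [((1 : K)⁻¹ • k⁻¹ • e, false)]
    rw [inv_one, one_smul]
    exact h
  refine ⟨k, edg h', ?_, ?_⟩
  · rw [Set.Finite.mem_toFinset, Set.mem_iUnion₂]
    rcases h with h | h
    · exact ⟨u', hu', u, hu, hu', k⁻¹ • e, Or.inl ⟨h, rfl⟩⟩
    · exact ⟨u, hu, u', hu', hu, k⁻¹ • e, Or.inr ⟨h, rfl⟩⟩
  · refine D.Z.edg_ext (TC_cls k D _) ?_ (TC_cls k D _)
    exact (smul_inv_smul k e).symm

theorem finM (D : TD B) (hM : D.M.Finite) : ∃ S : Finset D.Z.Mks, ∀ τ, ∃ k : K, ∃ s ∈ S, τ = k • s := by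
  have h0 : ∀ t : List (B.E × Bool) × B.F, {τ : D.Z.Mks | ∃ h : t.1 ∈ D.T,
      τ.1 = (D.cls ((1 : K), ⟨t.1, h⟩), t.2)}.Subsingleton := by
    rintro t τ ⟨h, h1⟩ τ' ⟨h', h1'⟩
    exact Subtype.ext (h1.trans h1'.symm)
  have h1 : (⋃ t ∈ D.M, {τ : D.Z.Mks | ∃ h : t.1 ∈ D.T,
      τ.1 = (D.cls ((1 : K), ⟨t.1, h⟩), t.2)}).Finite := hM.biUnion fun t _ => (h0 t).finite
  refine ⟨h1.toFinset, ?_⟩
  rintro ⟨⟨X, σ⟩, hτ⟩
  obtain ⟨⟨k, u, hu⟩, hx, h⟩ := hτ
  change D.cls _ = X at hx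
  subst hx
  change (u, k⁻¹ • σ) ∈ D.M at h
  have h' : D.tmark ((1 : K), ⟨u, hu⟩) (k⁻¹ • σ) := by
    show (u, (1 : K)⁻¹ • k⁻¹ • σ) ∈ D.M
    rw [inv_one, one_smul]
    exact h
  refine ⟨k, mrk h', ?_, ?_⟩
  · rw [Set.Finite.mem_toFinset, Set.mem_iUnion₂]
    exact ⟨(u, k⁻¹ • σ), h, hu, rfl⟩
  · refine D.Z.mks_ext (TC_cls k D _) ?_
    exact (smul_inv_smul k σ).symm

theorem TC_sub (D : TD B) {β : Type} [MulAction K β] (x a : D.Z.V) (b : β) :
    {e : β | ∃ k : K, x = k • a ∧ e = k • b}.Subsingleton := by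
  rintro e ⟨k, h1, h2⟩ e' ⟨k', h1', h2'⟩
  have h3 : (k'⁻¹ * k) • a = a := by
    rw [mul_smul, ← h1, h1', inv_smul_smul]
  have h4 := D.Z.free _ _ h3
  have h5 : k' = k := inv_mul_eq_one.1 h4
  rw [h2, h2', h5]

theorem hfin (D : TD B) (hT : D.T.Finite) (hM : D.M.Finite) : D.Z.HFin := by
  obtain ⟨S, hS⟩ := finE D hT
  obtain ⟨S', hS'⟩ := finM D hM
  refine ⟨finV D hT, fun x => ?_, fun y => ?_, fun x => ?_⟩
  · refine (S.finite_toSet.biUnion fun s _ => (TC_sub D x (D.Z.esrc s) (D.Z.epr s)).finite).subset ?_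
    rintro e ⟨y, h⟩
    obtain ⟨k, s, hs, h1⟩ := hS ⟨(x, e, y), h⟩
    rw [Set.mem_iUnion₂]
    refine ⟨s, hs, k, ?_, ?_⟩
    · exact congrArg D.Z.esrc h1
    · exact congrArg D.Z.epr h1
  · refine (S.finite_toSet.biUnion fun s _ => (TC_sub D y (D.Z.etgt s) (D.Z.epr s)).finite).subset ?_
    rintro e ⟨x, h⟩
    obtain ⟨k, s, hs, h1⟩ := hS ⟨(x, e, y), h⟩
    rw [Set.mem_iUnion₂]
    refine ⟨s, hs, k, ?_, ?_⟩
    · exact congrArg D.Z.etgt h1
    · exact congrArg D.Z.epr h1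
  · refine (S'.finite_toSet.biUnion fun s _ =>
      (TC_sub D x (D.Z.mbase s) (D.Z.mpr s)).finite).subset ?_
    rintro σ h
    obtain ⟨k, s, hs, h1⟩ := hS' ⟨(x, σ), h⟩
    rw [Set.mem_iUnion₂]
    refine ⟨s, hs, k, ?_, ?_⟩
    · exact congrArg D.Z.mbase h1
    · exact congrArg D.Z.mpr h1

theorem conn (D : TD B) (hs : Subgroup.closure (Set.range D.s) = ⊤) : D.Z.toIm.toCpx.Conn := by
  have hrefl : ∀ x : D.ZV, ∃ w, D.Z.toIm.toCpx.Walk x w x := fun x => ⟨[], rfl⟩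
  have hsymm : ∀ {x y : D.ZV}, (∃ w, D.Z.toIm.toCpx.Walk x w y) →
      ∃ w, D.Z.toIm.toCpx.Walk y w x := by
    rintro x y ⟨w, hw⟩
    exact ⟨_, isWalk_invRev hw⟩
  have htrans : ∀ {x y z : D.ZV}, (∃ w, D.Z.toIm.toCpx.Walk x w y) →
      (∃ w, D.Z.toIm.toCpx.Walk y w z) → ∃ w, D.Z.toIm.toCpx.Walk x w z := by
    rintro x y z ⟨w, hw⟩ ⟨w', hw'⟩
    exact ⟨w ++ w', isWalk_append.2 ⟨y, hw, hw'⟩⟩
  have hroot : ∀ x : D.W, ∃ w, D.Z.toIm.toCpx.Walk (D.cls (D.root x.1)) w (D.cls x) :=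
    fun x => ⟨_, pth_walk x⟩
  have hgen : ∀ g : K, ∀ k : K, ∃ w, D.Z.toIm.toCpx.Walk (D.cls (D.root k)) w
      (D.cls (D.root (k * g))) := by
    intro g
    have hg : g ∈ Subgroup.closure (Set.range D.s) := by rw [hs]; exact Subgroup.mem_top g
    induction hg using Subgroup.closure_induction with
    | mem x hx =>
      obtain ⟨j, rfl⟩ := hx
      intro k
      rw [cls_gs]
      exact hroot (D.wsv k j)
    | one =>
      intro k
      rw [mul_one]
      exact hrefl _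
    | mul x y _ _ hx hy =>
      intro k
      rw [← mul_assoc]
      exact htrans (hx k) (hy (k * x))
    | inv x _ hx =>
      intro k
      have h1 := hx (k * x⁻¹)
      rw [inv_mul_cancel_right] at h1
      exact hsymm h1
  refine ⟨⟨D.cls (D.root 1)⟩, ?_⟩
  refine ind_cls (D := D) (P := fun x => ∀ y : D.ZV, ∃ w, D.Z.toIm.toCpx.Walk x w y) fun x => ?_
  refine ind_cls (D := D) (P := fun y => ∃ w, D.Z.toIm.toCpx.Walk (D.cls x) w y) fun y => ?_
  refine htrans (hsymm (hroot x)) (htrans ?_ (hroot y))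
  have h1 := hgen (x.1⁻¹ * y.1) x.1
  rw [mul_inv_cancel_left] at h1
  exact h1

/-- constructor: all prefixes of the words in `P`, of the `ws j` and of the `u ++ bd σ`, `(u, σ) ∈ M` -/
def of (B : HCpx K) (v : B.V) {n : ℕ} (s : Fin n → K) (ws : Fin n → List (B.E × Bool))
    (hws : ∀ j, B.Walk v (ws j) (s j • v)) (P : Set (List (B.E × Bool)))
    (hP : ∀ p ∈ P, ∃ y, B.Walk v p y) (M : Set (List (B.E × Bool) × B.F))
    (hM : ∀ t ∈ M, B.Walk v t.1 (B.base t.2)) : TD B where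
  v := v
  T := {u | u = [] ∨ (∃ p ∈ P, u <+: p) ∨ (∃ j, u <+: ws j) ∨ ∃ t ∈ M, u <+: t.1 ++ B.bd t.2}
  nil_mem := Or.inl rfl
  pre := by
    intro u a h
    have h1 : u <+: u ++ [a] := List.prefix_append _ _
    rcases h with h | ⟨p, hp, h⟩ | ⟨j, h⟩ | ⟨t, ht, h⟩
    · simp at h
    · exact Or.inr (Or.inl ⟨p, hp, h1.trans h⟩)
    · exact Or.inr (Or.inr (Or.inl ⟨j, h1.trans h⟩))
    · exact Or.inr (Or.inr (Or.inr ⟨t, ht, h1.trans h⟩))
  walk := by
    have key : ∀ (u p : List (B.E × Bool)) (y : B.V), u <+: p → B.Walk v p y →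
        ∃ y, IsWalk B.src B.tgt v u y := by
      rintro u _ y ⟨w, rfl⟩ h
      obtain ⟨z, hz, _⟩ := isWalk_append.1 h
      exact ⟨z, hz⟩
    rintro u (h | ⟨p, hp, h⟩ | ⟨j, h⟩ | ⟨t, ht, h⟩)
    · exact ⟨v, by subst h; rfl⟩
    · obtain ⟨y, hy⟩ := hP p hp
      exact key _ _ _ h hy
    · exact key _ _ _ h (hws j)
    · exact key _ _ _ h (isWalk_append.2 ⟨_, hM t ht, B.bd_walk t.2⟩)
  n := n
  s := s
  ws := ws
  ws_mem := fun j => Or.inr (Or.inr (Or.inl ⟨j, List.prefix_rfl⟩))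
  ws_walk := hws
  M := M
  M_walk := hM
  M_mem := fun t ht => Or.inr (Or.inr (Or.inr ⟨t, ht, List.prefix_rfl⟩))

theorem TC_inits {α : Type} (p : List α) : {u : List α | u <+: p}.Finite := by
  refine (List.finite_toSet p.inits).subset ?_
  intro u hu
  exact (List.mem_inits u p).2 hu

theorem of_T_finite (B : HCpx K) (v : B.V) {n : ℕ} (s : Fin n → K) (ws : Fin n → List (B.E × Bool))
    (hws : ∀ j, B.Walk v (ws j) (s j • v)) (P : Set (List (B.E × Bool)))
    (hP : ∀ p ∈ P, ∃ y, B.Walk v p y) (M : Set (List (B.E × Bool) × B.F))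
    (hM : ∀ t ∈ M, B.Walk v t.1 (B.base t.2)) (hPf : P.Finite) (hMf : M.Finite) :
    (TD.of B v s ws hws P hP M hM).T.Finite := by
  have h1 : ({[]} ∪ ((⋃ p ∈ P, {u | u <+: p}) ∪ ((⋃ j : Fin n, {u | u <+: ws j}) ∪
      ⋃ t ∈ M, {u | u <+: t.1 ++ B.bd t.2})) : Set (List (B.E × Bool))).Finite := by
    refine (Set.finite_singleton _).union ((hPf.biUnion fun p _ => TC_inits p).union
      ((Set.finite_iUnion fun j => TC_inits (ws j)).union (hMf.biUnion fun t _ => TC_inits _)))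
  refine h1.subset ?_
  rintro u (h | ⟨p, hp, h⟩ | ⟨j, h⟩ | ⟨t, ht, h⟩)
  · exact Or.inl h
  · exact Or.inr (Or.inl (Set.mem_iUnion₂.2 ⟨p, hp, h⟩))
  · exact Or.inr (Or.inr (Or.inl (Set.mem_iUnion.2 ⟨j, h⟩)))
  · exact Or.inr (Or.inr (Or.inr (Set.mem_iUnion₂.2 ⟨t, ht, h⟩)))

end Pool.Agent.H60.CI.TD
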