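import Pool.Agent.H50.CI.TE
import Pool.Agent.H50.CI.TC
import Pool.Agent.H50.CI.N1
import Pool.Agent.H50.CI.N2
import Pool.Agent.H50.CI.N5
import Pool.Agent.H50.CI.N8

/-!
# ROW N7: collapsing nonpositive immersions: the fundamental group is locally indicable
`LocInd`: file `N8.lean`. Let `K ≤ Pi1 X x0` be finitely generated, without nontrivial homomorphism to
`Multiplicative ℚ`. Claim `K = ⊥`.

`exists_gens`: generators `s : Fin n → K` with `Subgroup.closure (Set.range s) = ⊤` (in `Subgroup K`):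
`K.FG` gives `Group.FG K` (`Group.fg_iff_subgroup_fg`), a finite set, enumerate it.
`B := (XtH X x0).restr K` (`U1.lean`), `B.Conn` and `B.LolliSC` are `Xt_conn`, `Xt_sc` (`U4.lean`, same
underlying complex). `v : B.V`, `ws j` a walk from `v` to `s j • v` (`Xt_conn`). `R` from `exists_relators`
(`N5.lean`). For `ρ ∈ R` the word `gpath B s ws 1 ρ` is a walk from `1 • v` to `(1 * ev s ρ) • v = v`
(`gpath_walk`), so `LolliSC` gives `L ρ` with `FreeGroup.mk (gpath B s ws 1 ρ) = ((L ρ).map B.lolli).prod` and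
`t.1` a walk from `v` to `base t.2.1` for `t ∈ L ρ`. `M := {(t.1, t.2.1) | ρ ∈ R, t ∈ L ρ}` (finite),
`P := ∅`, `D := TD.of B v s ws _ ∅ _ M _` (`TC.lean`), `D.T` finite (`of_T_finite`).
`Z := D.Z.toHCpx` (`HIm.lean`; underlying complex `D.Z.toIm.toCpx`, `Z.E = D.Z.Edg`, `Z.bd = bdw`).
`Z.Conn` by `conn`. `Z.quot` is finite (`quot_finite` with `finV`, `finE`, `finM`), connected
(`quot_conn`), and `H1Zero` by `quot_h1`: let `w` be a `K`-invariant cocycle. `psi0 w (wsv k j)` does not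
depend on `k` (`psi0_smul`, `wsv k j = tr k (wsv 1 j)` up to `mul_one`); call it `lam j`. By `lam_zero`
`Lam D.s (fun _ j => lam j) k ρ = 0` for all `k`, `ρ ∈ R`, so `lam = 0`. `exact_of` with `c = 0` gives `Ψ` with
`Ψ (cls x) = 0 + psi0 w x`, which is invariant by `psi0_smul` (`smul_cls`, `ind_cls`).
So `1 ≤ Z.quot.chi` (`one_le_chi`). The immersion `Cpx.Hom.comp (cov X x0) D.Z.toIm.hom : Z → X` (`cov_imm`,
`hom_isImm`, `IsImm.comp`) is constant on `K`-orbits (`HIm.p_smul`, `epr_smul`, `mpr_smul`, and the covering map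
forgets the class: `UV.smul_endp` is `rfl`), so `quot_hom` gives an immersion `Z.quot → X`. CNPI gives
`Z.quot.Collapsible`, and `trivial_of_quot_collapsible` (`N4.lean`) gives `k = 1` for all `k : K`.
-/

noncomputable section

set_option autoImplicit false
set_option linter.unusedVariables false

namespace Pool.Agent.H50.CI

open Pool.Agent.H60.CI

theorem exists_gens {G : Type} [Group G] (K : Subgroup G) (hK : K.FG) :
    ∃ (n : ℕ) (s : Fin n → K), Subgroup.closure (Set.range s) = ⊤ := by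
  have h1 : Group.FG K := (Group.fg_iff_subgroup_fg K).2 hK
  obtain ⟨S, hS⟩ := h1.out
  refine ⟨S.card, fun i => (S.equivFin.symm i : K), ?_⟩
  rw [← hS]
  congr 1
  ext x
  constructor
  · rintro ⟨i, rfl⟩
    exact (S.equivFin.symm i).2
  · intro hx
    refine ⟨S.equivFin ⟨x, hx⟩, ?_⟩
    show (S.equivFin.symm (S.equivFin ⟨x, hx⟩) : K) = x
    rw [Equiv.symm_apply_apply]

theorem N7_main {K : Type} [Group K] {B : HCpx K} (D : TD B) {X : Cpx} (hX : X.CNPI)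
    (φ : Cpx.Hom B.toCpx X) (hφ : φ.IsImm) (hv : ∀ (k : K) (x : B.V), φ.v (k • x) = φ.v x)
    (he : ∀ (k : K) (x : B.E), φ.e (k • x) = φ.e x) (hf : ∀ (k : K) (x : B.F), φ.f (k • x) = φ.f x)
    (hs : Subgroup.closure (Set.range D.s) = ⊤) (hT : D.T.Finite) (hM : D.M.Finite)
    (R : List (List (Fin D.n × Bool)))
    (hR : ∀ lam : Fin D.n → ℚ, (∀ ρ ∈ R, ∀ k, Lam D.s (fun _ j => lam j) k ρ = 0) → lam = 0)
    (hL : ∀ ρ ∈ R, ∃ L : List (List (B.E × Bool) × B.F × Bool), (∀ t ∈ L, (t.1, t.2.1) ∈ D.M) ∧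
      FreeGroup.mk (gpath B D.s D.ws 1 ρ) = (L.map B.lolli).prod) (k : K) : k = 1 := by
  have hc : D.Z.toHCpx.Conn := TD.conn D hs
  have fV : Finite D.Z.toHCpx.quot.V := by
    obtain ⟨S, h⟩ := TD.finV D hT
    exact HCpx.quot_finite S h
  have fE : Finite D.Z.toHCpx.quot.E := by
    obtain ⟨S, h⟩ := TD.finE D hT
    exact HCpx.quot_finite S h
  have fF : Finite D.Z.toHCpx.quot.F := by
    obtain ⟨S, h⟩ := TD.finM D hM
    exact HCpx.quot_finite S h
  have h1 : D.Z.toHCpx.quot.H1Zero := by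
    refine HCpx.quot_h1 D.Z.toHCpx fun w hw hinv => ?_
    have hwsv : ∀ (k : K) (j : Fin D.n), TD.psi0 w (D.wsv k j) = TD.psi0 w (D.wsv 1 j) := by
      intro k j
      have h2 : TD.tr k (D.wsv 1 j) = D.wsv k j := Prod.ext (mul_one k) rfl
      rw [← h2]
      exact TD.psi0_smul w hinv k (D.wsv 1 j)
    have hfun : (fun (k : K) (j : Fin D.n) => TD.psi0 w (D.wsv k j)) =
        fun _ j => TD.psi0 w (D.wsv 1 j) := by
      funext k j
      exact hwsv k j
    have hlam : (fun j => TD.psi0 w (D.wsv 1 j)) = 0 := by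
      apply hR
      intro ρ hρ k
      obtain ⟨L, g1, g2⟩ := hL ρ hρ
      have g3 := TD.lam_zero w hw k ρ L g1 g2
      rw [hfun] at g3
      exact g3
    obtain ⟨Ψ, p1, p2⟩ := TD.exact_of w hw (fun _ => 0) (fun k j => by
      have g4 := congrFun hlam j
      have g5 : TD.psi0 w (D.wsv k j) = 0 := (hwsv k j).trans g4
      rw [g5, add_zero])
    refine ⟨Ψ, fun k => ?_, p2⟩
    refine TD.ind_cls (D := D) (P := fun x => Ψ (k • x) = Ψ x) fun x => ?_
    show Ψ (D.cls (TD.tr k x)) = Ψ (D.cls x)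
    rw [p1, p1, TD.psi0_smul w hinv k x]
  have hqc := HCpx.quot_conn D.Z.toHCpx hc
  have hchi := Cpx.one_le_chi D.Z.toHCpx.quot hqc h1
  have hΦ : (Cpx.Hom.comp φ D.Z.toIm.hom).IsImm := hφ.comp D.Z.toIm.hom_isImm
  obtain ⟨ψ, hψ⟩ := HCpx.quot_hom D.Z.toHCpx (Cpx.Hom.comp φ D.Z.toIm.hom) hΦ
    (fun k x => (congrArg φ.v (D.Z.p_smul k x)).trans (hv k _))
    (fun k x => he k (D.Z.epr x)) (fun k x => hf k (D.Z.mpr x))
  rcases hX D.Z.toHCpx.quot fV fE fF hqc ψ hψ with h2 | h2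
  · omega
  · exact HCpx.trivial_of_quot_collapsible D.Z.toHCpx hc h2 k

theorem locInd {X : Cpx} (hX : X.CNPI) (x0 : X.V) : LocInd (Pi1 X x0) := by
  intro K hK hne
  by_contra hcon
  push Not at hcon
  apply hne
  obtain ⟨n, s, hs⟩ := exists_gens K hK
  obtain ⟨B, hB⟩ : ∃ B : HCpx K, B = (XtH X x0).restr K := ⟨_, rfl⟩
  have hBc : B.Conn := by
    rw [hB]
    exact Xt_conn
  have hBs : B.LolliSC := by
    rw [hB]
    exact Xt_sc
  obtain ⟨φ, hφ, hv, he, hf⟩ : ∃ φ : Cpx.Hom B.toCpx X, φ.IsImm ∧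
      (∀ (k : K) (x : B.V), φ.v (k • x) = φ.v x) ∧ (∀ (k : K) (x : B.E), φ.e (k • x) = φ.e x) ∧
      ∀ (k : K) (x : B.F), φ.f (k • x) = φ.f x := by
    rw [hB]
    exact ⟨cov X x0, cov_imm, fun k x => rfl, fun k x => rfl, fun k x => rfl⟩
  obtain ⟨⟨v⟩, hconn⟩ := hBc
  have hws' : ∀ j, ∃ w, B.Walk v w (s j • v) := fun j => hconn v (s j • v)
  choose ws hws using hws'
  obtain ⟨R, hR1, hR2⟩ := exists_relators s hs hcon
  have hL : ∀ ρ : List (Fin n × Bool), ∃ L : List (List (B.E × Bool) × B.F × Bool), ρ ∈ R →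
      (∀ t ∈ L, B.Walk v t.1 (B.base t.2.1)) ∧
      FreeGroup.mk (gpath B s ws 1 ρ) = (L.map B.lolli).prod := by
    intro ρ
    by_cases hρ : ρ ∈ R
    · have h1 := gpath_walk B s ws v hws 1 ρ
      rw [hR1 ρ hρ, mul_one, one_smul] at h1
      obtain ⟨L, h2, h3⟩ := hBs v _ h1
      exact ⟨L, fun _ => ⟨h2, h3⟩⟩
    · exact ⟨[], fun h => absurd h hρ⟩
  choose L hL using hL
  obtain ⟨Ml, hMl⟩ : ∃ Ml : List (List (B.E × Bool) × B.F),
      Ml = R.flatMap (fun ρ => (L ρ).map fun t => (t.1, t.2.1)) := ⟨_, rfl⟩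
  have hMm : ∀ t, t ∈ Ml ↔ ∃ ρ ∈ R, ∃ t' ∈ L ρ, (t'.1, t'.2.1) = t := by
    intro t
    rw [hMl, List.mem_flatMap]
    simp only [List.mem_map]
  have hMw : ∀ t ∈ {t | t ∈ Ml}, B.Walk v t.1 (B.base t.2) := by
    intro t ht
    obtain ⟨ρ, hρ, t', ht', rfl⟩ := (hMm t).1 ht
    exact (hL ρ hρ).1 t' ht'
  have hMf : {t | t ∈ Ml}.Finite := List.finite_toSet Ml
  have hTf := TD.of_T_finite B v s ws hws ∅ (fun p hp => absurd hp (Set.notMem_empty p))
    {t | t ∈ Ml} hMw Set.finite_empty hMf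
  rw [Subgroup.eq_bot_iff_forall]
  intro g hg
  have key := N7_main (TD.of B v s ws hws ∅ (fun p hp => absurd hp (Set.notMem_empty p))
    {t | t ∈ Ml} hMw) hX φ hφ hv he hf hs hTf hMf R hR2
    (fun ρ hρ => ⟨L ρ, fun t ht => (hMm _).2 ⟨ρ, hρ, t, ht, rfl⟩, (hL ρ hρ).2⟩) ⟨g, hg⟩
  exact congrArg Subtype.val key

end Pool.Agent.H50.CI
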