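import Pool.Agent.H50.CI.N6
import Pool.Agent.H50.CI.N7
import Pool.Agent.H62.CI.FP

/-!
# From Theorem A to the statement on complexes with collapsing nonpositive immersions
-/

noncomputable section

set_option autoImplicit false

namespace Pool.Agent.H50.CI

open Pool.Agent.H60.CI Pool.Agent.H62.CI

/-- Theorem A (proved in `Pool/Agent/H60/CI`) -/
def ThmA : Prop := ∀ (H : Type) [Group H] (B : HCpx H), B.Conn → B.LolliSC → B.DR →
  NoZeroDivisors (MonoidAlgebra ℚ H) → FPtwo ℚ H → Group.IsFinitelyPresented H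

theorem main (hA : ThmA) {X : Cpx} (hX : X.CNPI) (x0 : X.V) (H : Subgroup (Pi1 X x0))
    (h : FPtwo ℚ H) : Group.IsFinitelyPresented H :=
  hA H ((XtH X x0).restr H) Xt_conn Xt_sc (dr_Xt hX x0)
    (noZeroDivisors_subgroup (locInd hX x0) H) h

end Pool.Agent.H50.CI
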