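import Pool.Agent.H50.CI.U1

/-!
# Euler characteristic, collapsibility, collapsing nonpositive immersions, quotient complexes
-/

set_option autoImplicit false
set_option linter.unusedVariables false

namespace Pool.Agent.H60.CI

namespace Cpx

/-- Euler characteristic (of a finite complex) -/
noncomputable def chi (Y : Cpx) : ℤ := (Nat.card Y.V : ℤ) - Nat.card Y.E + Nat.card Y.F

/-- `Built Y A B C`: the subcomplex of `Y` with vertices `A`, edges `B`, 2-cells `C` arises from a
point by elementary expansions:
* `leaf`: a new edge `e` joins a new vertex `x` to an old vertex;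
* `face`: a new edge `e` joins old vertices, and a new 2-cell `τ` is attached along a path which
  passes exactly once over `e` and otherwise over old edges.
(Backwards: the subcomplex collapses to a point.) -/
inductive Built (Y : Cpx) : Set Y.V → Set Y.E → Set Y.F → Prop
  | point (x : Y.V) : Built Y {x} ∅ ∅
  | leaf {A : Set Y.V} {B : Set Y.E} {C : Set Y.F} (x : Y.V) (e : Y.E) :
      Built Y A B C → x ∉ A → e ∉ B →
      ((Y.src e ∈ A ∧ Y.tgt e = x) ∨ (Y.src e = x ∧ Y.tgt e ∈ A)) →
      Built Y (insert x A) (insert e B) C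
  | face {A : Set Y.V} {B : Set Y.E} {C : Set Y.F} (e : Y.E) (τ : Y.F) :
      Built Y A B C → e ∉ B → τ ∉ C → Y.src e ∈ A → Y.tgt e ∈ A →
      (∃ w₁ b w₂, Y.bd τ = w₁ ++ (e, b) :: w₂ ∧ ∀ a ∈ w₁ ++ w₂, a.1 ∈ B) →
      Built Y A (insert e B) (insert τ C)

/-- `Y` collapses to a point -/
def Collapsible (Y : Cpx) : Prop := Built Y Set.univ Set.univ Set.univ

/-- collapsing nonpositive immersions: every finite connected complex immersed in `X` has
nonpositive Euler characteristic or collapses to a point -/
def CNPI (X : Cpx) : Prop := ∀ Y : Cpx, Finite Y.V → Finite Y.E → Finite Y.F → Y.Conn →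
  ∀ φ : Hom Y X, φ.IsImm → Y.chi ≤ 0 ∨ Y.Collapsible

/-- the integral of a 1-cochain over a word -/
def integ {E M : Type} [AddCommGroup M] (w : E → M) (l : List (E × Bool)) : M :=
  (l.map (fun a => if a.2 then w a.1 else - w a.1)).sum

/-- every rational 1-cocycle is a coboundary -/
def H1Zero (Y : Cpx) : Prop := ∀ w : Y.E → ℚ, (∀ τ, integ w (Y.bd τ) = 0) →
  ∃ ψ : Y.V → ℚ, ∀ ε, w ε = ψ (Y.tgt ε) - ψ (Y.src ε)

theorem integ_nil {E M : Type} [AddCommGroup M] (w : E → M) : integ w [] = 0 := rfl

theorem integ_cons {E M : Type} [AddCommGroup M] (w : E → M) (a : E × Bool) (l : List (E × Bool)) :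
    integ w (a :: l) = (if a.2 then w a.1 else - w a.1) + integ w l := by
  simp [integ]

theorem integ_append {E M : Type} [AddCommGroup M] (w : E → M) (l l' : List (E × Bool)) :
    integ w (l ++ l') = integ w l + integ w l' := by
  simp [integ]

theorem integ_map {E E' M : Type} [AddCommGroup M] (w : E' → M) (φ : E → E') (l : List (E × Bool)) :
    integ w (l.map (Prod.map φ id)) = integ (w ∘ φ) l := by
  simp [integ, List.map_map, Function.comp_def]

end Cpx

namespace HCpx

variable {K : Type} [Group K]

/-- the quotient complex `Z / K` -/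
def quot (Z : HCpx K) : Cpx where
  V := MulAction.orbitRel.Quotient K Z.V
  E := MulAction.orbitRel.Quotient K Z.E
  F := MulAction.orbitRel.Quotient K Z.F
  src := Quotient.map' Z.src (by
    rintro a b ⟨k, rfl⟩
    exact ⟨k, (Z.src_smul k b).symm⟩)
  tgt := Quotient.map' Z.tgt (by
    rintro a b ⟨k, rfl⟩
    exact ⟨k, (Z.tgt_smul k b).symm⟩)
  base := Quotient.map' Z.base (by
    rintro a b ⟨k, rfl⟩
    exact ⟨k, (Z.base_smul k b).symm⟩)
  bd := fun τ => Quotient.liftOn' τ (fun τ => (Z.bd τ).map (Prod.map (fun ε => Quotient.mk'' ε) id)) (by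
    rintro a b ⟨k, rfl⟩
    simp only [Z.bd_smul, List.map_map]
    refine List.map_congr_left fun c _ => ?_
    refine Prod.ext ?_ rfl
    exact Quotient.sound ⟨k, rfl⟩)
  bd_walk := by
    intro τ
    induction τ using Quotient.ind with
    | _ τ =>
      have key : ∀ (x y : Z.V) (w : List (Z.E × Bool)), IsWalk Z.src Z.tgt x w y →
          IsWalk (Quotient.map' (s₂ := MulAction.orbitRel K Z.V) (s₁ := MulAction.orbitRel K Z.E) Z.src
              (by rintro a b ⟨k, rfl⟩; exact ⟨k, (Z.src_smul k b).symm⟩))
            (Quotient.map' (s₂ := MulAction.orbitRel K Z.V) (s₁ := MulAction.orbitRel K Z.E) Z.tgt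
              (by rintro a b ⟨k, rfl⟩; exact ⟨k, (Z.tgt_smul k b).symm⟩))
            (Quotient.mk'' x) (w.map (Prod.map (fun ε => Quotient.mk'' ε) id)) (Quotient.mk'' y) := by
        intro x y w
        induction w generalizing x with
        | nil => rintro rfl; rfl
        | cons a w ih =>
          rintro ⟨h1, h2⟩
          obtain ⟨e, b⟩ := a
          refine ⟨?_, ?_⟩
          · rw [← h1]
            cases b <;> rfl
          · have := ih _ h2
            cases b <;> exact this
      exact key _ _ _ (Z.bd_walk τ)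

/-- the projection -/
def proj (Z : HCpx K) : Cpx.Hom Z.toCpx Z.quot where
  v := fun x => Quotient.mk'' x
  e := fun x => Quotient.mk'' x
  f := fun x => Quotient.mk'' x
  src_v := fun ε => rfl
  tgt_v := fun ε => rfl
  base_v := fun τ => rfl
  bd_e := fun τ => rfl

end HCpx

end Pool.Agent.H60.CI
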