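import Pool.Agent.H50.CI.N0

/-!
# ROW N3: subcomplexes of a collapsible complex have free faces
`Cpx.Built` is in `N0.lean`, `Cpx.DR` in `U0.lean`. Three inductions on `Built Y A B C`:
* `edge_mem`: edges of `B` have both ends in `A`.
* `bd_mem`: 2-cells `τ ∈ C` have all edges of `bd τ` in `B`.
* `free`: if `S ⊆ C` is non-empty then some `σ ∈ S` has a position `bd σ = w₁ ++ a :: w₂` such that the
  edge `a.1` occurs neither in `w₁ ++ w₂` nor in `bd σ'`, `σ' ∈ S`, `σ' ≠ σ`. Induction: `point`: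
  `S = ∅`, contradiction; `leaf`: `C` is unchanged; `face e τ`: if `τ ∉ S` then `S ⊆ C`, induction. If
  `τ ∈ S` take `σ = τ`, `a = (e, b)`: other edges of `bd τ` lie in `B` and `e ∉ B`; `σ' ∈ S`, `σ' ≠ τ` lies in
  the old `C`, so the edges of `bd σ'` lie in the old `B` by `bd_mem`, and `e ∉ B`.
* `dr_of_collapsible`: `free` with `A = B = C = univ`.
-/

set_option autoImplicit false

namespace Pool.Agent.H60.CI.Cpx

variable {Y : Cpx} {A : Set Y.V} {B : Set Y.E} {C : Set Y.F}

theorem Built.edge_mem (h : Built Y A B C) {e : Y.E} (he : e ∈ B) : Y.src e ∈ A ∧ Y.tgt e ∈ A := by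
  induction h with
  | point x => exact absurd he (Set.notMem_empty _)
  | leaf x e' h hx he' hor ih =>
    rcases he with rfl | he
    · rcases hor with ⟨h1, h2⟩ | ⟨h1, h2⟩
      · exact ⟨Set.mem_insert_of_mem _ h1, h2 ▸ Set.mem_insert _ _⟩
      · exact ⟨h1 ▸ Set.mem_insert _ _, Set.mem_insert_of_mem _ h2⟩
    · exact ⟨Set.mem_insert_of_mem _ (ih he).1, Set.mem_insert_of_mem _ (ih he).2⟩
  | face e' τ h he' hτ hs ht hex ih =>
    rcases he with rfl | he
    · exact ⟨hs, ht⟩
    · exact ih he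

theorem Built.bd_mem (h : Built Y A B C) {τ : Y.F} (hτ : τ ∈ C) : ∀ a ∈ Y.bd τ, a.1 ∈ B := by
  induction h with
  | point x => exact absurd hτ (Set.notMem_empty _)
  | leaf x e' h hx he' hor ih =>
    intro a ha
    exact Set.mem_insert_of_mem _ (ih hτ a ha)
  | face e' τ' h he' hτ' hs ht hex ih =>
    intro a ha
    rcases hτ with rfl | hτ
    · obtain ⟨w₁, b, w₂, hb, hw⟩ := hex
      rw [hb, List.mem_append, List.mem_cons] at ha
      rcases ha with ha | ha | ha
      · exact Set.mem_insert_of_mem _ (hw a (List.mem_append.2 (Or.inl ha)))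
      · rw [ha]
        exact Set.mem_insert _ _
      · exact Set.mem_insert_of_mem _ (hw a (List.mem_append.2 (Or.inr ha)))
    · exact Set.mem_insert_of_mem _ (ih hτ a ha)

theorem Built.free (h : Built Y A B C) (S : Set Y.F) (hS : S ⊆ C) (hne : S.Nonempty) :
    ∃ σ ∈ S, ∃ w₁ a w₂, Y.bd σ = w₁ ++ a :: w₂ ∧ (∀ c ∈ w₁ ++ w₂, c.1 ≠ a.1) ∧
      ∀ σ' ∈ S, σ' ≠ σ → ∀ c ∈ Y.bd σ', c.1 ≠ a.1 := by
  induction h with
  | point x =>
    obtain ⟨σ, hσ⟩ := hne
    exact absurd (hS hσ) (Set.notMem_empty _)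
  | leaf x e' h hx he' hor ih => exact ih hS
  | face e' τ h he' hτ hs ht hex ih =>
    by_cases hτS : τ ∈ S
    · obtain ⟨w₁, b, w₂, hb, hw⟩ := hex
      refine ⟨τ, hτS, w₁, (e', b), w₂, hb, ?_, ?_⟩
      · intro c hc h1
        have h2 := hw c hc
        rw [h1] at h2
        exact he' h2
      · intro σ' hσ' hne' c hc h1
        have h2 : c.1 ∈ _ := h.bd_mem ((hS hσ').resolve_left hne') c hc
        rw [h1] at h2
        exact he' h2
    · refine ih fun σ hσ => ?_
      rcases hS hσ with h1 | h1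
      · rw [h1] at hσ
        exact absurd hσ hτS
      · exact h1

theorem dr_of_collapsible (h : Y.Collapsible) : Y.DR := by
  intro S _ hne
  exact Built.free h S (Set.subset_univ S) hne

end Pool.Agent.H60.CI.Cpx
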