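import Pool.Agent.H50.CI.N3

/-!
# ROW N4: a connected free cover of a collapsible complex is trivial
`Z : HCpx K` (group `K` acting on the complex `Z`, freely on vertices), quotient complex `Z.quot`
(`N0.lean`; cells = orbits, `Z.proj : Z → Z.quot`). `Z` connected, `Z.quot` collapsible. Claim `K = 1`.

`exists_kappa`: for `Built Z.quot A B C` there is `κ : Z.V → K` with
 (1) `κ (k • v) = k * κ v` for all `k` and all `v` with `[v] ∈ A`;
 (2) `κ (src ε) = κ (tgt ε)` for all `ε : Z.E` with `[ε] ∈ B`.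
Write `[·]` for `Z.proj.v`, `Z.proj.e` (`= Quotient.mk''`); `[v] = [v']` iff `∃ k, k • v' = v`
(`Quotient.exact`, `MulAction.orbitRel_apply`). Induction on `Built`:
* `point x`: choose `v0` with `[v0] = x` (`Quotient.exists_rep`); for `[v] = x` let `κ v` be the `k` with
  `k • v0 = v` (unique by `Z.free`), otherwise `κ v = 1`.
* `leaf x e`: say `src e ∈ A`, `tgt e = x` (other case symmetric, with `src` and `tgt` exchanged). For `[v] = x`
  there is `ε` with `[ε] = e` and `tgt ε = v`: take a representative `ε0` of `e`; `[tgt ε0] = x = [v]`, so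
  `k • tgt ε0 = v`, `ε = k • ε0`; it is unique: `[ε] = [ε']` gives `ε' = k • ε`, then `tgt ε' = k • tgt ε`
  and `tgt ε' = tgt ε` force `k = 1` (`Z.free`). Put `κ' v = κ (src ε)` for `[v] = x`, `κ' v = κ v`
  otherwise. (1): for `[v] = x`: the edge at `k • v` is `k • ε` (uniqueness), and
  `[src ε] = src e ∈ A`. (2): for `[ε] ∈ B` both ends of `[ε]` lie in `A` (`Built.edge_mem`, row N3),
  `x ∉ A`, so `κ'` and `κ` agree there; for `[ε] = e`: `κ' (tgt ε) = κ (src ε)` and `κ' (src ε) = κ (src ε)`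
  (`[src ε] ∈ A`, so it is not `x`).
* `face e τ`: keep `κ`. (2) for `[ε] = e`: `bd τ = w₁ ++ (e, b) :: w₂` in the quotient. Take a representative
  `τ0` of `τ`; `(Z.bd τ0).map (mk × id) = w₁ ++ (e, b) :: w₂`, so `Z.bd τ0 = v₁ ++ (ε1, b) :: v₂` with `[ε1] = e`;
  `ε = k • ε1`; replace `τ0` by `k • τ0` (`Z.bd_smul`) to have `ε1 = ε`. All edges of `v₁`, `v₂` have class in
  `B`, so `κ` is constant along `v₁` and `v₂` (small lemma: `IsWalk x w y` and all edges of `w` satisfy (2)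
  imply `κ x = κ y`); so `κ (oS (ε, b)) = κ (base) = κ (oT (ε, b))`, which is the claim.

`trivial_of_quot_collapsible`: `κ` for `A = B = univ`; `Z` connected so `κ` is constant (walk lemma);
`κ (k • v) = k * κ v = κ v` gives `k = 1`.
-/

set_option autoImplicit false

namespace Pool.Agent.H60.CI.HCpx

variable {K : Type} [Group K]

theorem N4_v (Z : HCpx K) {v v' : Z.V} : Z.proj.v v = Z.proj.v v' ↔ ∃ k : K, k • v' = v := by
  change (Quotient.mk'' v : MulAction.orbitRel.Quotient K Z.V) = Quotient.mk'' v' ↔ _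
  rw [Quotient.eq'']
  exact Iff.rfl

theorem N4_e (Z : HCpx K) {v v' : Z.E} : Z.proj.e v = Z.proj.e v' ↔ ∃ k : K, k • v' = v := by
  change (Quotient.mk'' v : MulAction.orbitRel.Quotient K Z.E) = Quotient.mk'' v' ↔ _
  rw [Quotient.eq'']
  exact Iff.rfl

theorem N4_ke (Z : HCpx K) (k : K) (ε : Z.E) : Z.proj.e (k • ε) = Z.proj.e ε :=
  (N4_e Z).2 ⟨k, rfl⟩

theorem N4_kv (Z : HCpx K) (k : K) (v : Z.V) : Z.proj.v (k • v) = Z.proj.v v :=
  (N4_v Z).2 ⟨k, rfl⟩

theorem N4_free (Z : HCpx K) {a b : K} {v : Z.V} (h : a • v = b • v) : a = b := by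
  have h1 : (b⁻¹ * a) • v = v := by rw [mul_smul, h, inv_smul_smul]
  have h2 := Z.free _ _ h1
  rwa [inv_mul_eq_one, eq_comm] at h2

theorem N4_walk {M : Type} (Z : HCpx K) (κ : Z.V → M) : ∀ (w : List (Z.E × Bool)) (x y : Z.V),
    IsWalk Z.src Z.tgt x w y → (∀ a ∈ w, κ (Z.src a.1) = κ (Z.tgt a.1)) → κ x = κ y := by
  intro w
  induction w with
  | nil =>
    intro x y h _
    have h' : x = y := h
    rw [h']
  | cons a w ih =>
    intro x y h hw
    obtain ⟨h1, h2⟩ := h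
    have h3 := ih _ y h2 fun c hc => hw c (List.mem_cons_of_mem _ hc)
    have h4 := hw a List.mem_cons_self
    rw [← h3, ← h1]
    unfold oS oT
    split_ifs
    · exact h4
    · exact h4.symm

theorem N4_split (Z : HCpx K) : ∀ (w₁ : List (Z.E × Bool)) (a : Z.E × Bool)
    (w₂ : List (Z.E × Bool)) (x y : Z.V), IsWalk Z.src Z.tgt x (w₁ ++ a :: w₂) y →
    IsWalk Z.src Z.tgt x w₁ (oS Z.src Z.tgt a) ∧ IsWalk Z.src Z.tgt (oT Z.src Z.tgt a) w₂ y := by
  intro w₁
  induction w₁ with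
  | nil =>
    intro a w₂ x y h
    exact ⟨h.1.symm, h.2⟩
  | cons c w ih =>
    intro a w₂ x y h
    obtain ⟨h1, h2⟩ := h
    obtain ⟨h3, h4⟩ := ih a w₂ _ y h2
    exact ⟨⟨h1, h3⟩, h4⟩

theorem N4_leaf (Z : HCpx K) (κ : Z.V → K) (A : Set Z.quot.V)
    (hκ : ∀ (k : K) (v : Z.V), Z.proj.v v ∈ A → κ (k • v) = k * κ v)
    (x : Z.quot.V) (hx : x ∉ A) (e : Z.quot.E) (s t : Z.E → Z.V)
    (hs : ∀ (k : K) (ε : Z.E), s (k • ε) = k • s ε) (ht : ∀ (k : K) (ε : Z.E), t (k • ε) = k • t ε)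
    (hsA : ∀ ε, Z.proj.e ε = e → Z.proj.v (s ε) ∈ A)
    (htx : ∀ ε, Z.proj.e ε = e → Z.proj.v (t ε) = x) :
    ∃ κ' : Z.V → K, (∀ v, Z.proj.v v ∈ A → κ' v = κ v) ∧
      (∀ (k : K) (v : Z.V), Z.proj.v v ∈ insert x A → κ' (k • v) = k * κ' v) ∧
      ∀ ε, Z.proj.e ε = e → κ' (s ε) = κ' (t ε) := by
  classical
  have hex : ∀ v, Z.proj.v v = x → ∃ ε, Z.proj.e ε = e ∧ t ε = v := by
    intro v hv
    obtain ⟨ε0, h0⟩ : ∃ ε0 : Z.E, Z.proj.e ε0 = e := Quotient.exists_rep e
    have h1 : Z.proj.v v = Z.proj.v (t ε0) := by rw [hv, htx ε0 h0]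
    obtain ⟨k, hk⟩ := (N4_v Z).1 h1
    exact ⟨k • ε0, by rw [N4_ke, h0], by rw [ht, hk]⟩
  have huni : ∀ ε ε', Z.proj.e ε = e → Z.proj.e ε' = e → t ε = t ε' → ε = ε' := by
    intro ε ε' h h' htt
    obtain ⟨k, hk⟩ := (N4_e Z).1 (h.trans h'.symm)
    have h1 : k • t ε' = t ε' := by rw [← ht, hk, htt]
    have h2 : k = 1 := Z.free _ _ h1
    rw [← hk, h2, one_smul]
  let κ' : Z.V → K := fun v => if h : Z.proj.v v = x then κ (s (Classical.choose (hex v h))) else κ v
  have hval : ∀ ε, Z.proj.e ε = e → κ' (t ε) = κ (s ε) := by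
    intro ε hε
    have h := htx ε hε
    change (if h : Z.proj.v (t ε) = x then κ (s (Classical.choose (hex (t ε) h))) else κ (t ε)) = _
    rw [dif_pos h]
    have h1 := Classical.choose_spec (hex (t ε) h)
    rw [huni _ ε h1.1 hε h1.2]
  have hold : ∀ v, Z.proj.v v ∈ A → κ' v = κ v := by
    intro v hv
    have h : Z.proj.v v ≠ x := fun h => hx (h ▸ hv)
    change (if h : Z.proj.v v = x then κ (s (Classical.choose (hex v h))) else κ v) = _
    rw [dif_neg h]
  refine ⟨κ', hold, ?_, ?_⟩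
  · intro k v hv
    rcases hv with hv | hv
    · obtain ⟨ε, hε, hv'⟩ := hex v hv
      rw [← hv', hval ε hε, ← ht, hval _ (by rw [N4_ke, hε]), hs, hκ k _ (hsA ε hε)]
    · rw [hold v hv, hold _ (by rw [N4_kv]; exact hv), hκ k v hv]
  · intro ε hε
    rw [hval ε hε, hold _ (hsA ε hε)]

theorem exists_kappa (Z : HCpx K) {A : Set Z.quot.V} {B : Set Z.quot.E} {C : Set Z.quot.F}
    (h : Cpx.Built Z.quot A B C) :
    ∃ κ : Z.V → K, (∀ (k : K) (v : Z.V), Z.proj.v v ∈ A → κ (k • v) = k * κ v) ∧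
      ∀ ε : Z.E, Z.proj.e ε ∈ B → κ (Z.src ε) = κ (Z.tgt ε) := by
  classical
  induction h with
  | point x =>
    obtain ⟨v0, h0⟩ : ∃ v0 : Z.V, Z.proj.v v0 = x := Quotient.exists_rep x
    have hex : ∀ v, Z.proj.v v = x → ∃ k : K, k • v0 = v := fun v hv =>
      (N4_v Z).1 (hv.trans h0.symm)
    refine ⟨fun v => if h : Z.proj.v v = x then Classical.choose (hex v h) else 1, ?_, ?_⟩
    · intro k v hv
      have hv' : Z.proj.v v = x := hv
      have hv2 : Z.proj.v (k • v) = x := by rw [N4_kv, hv']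
      simp only
      rw [dif_pos hv', dif_pos hv2]
      have h1 := Classical.choose_spec (hex v hv')
      have h2 := Classical.choose_spec (hex (k • v) hv2)
      apply N4_free Z (v := v0)
      rw [h2, mul_smul, h1]
    · intro ε hε
      exact absurd hε (Set.notMem_empty _)
  | @leaf A B C x e hb hx he hor ih =>
    obtain ⟨κ, h1, h2⟩ := ih
    rcases hor with ⟨ha, hb'⟩ | ⟨ha, hb'⟩
    · obtain ⟨κ', k1, k2, k3⟩ := N4_leaf Z κ A h1 x hx e Z.src Z.tgt Z.src_smul Z.tgt_smul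
        (fun ε hε => by
          have h3 := Z.proj.src_v ε
          rw [hε] at h3
          rw [← h3]
          exact ha)
        (fun ε hε => by
          have h3 := Z.proj.tgt_v ε
          rw [hε] at h3
          rw [← h3]
          exact hb')
      refine ⟨κ', k2, fun ε hε => ?_⟩
      rcases hε with hε | hε
      · exact k3 ε hε
      · have h4 := hb.edge_mem hε
        rw [k1 _ (by rw [← Z.proj.src_v]; exact h4.1), k1 _ (by rw [← Z.proj.tgt_v]; exact h4.2)]
        exact h2 ε hε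
    · obtain ⟨κ', k1, k2, k3⟩ := N4_leaf Z κ A h1 x hx e Z.tgt Z.src Z.tgt_smul Z.src_smul
        (fun ε hε => by
          have h3 := Z.proj.tgt_v ε
          rw [hε] at h3
          rw [← h3]
          exact hb')
        (fun ε hε => by
          have h3 := Z.proj.src_v ε
          rw [hε] at h3
          rw [← h3]
          exact ha)
      refine ⟨κ', k2, fun ε hε => ?_⟩
      rcases hε with hε | hε
      · exact (k3 ε hε).symm
      · have h4 := hb.edge_mem hε
        rw [k1 _ (by rw [← Z.proj.src_v]; exact h4.1), k1 _ (by rw [← Z.proj.tgt_v]; exact h4.2)]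
        exact h2 ε hε
  | @face A B C e τ hb he hτ hs ht hw ih =>
    obtain ⟨κ, h1, h2⟩ := ih
    refine ⟨κ, h1, fun ε hε => ?_⟩
    rcases hε with hε | hε
    · obtain ⟨w₁, b, w₂, hbd, hB⟩ := hw
      obtain ⟨τ0, hτ0⟩ : ∃ τ0 : Z.F, Z.proj.f τ0 = τ := Quotient.exists_rep τ
      have hm : (Z.bd τ0).map (Prod.map Z.proj.e id) = w₁ ++ (e, b) :: w₂ := by
        rw [← hbd, ← hτ0, Z.proj.bd_e]
      obtain ⟨v₁, v, hv, hv1, hv2⟩ := List.map_eq_append_iff.1 hm
      obtain ⟨a, v₂, hv3, hv4, hv5⟩ := List.map_eq_cons_iff.1 hv2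
      obtain ⟨ε1, b1⟩ := a
      have hε1 : Z.proj.e ε1 = e := congrArg Prod.fst hv4
      have hb1 : b1 = b := congrArg Prod.snd hv4
      obtain ⟨k, hk⟩ := (N4_e Z).1 ((show Z.proj.e ε = e from hε).trans hε1.symm)
      have hbdk : Z.bd (k • τ0) = v₁.map (Prod.map (k • ·) id) ++
          (ε, b1) :: v₂.map (Prod.map (k • ·) id) := by
        rw [Z.bd_smul, hv, hv3, List.map_append, List.map_cons]
        congr 2
        rw [← hk]
        rfl
      have hwalk := Z.bd_walk (k • τ0)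
      rw [hbdk] at hwalk
      obtain ⟨q1, q2⟩ := N4_split Z _ _ _ _ _ hwalk
      have p1 : ∀ a ∈ v₁.map (Prod.map (k • ·) id), κ (Z.src a.1) = κ (Z.tgt a.1) := by
        intro a ha
        obtain ⟨c, hc, rfl⟩ := List.mem_map.1 ha
        apply h2
        change Z.proj.e (k • c.1) ∈ B
        rw [N4_ke]
        have h5 : Prod.map Z.proj.e id c ∈ w₁ := by
          rw [← hv1]
          exact List.mem_map_of_mem hc
        exact hB _ (List.mem_append_left _ h5)
      have p2 : ∀ a ∈ v₂.map (Prod.map (k • ·) id), κ (Z.src a.1) = κ (Z.tgt a.1) := by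
        intro a ha
        obtain ⟨c, hc, rfl⟩ := List.mem_map.1 ha
        apply h2
        change Z.proj.e (k • c.1) ∈ B
        rw [N4_ke]
        have h5 : Prod.map Z.proj.e id c ∈ w₂ := by
          rw [← hv5]
          exact List.mem_map_of_mem hc
        exact hB _ (List.mem_append_right _ h5)
      have r1 := N4_walk Z κ _ _ _ q1 p1
      have r2 := N4_walk Z κ _ _ _ q2 p2
      have r3 : κ (oS Z.src Z.tgt (ε, b1)) = κ (oT Z.src Z.tgt (ε, b1)) := r1.symm.trans r2.symm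
      cases b1
      · exact r3.symm
      · exact r3
    · exact h2 ε hε

theorem trivial_of_quot_collapsible (Z : HCpx K) (hc : Z.Conn) (h : Z.quot.Collapsible) (k : K) :
    k = 1 := by
  obtain ⟨κ, h1, h2⟩ := exists_kappa Z h
  obtain ⟨⟨v⟩, hconn⟩ := hc
  obtain ⟨w, hw⟩ := hconn v (k • v)
  have h3 := N4_walk Z κ w _ _ hw fun a _ => h2 a.1 (Set.mem_univ _)
  rw [h1 k v (Set.mem_univ _)] at h3
  exact mul_eq_right.1 h3.symm

end Pool.Agent.H60.CI.HCpx
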