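import Pool.Agent.H50.CI.TE
import Pool.Agent.H50.CI.TC
import Pool.Agent.H50.CI.N2
import Pool.Agent.H50.CI.N3

/-!
# ROW N6: the universal cover is diagrammatically reducible
`K` a trivial group (only one element), `B : HCpx K` connected, `LolliSC`, `cv : B → X` an immersion, `X` with
collapsing nonpositive immersions. Claim: every finite non-empty set `S` of 2-cells of `B` has a free
face (`Cpx.DR`, file `U0.lean`).

Proof. Fix `v : B.V` (`hc.1`). For every `σ` choose a walk `u σ` from `v` to `B.base σ` (`hc.2`).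
`P := {u σ ++ q | σ ∈ S, q <+: B.bd σ}` (finite; all elements are walks from `v`, `isWalk_append`). For
`p, q` with `B.Walk v p y`, `B.Walk v q y` for some `y`, the word `p ++ FreeGroup.invRev q` is a closed walk,
so `LolliSC` gives a list `L p q` with `FreeGroup.mk (p ++ invRev q) = ((L p q).map B.lolli).prod`, i.e.
`FreeGroup.mk p = (..).prod * FreeGroup.mk q` (choose `L p q` for all pairs of words by `choose` or
`Classical`, empty list if there is no common end).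
`M := {(u σ, σ) | σ ∈ S} ∪ ⋃ p q ∈ P with common end, {(t.1, t.2.1) | t ∈ L p q}`: finite.
`D := TD.of B v (n := 0) Fin.elim0 Fin.elim0 _ P _ M _` (file `TC.lean`; `T` finite by `of_T_finite`).
* `D.Z.toIm.toCpx` has finitely many vertices, edges, 2-cells: `finV`, `finE`, `finM` and `K` trivial
  (`k • s = s`).
* it is connected: `conn` (`Subgroup` of a trivial group: `Subsingleton`).
* `H1Zero`: `exact_of` with `c = 0` (no `j`).
* so `1 ≤ chi` (`one_le_chi`), and CNPI for `Cpx.Hom.comp cv D.Z.toIm.hom` (`Cpx.Hom.IsImm.comp`,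
  `hom_isImm`) gives `Collapsible`, and `dr_of_collapsible` gives `DR` for `D.Z.toIm.toCpx`.
KEY: for `p, q ∈ P` with the same end (`Walk v p y`, `Walk v q y`), `D.cls (1, p) = D.cls (1, q)`
(`cls_eq_of_lolli`).
For `σ ∈ S` let `τ σ := mrk` of `D.tmark (1, u σ) σ` (`one_smul`, `inv_one`). LEMMA: for `σ ∈ S` and
`c ∈ D.Z.bdw (τ σ)` there is `p ∈ P` with `D.Z.esrc c.1 = D.cls (1, p)` and
`B.Walk v p (B.src (D.Z.epr c.1))`. Proof: `bdw (τ σ) = l₁ ++ c :: l₂` (`List.append_of_mem` or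
`List.mem_iff_append`), the image of `l₁` is a prefix `q` of `B.bd σ` (`bdw_map`), the path `l₁` goes from
`D.cls (1, u σ)` to `oS c`, and by `tree_path` (with `k = 1`) and `Im.W_fun` this end is
`D.cls (1, u σ ++ q)`; likewise `oT c = D.cls (1, u σ ++ q ++ [c'])` with `c'` the image of `c`. If `c.2 = true`
then `src = oS` otherwise `src = oT`. The position (`D.Z.p`, `TD.pos`) of `D.cls (1, p)` is the end of `p`,
and `D.Z.p (esrc ε) = B.src (epr ε)` (`adj_src`).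
CONSEQUENCE: `σ, σ' ∈ S`, `c ∈ bdw (τ σ)`, `c' ∈ bdw (τ σ')`, `epr c.1 = epr c'.1` imply `c.1 = c'.1`
(same source by KEY, then `hom_isImm.src_inj`).
Apply `DR` to `{τ σ | σ ∈ S}`: get `σ₀` and `bdw (τ σ₀) = w₁ ++ a :: w₂`. Push to `B` by `bdw_map`:
`B.bd σ₀ = w₁' ++ a' :: w₂'`; every `c' ∈ w₁' ++ w₂'` is the image of `c ∈ w₁ ++ w₂`, so `c'.1 = a'.1` gives
`c.1 = a.1` by the consequence, contradiction. For `σ' ∈ S`, `σ' ≠ σ₀`: `τ σ' ≠ τ σ₀`, `c' ∈ B.bd σ'` is the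
image of `c ∈ bdw (τ σ')`, same argument.

`dr_Xt`: apply this to `(XtH X x0).restr ⊥` (`U1.lean`), `Xt_conn`, `Xt_sc`, `cov_imm` (`U4.lean`).
-/

noncomputable section

set_option autoImplicit false
set_option linter.unusedVariables false

namespace Pool.Agent.H50.CI

open Pool.Agent.H60.CI

open TD

variable {K : Type} [Group K] {B : HCpx K}

theorem N6_walk (D : TD B) {u w : List (B.E × Bool)} (hu : u ∈ D.T) (h : u ++ w ∈ D.T)
    {l : List (D.Z.Edg × Bool)} {y : D.Z.V}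
    (hl : IsWalk D.Z.esrc D.Z.etgt (D.cls ((1 : K), ⟨u, hu⟩)) l y)
    (hm : l.map (Prod.map D.Z.epr id) = w) : y = D.cls ((1 : K), ⟨u ++ w, h⟩) := by
  have h1 := D.Z.W_of_walk hl
  rw [hm] at h1
  have h2 := tree_path (D := D) (1 : K) w u hu h
  have h3 : w.map (Prod.map ((1 : K) • ·) id) = w := by
    have h4 : (Prod.map ((1 : K) • ·) id : B.E × Bool → B.E × Bool) = id := by
      funext a
      exact Prod.ext (one_smul K a.1) rfl
    rw [h4, List.map_id]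
  rw [h3] at h2
  exact D.Z.toIm.W_fun h1 h2

theorem N6_end (D : TD B) {p : List (B.E × Bool)} (hp : p ∈ D.T) (ε : D.Z.Edg)
    (h : D.Z.esrc ε = D.cls ((1 : K), ⟨p, hp⟩)) : B.Walk D.v p (B.src (D.Z.epr ε)) := by
  have h1 : D.Z.p (D.Z.esrc ε) = B.src (D.Z.epr ε) := D.Z.adj_src ε.2
  rw [h] at h1
  change (1 : K) • endW B.src B.tgt D.v p = _ at h1
  rw [one_smul] at h1
  rw [← h1]
  exact isWalk_end hp

theorem N6_bdw (D : TD B) {u : List (B.E × Bool)} (hu : u ∈ D.T) {σ : B.F}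
    (hm : D.tmark ((1 : K), ⟨u, hu⟩) σ) (c : D.Z.Edg × Bool) (hc : c ∈ D.Z.toIm.bdw (mrk hm)) :
    ∃ q, q <+: B.bd σ ∧ ∃ h : u ++ q ∈ D.T, D.Z.esrc c.1 = D.cls ((1 : K), ⟨u ++ q, h⟩) ∧
      B.Walk D.v (u ++ q) (B.src (D.Z.epr c.1)) := by
  obtain ⟨l₁, l₂, hl⟩ := List.append_of_mem hc
  have hwalk := D.Z.toIm.bdw_walk (mrk hm)
  have hmap : (D.Z.toIm.bdw (mrk hm)).map (Prod.map D.Z.epr id) = B.bd σ :=
    D.Z.toIm.bdw_map (mrk hm)
  rw [hl] at hwalk hmap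
  have hM : (u, σ) ∈ D.M := by
    have h1 : (u, (1 : K)⁻¹ • σ) ∈ D.M := hm
    rw [inv_one, one_smul] at h1
    exact h1
  have hT : u ++ B.bd σ ∈ D.T := D.M_mem _ hM
  obtain ⟨y, h1, h2, h3⟩ := isWalk_append.1 hwalk
  obtain ⟨q₁, hq₁⟩ : ∃ q₁, q₁ = l₁.map (Prod.map D.Z.epr id) := ⟨_, rfl⟩
  obtain ⟨c', hc'⟩ : ∃ c', c' = Prod.map D.Z.epr id c := ⟨_, rfl⟩
  obtain ⟨q₂, hq₂⟩ : ∃ q₂, q₂ = l₂.map (Prod.map D.Z.epr id) := ⟨_, rfl⟩
  have hbd : B.bd σ = q₁ ++ c' :: q₂ := by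
    rw [← hmap, List.map_append, List.map_cons, hq₁, hc', hq₂]
  have hT1 : u ++ q₁ ∈ D.T := by
    refine D.mem_of_append _ (c' :: q₂) ?_
    rw [List.append_assoc, ← hbd]
    exact hT
  have hT2 : u ++ (q₁ ++ [c']) ∈ D.T := by
    refine D.mem_of_append _ q₂ ?_
    have h4 : u ++ (q₁ ++ [c']) ++ q₂ = u ++ B.bd σ := by
      rw [hbd]
      simp
    rw [h4]
    exact hT
  have e1 : y = D.cls ((1 : K), ⟨u ++ q₁, hT1⟩) := N6_walk D hu hT1 h1 hq₁.symm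
  have e2 : oT D.Z.esrc D.Z.etgt c = D.cls ((1 : K), ⟨u ++ (q₁ ++ [c']), hT2⟩) := by
    refine N6_walk D hu hT2 (l := l₁ ++ [c]) (isWalk_append.2 ⟨y, h1, h2, rfl⟩) ?_
    rw [List.map_append, hq₁, hc']
    rfl
  obtain ⟨ε, b⟩ := c
  cases b with
  | true =>
    have e3 : D.Z.esrc ε = D.cls ((1 : K), ⟨u ++ q₁, hT1⟩) := by
      rw [← e1, ← h2]
      rfl
    exact ⟨q₁, ⟨c' :: q₂, hbd.symm⟩, hT1, e3, N6_end D hT1 ε e3⟩
  | false =>
    have e3 : D.Z.esrc ε = D.cls ((1 : K), ⟨u ++ (q₁ ++ [c']), hT2⟩) := e2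
    refine ⟨q₁ ++ [c'], ⟨q₂, ?_⟩, hT2, e3, N6_end D hT2 ε e3⟩
    rw [hbd]
    simp

theorem N6_fin {α : Type} [MulAction K α] [Subsingleton K] (S : Finset α)
    (h : ∀ x : α, ∃ k : K, ∃ s ∈ S, x = k • s) : Finite α := by
  rw [← Set.finite_univ_iff]
  refine S.finite_toSet.subset ?_
  intro x _
  obtain ⟨k, s, hs, hx⟩ := h x
  rw [Subsingleton.elim k 1, one_smul] at hx
  rw [hx]
  exact hs

theorem N6_dr [Subsingleton K] (D : TD B) (hn : D.n = 0) (hT : D.T.Finite) (hM : D.M.Finite)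
    {X : Cpx} (hX : X.CNPI) (cv : Cpx.Hom B.toCpx X) (hcv : cv.IsImm) :
    D.Z.toIm.toCpx.DR := by
  have hemp : ∀ j : Fin D.n, False := by
    intro j
    have h1 := j.2
    omega
  obtain ⟨SV, hSV⟩ := finV D hT
  obtain ⟨SE, hSE⟩ := finE D hT
  obtain ⟨SM, hSM⟩ := finM D hM
  have fV : Finite D.Z.toIm.toCpx.V := N6_fin (α := D.Z.V) SV hSV
  have fE : Finite D.Z.toIm.toCpx.E := N6_fin (α := D.Z.Edg) SE hSE
  have fF : Finite D.Z.toIm.toCpx.F := N6_fin (α := D.Z.Mks) SM hSM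
  have hconn : D.Z.toIm.toCpx.Conn := by
    refine D.conn ?_
    refine Subgroup.ext fun x => ⟨fun _ => Subgroup.mem_top _, fun _ => ?_⟩
    rw [Subsingleton.elim x 1]
    exact one_mem _
  have hH1 : D.Z.toIm.toCpx.H1Zero := by
    intro w hw
    obtain ⟨Ψ, _, h2⟩ := exact_of (D := D) w hw (fun _ => 0) (fun k j => (hemp j).elim)
    exact ⟨Ψ, h2⟩
  have hchi := Cpx.one_le_chi D.Z.toIm.toCpx hconn hH1
  rcases hX D.Z.toIm.toCpx fV fE fF hconn (Cpx.Hom.comp cv D.Z.toIm.hom)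
    (hcv.comp D.Z.toIm.hom_isImm) with h | h
  · omega
  · exact Cpx.dr_of_collapsible h

theorem dr_of_cnpi {K : Type} [Group K] [Subsingleton K] (B : HCpx K) (hc : B.Conn)
    (hs : B.LolliSC) {X : Cpx} (hX : X.CNPI) (cv : Cpx.Hom B.toCpx X) (hcv : cv.IsImm) : B.DR := by
  intro S hSf hSne
  obtain ⟨⟨v⟩, hconn⟩ := hc
  choose u hu using fun σ : B.F => hconn v (B.base σ)
  -- the words
  obtain ⟨P, hPdef⟩ : ∃ P : Set (List (B.E × Bool)),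
      P = {p | ∃ σ ∈ S, ∃ q, q <+: B.bd σ ∧ p = u σ ++ q} := ⟨_, rfl⟩
  have hPf : P.Finite := by
    have h1 : (⋃ σ ∈ S, (fun q => u σ ++ q) '' {q | q <+: B.bd σ}).Finite :=
      hSf.biUnion fun σ _ => (TC_inits (B.bd σ)).image _
    refine h1.subset ?_
    rw [hPdef]
    rintro p ⟨σ, hσ, q, hq, rfl⟩
    exact Set.mem_iUnion₂.2 ⟨σ, hσ, q, hq, rfl⟩
  have hP : ∀ p ∈ P, ∃ y, B.Walk v p y := by
    rw [hPdef]
    rintro p ⟨σ, hσ, q, ⟨r, hr⟩, rfl⟩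
    have h1 : B.Walk (B.base σ) (q ++ r) (B.base σ) := by
      rw [hr]
      exact B.bd_walk σ
    obtain ⟨y, hy, _⟩ := isWalk_append.1 h1
    exact ⟨y, isWalk_append.2 ⟨_, hu σ, hy⟩⟩
  have hLex : ∀ p q : List (B.E × Bool), ∃ L : List (List (B.E × Bool) × B.F × Bool),
      (∃ y, B.Walk v p y ∧ B.Walk v q y) → (∀ t ∈ L, B.Walk v t.1 (B.base t.2.1)) ∧
        FreeGroup.mk (p ++ FreeGroup.invRev q) = (L.map B.lolli).prod := by
    intro p q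
    by_cases h : ∃ y, B.Walk v p y ∧ B.Walk v q y
    · obtain ⟨y, h1, h2⟩ := h
      obtain ⟨L, h3, h4⟩ := hs v (p ++ FreeGroup.invRev q)
        (isWalk_append.2 ⟨y, h1, isWalk_invRev h2⟩)
      exact ⟨L, fun _ => ⟨h3, h4⟩⟩
    · exact ⟨[], fun h' => absurd h' h⟩
  choose L hL using hLex
  obtain ⟨M, hMdef⟩ : ∃ M : Set (List (B.E × Bool) × B.F),
      M = (fun σ => (u σ, σ)) '' S ∪ {t | ∃ p ∈ P, ∃ q ∈ P, (∃ y, B.Walk v p y ∧ B.Walk v q y) ∧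
        ∃ s ∈ L p q, t = (s.1, s.2.1)} := ⟨_, rfl⟩
  have hMf : M.Finite := by
    rw [hMdef]
    refine (hSf.image _).union ?_
    have h1 : (⋃ p ∈ P, ⋃ q ∈ P, (fun s : List (B.E × Bool) × B.F × Bool => (s.1, s.2.1)) ''
        {s | s ∈ L p q}).Finite :=
      hPf.biUnion fun p _ => hPf.biUnion fun q _ => (List.finite_toSet (L p q)).image _
    refine h1.subset ?_
    rintro t ⟨p, hp, q, hq, _, s, hs1, rfl⟩
    exact Set.mem_iUnion₂.2 ⟨p, hp, Set.mem_iUnion₂.2 ⟨q, hq, s, hs1, rfl⟩⟩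
  have hM : ∀ t ∈ M, B.Walk v t.1 (B.base t.2) := by
    rw [hMdef]
    rintro t (⟨σ, _, rfl⟩ | ⟨p, _, q, _, hy, s, hs1, rfl⟩)
    · exact hu σ
    · exact (hL p q hy).1 s hs1
  -- the complex
  obtain ⟨D, hDv, hDn, hPT, hMM, hTf, hMf'⟩ : ∃ D : TD B, D.v = v ∧ D.n = 0 ∧ P ⊆ D.T ∧
      M ⊆ D.M ∧ D.T.Finite ∧ D.M.Finite := by
    refine ⟨TD.of B v (n := 0) (fun j => j.elim0) (fun j => j.elim0) (fun j => j.elim0) P hP M hM,
      rfl, rfl, ?_, fun t ht => ht, ?_, hMf⟩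
    · intro p hp
      exact Or.inr (Or.inl ⟨p, hp, List.prefix_rfl⟩)
    · exact of_T_finite B v _ _ _ P hP M hM hPf hMf
  have hDR := N6_dr D hDn hTf hMf' hX cv hcv
  have key : ∀ (p q : List (B.E × Bool)) (hp : p ∈ P) (hq : q ∈ P) (hp' : p ∈ D.T) (hq' : q ∈ D.T)
      (y : B.V), B.Walk v p y → B.Walk v q y →
      D.cls ((1 : K), ⟨p, hp'⟩) = D.cls ((1 : K), ⟨q, hq'⟩) := by
    intro p q hp hq hp' hq' y h1 h2
    have hy : ∃ y, B.Walk v p y ∧ B.Walk v q y := ⟨y, h1, h2⟩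
    refine cls_eq_of_lolli 1 hp' hq' (L p q) ?_ ?_
    · intro t ht
      apply hMM
      rw [hMdef]
      exact Or.inr ⟨p, hp, q, hq, hy, t, ht, rfl⟩
    · rw [← (hL p q hy).2, ← FreeGroup.mul_mk, ← FreeGroup.inv_mk, inv_mul_cancel_right]
  have hMS : ∀ σ : S, (u σ, (σ : B.F)) ∈ D.M := by
    intro σ
    apply hMM
    rw [hMdef]
    exact Or.inl ⟨σ.1, σ.2, rfl⟩
  have huT : ∀ σ : S, u σ ∈ D.T := fun σ => D.mem_of_append _ _ (D.M_mem _ (hMS σ))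
  have htm : ∀ σ : S, D.tmark ((1 : K), ⟨u σ, huT σ⟩) σ := by
    intro σ
    show (u σ, (1 : K)⁻¹ • (σ : B.F)) ∈ D.M
    rw [inv_one, one_smul]
    exact hMS σ
  obtain ⟨tau, htau⟩ : ∃ tau : S → D.Z.Mks, tau = fun σ => mrk (htm σ) := ⟨_, rfl⟩
  have hmpr : ∀ σ : S, D.Z.mpr (tau σ) = σ := by
    intro σ
    rw [htau]
    rfl
  have hmap : ∀ σ : S, (D.Z.toIm.bdw (tau σ)).map (Prod.map D.Z.epr id) = B.bd σ := by
    intro σ
    rw [D.Z.toIm.bdw_map]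
    exact congrArg B.bd (hmpr σ)
  have cons : ∀ (σ σ' : S) (c c' : D.Z.Edg × Bool), c ∈ D.Z.toIm.bdw (tau σ) →
      c' ∈ D.Z.toIm.bdw (tau σ') → D.Z.epr c.1 = D.Z.epr c'.1 → c.1 = c'.1 := by
    intro σ σ' c c' hc1 hc2 he
    rw [htau] at hc1 hc2
    obtain ⟨q, hq, hqT, h1, h2⟩ := N6_bdw D (huT σ) (htm σ) c hc1
    obtain ⟨q', hq', hqT', h1', h2'⟩ := N6_bdw D (huT σ') (htm σ') c' hc2
    refine D.Z.toIm.hom_isImm.src_inj _ _ ?_ he
    show D.Z.esrc c.1 = D.Z.esrc c'.1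
    rw [h1, h1']
    rw [hDv] at h2 h2'
    rw [← he] at h2'
    refine key _ _ ?_ ?_ _ _ _ h2 h2'
    · rw [hPdef]
      exact ⟨σ, σ.2, q, hq, rfl⟩
    · rw [hPdef]
      exact ⟨σ', σ'.2, q', hq', rfl⟩
  have : Finite S := hSf.to_subtype
  have hDR' : ∃ (σ₀ : S) (w₁ : List (D.Z.Edg × Bool)) (a : D.Z.Edg × Bool)
      (w₂ : List (D.Z.Edg × Bool)), D.Z.toIm.bdw (tau σ₀) = w₁ ++ a :: w₂ ∧
      (∀ c ∈ w₁ ++ w₂, c.1 ≠ a.1) ∧
      ∀ σ' : S, tau σ' ≠ tau σ₀ → ∀ c ∈ D.Z.toIm.bdw (tau σ'), c.1 ≠ a.1 := by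
    obtain ⟨τ₀, ⟨σ₀, rfl⟩, w₁, a, w₂, h1, h2, h3⟩ := hDR (Set.range tau) (Set.finite_range _) (by
      obtain ⟨σ, hσ⟩ := hSne
      exact ⟨tau ⟨σ, hσ⟩, ⟨σ, hσ⟩, rfl⟩)
    exact ⟨σ₀, w₁, a, w₂, h1, h2, fun σ' h => h3 (tau σ') ⟨σ', rfl⟩ h⟩
  obtain ⟨σ₀, w₁, a, w₂, h1', h2, h3⟩ := hDR'
  have ha : a ∈ D.Z.toIm.bdw (tau σ₀) := by
    rw [h1']
    simp
  refine ⟨σ₀, σ₀.2, w₁.map (Prod.map D.Z.epr id), Prod.map D.Z.epr id a,
    w₂.map (Prod.map D.Z.epr id), ?_, ?_, ?_⟩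
  · rw [← hmap σ₀, h1', List.map_append, List.map_cons]
  · intro c' hc' hca
    rw [← List.map_append] at hc'
    obtain ⟨c, hc, rfl⟩ := List.mem_map.1 hc'
    refine h2 c hc ?_
    refine cons σ₀ σ₀ c a ?_ ha hca
    rw [h1']
    rcases List.mem_append.1 hc with h | h
    · exact List.mem_append_left _ h
    · exact List.mem_append_right _ (List.mem_cons_of_mem _ h)
  · intro σ' hσ' hne c' hc' hca
    rw [← hmap ⟨σ', hσ'⟩] at hc'
    obtain ⟨c, hc, rfl⟩ := List.mem_map.1 hc'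
    refine h3 ⟨σ', hσ'⟩ ?_ c hc ?_
    · intro h4
      apply hne
      have h5 := congrArg D.Z.mpr h4
      rw [hmpr, hmpr] at h5
      exact h5
    · exact cons ⟨σ', hσ'⟩ σ₀ c a hc ha hca

theorem dr_Xt {X : Cpx} (hX : X.CNPI) (x0 : X.V) : (Xt X x0).DR := by
  exact dr_of_cnpi ((XtH X x0).restr ⊥) Xt_conn Xt_sc hX (cov X x0) cov_imm

end Pool.Agent.H50.CI
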