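import Pool.Agent.H50.CI.N0

/-!
# ROW U2: walks and immersions
Let `φ : Y → X` be an immersion (`Defs0.lean`: `Cpx.Hom.IsImm`; `oS`, `oT` = start and end of an
oriented edge; `IsWalk`).

1. `walk_unique`: induction on `w`. If both lists are `a :: w`, `a' :: w'`: `Prod.map φ.e id a =
   Prod.map φ.e id a'` gives `a.2 = a'.2` and `φ.e a.1 = φ.e a'.1`; `oS a = v = oS a'`; if `a.2 = true`
   then `src a.1 = src a'.1` and `src_inj` gives `a.1 = a'.1`, if `a.2 = false` use `tgt_inj`. So
   `a = a'` and the rest by induction.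
2. `lift_step`: `FreeGroup.Red.Step (w.map f) u` means `w.map f = L₁ ++ (e, b) :: (e, !b) :: L₂`,
   `u = L₁ ++ L₂`. Split `w = l₁ ++ (ε, b) :: (ε', !b) :: l₂` (`List.map_eq_append_iff`,
   `List.map_eq_cons_iff`) with `φ.e ε = φ.e ε' = e`. The walk condition (`isWalk_append`, in `U0.lean`)
   gives `oT (ε, b) = oS (ε', !b)`; for `b = true` this is `tgt ε = tgt ε'`, for `b = false` it is
   `src ε = src ε'`; so `ε = ε'` by immersion. Then `w' = l₁ ++ l₂` works (the walk condition:
   `oS (ε, b)` is the end of `l₁` and `oT (ε, !b) = oS (ε, b)`), `Red.Step.not`.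
3. `lift_red`: `Relation.ReflTransGen` induction from `lift_step` (`FreeGroup.Red` is
   `Relation.ReflTransGen FreeGroup.Red.Step`).
4. `mk_eq`: `FreeGroup.Red.exact` gives a common reduct `u`; lift both reductions by `lift_red`; the
   two lifted words have the same image `u` and start at `v`, so they and their ends agree by
   `walk_unique`; `FreeGroup.Red` implies equality of `FreeGroup.mk`
   (`FreeGroup.Red.exact.2 ⟨_, h, .refl⟩` or `FreeGroup.Red.sound`-like lemma).
-/

set_option autoImplicit false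

namespace Pool.Agent.H60.CI.Cpx

variable {Y X : Cpx} {φ : Hom Y X}

theorem Hom.IsImm.walk_unique (h : φ.IsImm) {v y y' : Y.V} {w w' : List (Y.E × Bool)}
    (hw : Y.Walk v w y) (hw' : Y.Walk v w' y')
    (he : w.map (Prod.map φ.e id) = w'.map (Prod.map φ.e id)) : w = w' ∧ y = y' := by
  induction w generalizing v w' with
  | nil =>
    cases w' with
    | nil => exact ⟨rfl, Eq.trans (Eq.symm hw) hw'⟩
    | cons a' w' => exact absurd he (by simp)
  | cons a w ih =>
    cases w' with
    | nil => exact absurd he (by simp)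
    | cons a' w' =>
      rw [List.map_cons, List.map_cons] at he
      have he1 := (List.cons.inj he).1
      have he2 := (List.cons.inj he).2
      obtain ⟨h1, h2⟩ := hw
      obtain ⟨h1', h2'⟩ := hw'
      have haa : a = a' := by
        obtain ⟨e, b⟩ := a
        obtain ⟨e', b'⟩ := a'
        have hb : b = b' := congrArg Prod.snd he1
        have hee : φ.e e = φ.e e' := congrArg Prod.fst he1
        subst hb
        cases b
        · have h3 : Y.tgt e = Y.tgt e' := h1.trans h1'.symm
          rw [h.tgt_inj e e' h3 hee]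
        · have h3 : Y.src e = Y.src e' := h1.trans h1'.symm
          rw [h.src_inj e e' h3 hee]
      subst haa
      obtain ⟨e1, e2⟩ := ih h2 h2' he2
      exact ⟨by rw [e1], e2⟩

theorem Hom.IsImm.lift_step (h : φ.IsImm) {v y : Y.V} {w : List (Y.E × Bool)}
    (hw : Y.Walk v w y) {u : List (X.E × Bool)}
    (hu : FreeGroup.Red.Step (w.map (Prod.map φ.e id)) u) :
    ∃ w', w'.map (Prod.map φ.e id) = u ∧ FreeGroup.Red.Step w w' ∧ Y.Walk v w' y := by
  generalize hm : w.map (Prod.map φ.e id) = m at hu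
  cases hu with
  | @not L₁ L₂ x b =>
    rw [List.map_eq_append_iff] at hm
    obtain ⟨l₁, l₂', rfl, hm1, hm2⟩ := hm
    rw [List.map_eq_cons_iff] at hm2
    obtain ⟨a, l₃, rfl, ha, hm3⟩ := hm2
    rw [List.map_eq_cons_iff] at hm3
    obtain ⟨a', l₂, rfl, ha', hm4⟩ := hm3
    obtain ⟨z, hz1, hz2⟩ := isWalk_append.1 hw
    obtain ⟨k1, k2, k3⟩ := hz2
    obtain ⟨e, c⟩ := a
    obtain ⟨e', c'⟩ := a'
    have hc : c = b := congrArg Prod.snd ha
    have hc' : c' = !b := congrArg Prod.snd ha'
    have hx : φ.e e = x := congrArg Prod.fst ha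
    have hx' : φ.e e' = x := congrArg Prod.fst ha'
    subst hc
    subst hc'
    have hee : e = e' := by
      cases c
      · have h3 : Y.src e = Y.src e' := Eq.symm k2
        exact h.src_inj e e' h3 (hx.trans hx'.symm)
      · have h3 : Y.tgt e = Y.tgt e' := Eq.symm k2
        exact h.tgt_inj e e' h3 (hx.trans hx'.symm)
    subst hee
    refine ⟨l₁ ++ l₂, ?_, FreeGroup.Red.Step.not, ?_⟩
    · rw [List.map_append, hm1, hm4]
    · have hend : oT Y.src Y.tgt (e, !c) = z := by
        rw [← k1]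
        cases c <;> rfl
      rw [hend] at k3
      exact isWalk_append.2 ⟨z, hz1, k3⟩

theorem Hom.IsImm.lift_red (h : φ.IsImm) {v y : Y.V} {w : List (Y.E × Bool)}
    (hw : Y.Walk v w y) {u : List (X.E × Bool)}
    (hu : FreeGroup.Red (w.map (Prod.map φ.e id)) u) :
    ∃ w', w'.map (Prod.map φ.e id) = u ∧ FreeGroup.Red w w' ∧ Y.Walk v w' y := by
  change Relation.ReflTransGen FreeGroup.Red.Step _ _ at hu
  induction hu with
  | refl => exact ⟨w, rfl, Relation.ReflTransGen.refl, hw⟩
  | tail _ hbc ih =>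
    obtain ⟨w1, e1, r1, hw1⟩ := ih
    rw [← e1] at hbc
    obtain ⟨w2, e2, r2, hw2⟩ := h.lift_step hw1 hbc
    exact ⟨w2, e2, Relation.ReflTransGen.tail r1 r2, hw2⟩

/-- two walks from the same vertex whose images are equal up to backtracking are equal up to
backtracking, and have the same end -/
theorem Hom.IsImm.mk_eq (h : φ.IsImm) {v y y' : Y.V} {w w' : List (Y.E × Bool)}
    (hw : Y.Walk v w y) (hw' : Y.Walk v w' y')
    (he : FreeGroup.mk (w.map (Prod.map φ.e id)) = FreeGroup.mk (w'.map (Prod.map φ.e id))) :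
    FreeGroup.mk w = FreeGroup.mk w' ∧ y = y' := by
  obtain ⟨u, r1, r2⟩ := FreeGroup.Red.exact.1 he
  obtain ⟨w1, e1, s1, k1⟩ := h.lift_red hw r1
  obtain ⟨w2, e2, s2, k2⟩ := h.lift_red hw' r2
  obtain ⟨e3, e4⟩ := h.walk_unique k1 k2 (e1.trans e2.symm)
  refine ⟨FreeGroup.Red.exact.2 ⟨w1, s1, ?_⟩, e4⟩
  rw [e3]
  exact s2

end Pool.Agent.H60.CI.Cpx
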