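import Pool.Agent.H50.CI.N0

/-!
# ROW U3: elements of `Nf` are products of lollipops
Definitions: `U0.lean` (`loops`, `relators`, `Nf`, `Cpx.lolli`).

`nf_lolli`: for `g ∈ Nf X x0` there is a list of lollipops `p (bd σ)^{±1} p⁻¹` with `p` walks from `x0`
with product `g`. Proof: `g = (m : FreeGroup X.E)` with `m ∈ Subgroup.normalClosure (relators X x0)`
(`Subgroup.mem_map`). Use `Subgroup.closure_induction` on
`Subgroup.normalClosure s = Subgroup.closure (Group.conjugatesOfSet s)`, with the predicate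
(m : FreeGroup X.E) is such a product:
* generator: a conjugate `l r l⁻¹` with `l : loops X x0`, `r` a relator: `l = mk w` with
  `w` a closed walk at `x0`, `r = mk p * mk (bd σ) * (mk p)⁻¹`; then `l r l⁻¹ = lolli (w ++ p, σ, true)`
  (`FreeGroup.mul_mk`), and `w ++ p` is a walk (`isWalk_append`).
* one: empty list; product: append (`List.prod_append`, `List.map_append`).
* inverse: reverse the list and flip the third components: `(lolli (p, σ, b))⁻¹ = lolli (p, σ, !b)`
  (`List.prod_inv_reverse`).

`lolli_shift`: `mk q * lolli (p, σ, b) * (mk q)⁻¹ = lolli (q ++ p, σ, b)`: `FreeGroup.mul_mk` and group.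
`prod_shift`: conjugating a product of lollipops: induction on the list.
-/

set_option autoImplicit false

namespace Pool.Agent.H50.CI

open Pool.Agent.H60.CI

variable {X : Cpx} {x0 : X.V}

theorem U3_mk_append (w p : List (X.E × Bool)) :
    FreeGroup.mk (w ++ p) = FreeGroup.mk w * FreeGroup.mk p := FreeGroup.mul_mk.symm

theorem lolli_shift (q : List (X.E × Bool)) (t : List (X.E × Bool) × X.F × Bool) :
    FreeGroup.mk q * X.lolli t * (FreeGroup.mk q)⁻¹ = X.lolli (q ++ t.1, t.2) := by
  unfold Cpx.lolli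
  rw [U3_mk_append]
  group

theorem prod_shift (q : List (X.E × Bool)) (L : List (List (X.E × Bool) × X.F × Bool)) :
    FreeGroup.mk q * (L.map X.lolli).prod * (FreeGroup.mk q)⁻¹ =
      ((L.map (fun t => (q ++ t.1, t.2))).map X.lolli).prod := by
  induction L with
  | nil =>
    simp only [List.map_nil, List.prod_nil]
    group
  | cons t L ih =>
    simp only [List.map_cons, List.prod_cons]
    rw [← ih, ← lolli_shift]
    group

theorem U3_inv (p : List (X.E × Bool)) (σ : X.F) (b : Bool) :
    (X.lolli (p, σ, b))⁻¹ = X.lolli (p, σ, !b) := by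
  unfold Cpx.lolli
  cases b <;> simp

theorem U3_inv_list (L : List (List (X.E × Bool) × X.F × Bool)) :
    ((L.map X.lolli).prod)⁻¹ =
      ((L.reverse.map (fun t => (t.1, t.2.1, !t.2.2))).map X.lolli).prod := by
  induction L with
  | nil => simp
  | cons t L ih =>
    obtain ⟨p, σ, b⟩ := t
    simp only [List.map_cons, List.prod_cons, mul_inv_rev, List.reverse_cons, List.map_append,
      List.prod_append, List.map_nil, List.prod_nil, mul_one]
    rw [ih, U3_inv]

theorem nf_lolli {g : FreeGroup X.E} (hg : g ∈ Nf X x0) :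
    ∃ L : List (List (X.E × Bool) × X.F × Bool), (∀ t ∈ L, X.Walk x0 t.1 (X.base t.2.1)) ∧
      g = (L.map X.lolli).prod := by
  obtain ⟨m, hm, rfl⟩ := hg
  have hm' : m ∈ Subgroup.closure (Group.conjugatesOfSet (relators X x0)) := hm
  clear hm
  induction hm' using Subgroup.closure_induction with
  | mem x hx =>
    rw [Group.mem_conjugatesOfSet_iff] at hx
    obtain ⟨r, ⟨p, σ, hp, hr⟩, hc⟩ := hx
    rw [isConj_iff] at hc
    obtain ⟨l, hl⟩ := hc
    obtain ⟨w, hw, hwl⟩ := l.2
    refine ⟨[(w ++ p, σ, true)], ?_, ?_⟩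
    · intro t ht
      rw [List.mem_singleton] at ht
      subst ht
      exact isWalk_append.2 ⟨_, hw, hp⟩
    · rw [← hl]
      simp only [List.map_cons, List.map_nil, List.prod_cons, List.prod_nil, mul_one]
      unfold Cpx.lolli
      simp only [if_true]
      rw [U3_mk_append]
      have h1 : (loops X x0).subtype (l * r * l⁻¹) = (l : FreeGroup X.E) * (r : FreeGroup X.E) * (l : FreeGroup X.E)⁻¹ := rfl
      rw [h1, hr, ← hwl]
      group
  | one => exact ⟨[], by simp, by simp⟩
  | mul x y _ _ hx hy =>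
    obtain ⟨L, hL, hx'⟩ := hx
    obtain ⟨L', hL', hy'⟩ := hy
    refine ⟨L ++ L', ?_, ?_⟩
    · intro t ht
      rcases List.mem_append.1 ht with h | h
      · exact hL t h
      · exact hL' t h
    · rw [map_mul, hx', hy', List.map_append, List.prod_append]
  | inv x _ hx =>
    obtain ⟨L, hL, hx'⟩ := hx
    refine ⟨L.reverse.map (fun t => (t.1, t.2.1, !t.2.2)), ?_, ?_⟩
    · intro t ht
      rw [List.mem_map] at ht
      obtain ⟨t', ht', rfl⟩ := ht
      exact hL t' (List.mem_reverse.1 ht')
    · rw [map_inv, hx', U3_inv_list]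

/-- conversely a product of lollipops based at `x0` lies in `Nf` -/
theorem lolli_mem_nf {t : List (X.E × Bool) × X.F × Bool} (ht : X.Walk x0 t.1 (X.base t.2.1)) :
    X.lolli t ∈ Nf X x0 := by
  obtain ⟨p, σ, b⟩ := t
  have hloop : FreeGroup.mk p * FreeGroup.mk (X.bd σ) * (FreeGroup.mk p)⁻¹ ∈ loops X x0 := by
    refine ⟨p ++ X.bd σ ++ FreeGroup.invRev p, ?_, ?_⟩
    · exact isWalk_append.2 ⟨_, isWalk_append.2 ⟨_, ht, X.bd_walk σ⟩, isWalk_invRev ht⟩
    · rw [FreeGroup.inv_mk, FreeGroup.mul_mk, FreeGroup.mul_mk]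
  have h1 : (⟨_, hloop⟩ : loops X x0) ∈ Subgroup.normalClosure (relators X x0) :=
    Subgroup.subset_normalClosure ⟨p, σ, ht, rfl⟩
  have h2 : X.lolli (p, σ, true) ∈ Nf X x0 := by
    refine ⟨_, h1, ?_⟩
    unfold Cpx.lolli
    simp
  cases b with
  | true => exact h2
  | false =>
    have h3 := inv_mem h2
    rwa [U3_inv] at h3

end Pool.Agent.H50.CI
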