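import Pool.Agent.H50.CI.U2
import Pool.Agent.H50.CI.U3

/-!
# ROW U4: the universal cover is connected, simply connected, and covers
Definitions in `U1.lean` (`UV`, `UV.go`, `UV.lift`, `Xt`, `cov`, `XtH`), `U0.lean` (`Cpx.LolliSC`).
Recall `Xt.Walk = IsWalk UE.src UE.tgt`, `UV.lift_walk`, `UV.lift_proj`.

`cov_imm`: an edge of `Xt` is `(v, e)` with source `v`: same source and same `e` give equality
(`Subtype.ext`, `Prod.ext`). Same target and same `e`: `UE.tgt ε = ε.1.1.step (e, true) _`; the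
vertex `v` is recovered by `UV.step_step` (step back along `(e, false)`): from
`v.step (e,true) _ = v'.step (e,true) _` apply `step (e,false)` to both (or: `v.1.1 =
RC.mul (v.tgt).1.1 (mk [(e,false)])` by `RC.mul_mul`), and `endp v = src e = endp v'`. Faces `(v, σ)`: clear.

`go_eq_of_walk`: if `Xt.Walk v w v'` then with `w0 := w.map (Prod.map (cov).e id)`: `w0` is a walk of
`X` from `v.endp` to `v'.endp` (`hom_walk_map`, prove it here for any `Hom`), `v' = v.go w0 _ _` and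
`w = v.lift w0 _ _` : both `w` and `v.lift w0` are walks of `Xt` from `v` with image `w0`
(`UV.lift_proj`), so they are equal with equal ends by `(cov_imm).walk_unique` (row U2).

`Xt_conn`: base vertex `⟨(RC.mk 1, x0), [], _⟩`. Every `v` is `go` of the base vertex along any word `p`
with `v = [mk p]` (`UV.lift_walk` gives a walk of `Xt` from the base vertex to `v`); combine
with `isWalk_invRev` and `isWalk_append` (`Cpx.Walk` unfolds to `IsWalk`).

`Xt_sc`: let `w` be a closed walk of `Xt` at `v`, `w0` its image, so `v.go w0 = v`, i.e.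
`RC.mul v.1.1 (mk w0) = v.1.1`. Write `v.1.1 = RC.mk (mk p)`, `p` a walk of `X` from `x0` to
`v.endp` (`v.2`). So `mk p * mk w0 * (mk p)⁻¹ ∈ Nf` (`RC.mk_mul`, `RC.mk_eq`, inverse). By
`nf_lolli` it is a product of lollipops based at `x0`; conjugate by `q := invRev p`
(`prod_shift`, `FreeGroup.inv_mk`): `mk w0 = ∏ lolli (q ++ t.1, t.2)`, words `u := q ++ t.1` walks from
`v.endp`. Let `L` be this list. For `t ∈ L` put `t~ := (v.lift t.1, ⟨(v.go t.1 (X.base t.2.1) _, t.2.1), rfl⟩,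
t.2.2)` (attach: `List.attach` or `List.pmap`, because of the walk proofs): a lollipop of `Xt` from `v`. Let `W` be the
concatenation over `t ∈ L` of the words `t.1 ++ (bd σ or invRev (bd σ)) ++ invRev t.1` and `W~` the
concatenation of `lift t.1 ++ (bd (t~.2.1) or invRev) ++ invRev (lift t.1)`: `W~` is a closed walk of `Xt` at
`v` (each piece is closed at `v`: `UV.lift_walk`, `Xt.bd_walk`, `isWalk_invRev`) with image `W`
(`UV.lift_proj`, `(cov X x0).bd_e`, `invRev` commutes with the map), `FreeGroup.mk W~ = ∏ lolli t~`, and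
`mk W = ∏ lolli t = mk w0`. Now `(cov_imm).mk_eq` (row U2) applied to the walks `w` and `W~` gives
`mk w = mk W~ = ∏ lolli t~`. It is easiest to do induction on the list `L`, proving:
for every `L` of lollipops from `v.endp` there are `W~` and `L~` with `Xt.Walk v W~ v`,
`mk (W~.map (Prod.map cov.e id)) = (L.map X.lolli).prod`, `mk W~ = (L~.map Xt.lolli).prod` and
all `t ∈ L~` walks from `v` (statement `lift_lolli` below).
-/

set_option autoImplicit false

namespace Pool.Agent.H60.CI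

theorem U4_map_invRev {E E' : Type} (f : E → E') (L : List (E × Bool)) :
    (FreeGroup.invRev L).map (Prod.map f id) = FreeGroup.invRev (L.map (Prod.map f id)) := by
  simp only [FreeGroup.invRev, List.map_reverse, List.map_map]
  rfl

theorem U4_mk_conj {E : Type} (p q : List (E × Bool)) :
    FreeGroup.mk (p ++ q ++ FreeGroup.invRev p) = FreeGroup.mk p * FreeGroup.mk q * (FreeGroup.mk p)⁻¹ := by
  rw [← FreeGroup.mul_mk, ← FreeGroup.mul_mk, FreeGroup.inv_mk]

theorem hom_walk_map {Y X : Cpx} (φ : Cpx.Hom Y X) {v y : Y.V} {w : List (Y.E × Bool)}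
    (hw : Y.Walk v w y) : X.Walk (φ.v v) (w.map (Prod.map φ.e id)) (φ.v y) := by
  induction w generalizing v with
  | nil => exact congrArg φ.v hw
  | cons a w ih =>
    obtain ⟨h1, h2⟩ := hw
    obtain ⟨e, b⟩ := a
    cases b
    · refine ⟨(φ.tgt_v e).trans (congrArg φ.v h1), ?_⟩
      have h3 : X.Walk (φ.v (Y.src e)) (w.map (Prod.map φ.e id)) (φ.v y) := ih h2
      rw [← φ.src_v e] at h3
      exact h3
    · refine ⟨(φ.src_v e).trans (congrArg φ.v h1), ?_⟩
      have h3 : X.Walk (φ.v (Y.tgt e)) (w.map (Prod.map φ.e id)) (φ.v y) := ih h2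
      rw [← φ.tgt_v e] at h3
      exact h3

end Pool.Agent.H60.CI

namespace Pool.Agent.H50.CI

open Pool.Agent.H60.CI

variable {X : Cpx} {x0 : X.V}

theorem cov_imm : (cov X x0).IsImm := by
  refine ⟨?_, ?_, ?_⟩
  · intro ε ε' h h'
    exact Subtype.ext (Prod.ext h h')
  · rintro ⟨⟨v, e⟩, hv⟩ ⟨⟨v', e'⟩, hv'⟩ h h'
    have he : e = e' := h'
    subst he
    have h1 : v = v' := by
      refine UV.ext ?_ (hv.trans hv'.symm)
      have h2 : RC.mul (RC.mul v.1.1 (FreeGroup.mk [(e, true)])) (FreeGroup.mk [(e, false)]) =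
          RC.mul (RC.mul v'.1.1 (FreeGroup.mk [(e, true)])) (FreeGroup.mk [(e, false)]) :=
        congrArg (fun u : UV X x0 => RC.mul u.1.1 (FreeGroup.mk [(e, false)])) h
      have h3 : FreeGroup.mk ([(e, true)] ++ [(e, false)]) = 1 := by
        have h1 := FreeGroup.Red.Step.not (L₁ := []) (L₂ := []) (x := e) (b := true)
        exact Quot.sound h1
      rw [RC.mul_mul, RC.mul_mul, FreeGroup.mul_mk, h3, RC.mul_one, RC.mul_one] at h2
      exact h2
    subst h1
    rfl
  · intro τ τ' h h'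
    exact Subtype.ext (Prod.ext h h')

theorem go_eq_of_walk {v v' : UV X x0} {w : List (UE X x0 × Bool)} (hw : (Xt X x0).Walk v w v') :
    ∃ h : X.Walk v.endp (w.map (Prod.map (cov X x0).e id)) v'.endp,
      v.go (w.map (Prod.map (cov X x0).e id)) v'.endp h = v' := by
  have h : X.Walk v.endp (w.map (Prod.map (cov X x0).e id)) v'.endp := hom_walk_map (cov X x0) hw
  refine ⟨h, ?_⟩
  have h1 : (Xt X x0).Walk v (v.lift _ _ h) (v.go _ _ h) := v.lift_walk _ _ h
  have h2 := (cov_imm (X := X) (x0 := x0)).walk_unique hw h1 (v.lift_proj _ _ h).symm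
  exact h2.2.symm

theorem U4_piece {Y X : Cpx} (φ : Cpx.Hom Y X) {v u : Y.V} {P : List (Y.E × Bool)}
    (hP : Y.Walk v P u) (τ : Y.F) (hτ : Y.base τ = u) (b : Bool) :
    ∃ W, Y.Walk v W v ∧ FreeGroup.mk (W.map (Prod.map φ.e id)) =
      X.lolli (P.map (Prod.map φ.e id), φ.f τ, b) ∧ FreeGroup.mk W = Y.lolli (P, τ, b) := by
  subst hτ
  have hbd : Y.Walk (Y.base τ) (Y.bd τ) (Y.base τ) := Y.bd_walk τ
  obtain ⟨Q, hQ⟩ : ∃ Q, Q = if b then Y.bd τ else FreeGroup.invRev (Y.bd τ) := ⟨_, rfl⟩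
  have hQw : Y.Walk (Y.base τ) Q (Y.base τ) := by
    rw [hQ]
    cases b
    · exact isWalk_invRev hbd
    · exact hbd
  refine ⟨P ++ Q ++ FreeGroup.invRev P, isWalk_append.2 ⟨_, isWalk_append.2 ⟨_, hP, hQw⟩,
    isWalk_invRev hP⟩, ?_, ?_⟩
  · rw [List.map_append, List.map_append, U4_map_invRev, U4_mk_conj]
    simp only [Cpx.lolli, hQ]
    cases b
    · simp only [Bool.false_eq_true, if_false, U4_map_invRev, φ.bd_e, FreeGroup.inv_mk]
    · simp only [if_true, φ.bd_e]
  · rw [U4_mk_conj]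
    simp only [Cpx.lolli, hQ]
    cases b
    · simp only [Bool.false_eq_true, if_false, FreeGroup.inv_mk]
    · simp only [if_true]

theorem U4_lift (v : (Xt X x0).V) (L : List (List (X.E × Bool) × X.F × Bool))
    (hL : ∀ t ∈ L, X.Walk (UV.endp v) t.1 (X.base t.2.1)) :
    ∃ (W : List ((Xt X x0).E × Bool)) (L' : List (List ((Xt X x0).E × Bool) × (Xt X x0).F × Bool)),
      (Xt X x0).Walk v W v ∧
      FreeGroup.mk (W.map (Prod.map (cov X x0).e id)) = (L.map X.lolli).prod ∧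
      FreeGroup.mk W = (L'.map (Xt X x0).lolli).prod ∧
      ∀ t ∈ L', (Xt X x0).Walk v t.1 ((Xt X x0).base t.2.1) := by
  induction L with
  | nil => exact ⟨[], [], rfl, rfl, rfl, fun t ht => absurd ht List.not_mem_nil⟩
  | cons t L ih =>
    obtain ⟨W, L', hW, hm, hm', hL'⟩ := ih fun t ht => hL t (List.mem_cons_of_mem _ ht)
    obtain ⟨p, σ, b⟩ := t
    have hp : X.Walk (UV.endp v) p (X.base σ) := hL (p, σ, b) List.mem_cons_self
    obtain ⟨P, hPw, hPp⟩ : ∃ P : List ((Xt X x0).E × Bool),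
        (Xt X x0).Walk v P (UV.go v p (X.base σ) hp) ∧ P.map (Prod.map (cov X x0).e id) = p :=
      ⟨UV.lift v p _ hp, UV.lift_walk v p _ hp, UV.lift_proj v p _ hp⟩
    obtain ⟨τ, hτb, hτf⟩ : ∃ τ : (Xt X x0).F, (Xt X x0).base τ = UV.go v p (X.base σ) hp ∧
        (cov X x0).f τ = σ := ⟨⟨(UV.go v p (X.base σ) hp, σ), rfl⟩, rfl, rfl⟩
    obtain ⟨W1, hW1, hl1, hl2⟩ := U4_piece (cov X x0) hPw τ hτb b
    rw [hPp, hτf] at hl1
    refine ⟨W1 ++ W, (P, τ, b) :: L', isWalk_append.2 ⟨v, hW1, hW⟩, ?_, ?_, ?_⟩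
    · rw [List.map_append, ← FreeGroup.mul_mk, hl1, hm, List.map_cons, List.prod_cons]
    · rw [← FreeGroup.mul_mk, hl2, hm', List.map_cons, List.prod_cons]
    · intro t ht
      rcases List.mem_cons.1 ht with h | h
      · rw [h]
        show (Xt X x0).Walk v P ((Xt X x0).base τ)
        rw [hτb]
        exact hPw
      · exact hL' t h

theorem lift_lolli (v : UV X x0) (L : List (List (X.E × Bool) × X.F × Bool))
    (hL : ∀ t ∈ L, X.Walk v.endp t.1 (X.base t.2.1)) :
    ∃ (W : List (UE X x0 × Bool)) (L' : List (List (UE X x0 × Bool) × UF X x0 × Bool)),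
      (Xt X x0).Walk v W v ∧
      FreeGroup.mk (W.map (Prod.map (cov X x0).e id)) = (L.map X.lolli).prod ∧
      FreeGroup.mk W = (L'.map (Xt X x0).lolli).prod ∧
      ∀ t ∈ L', (Xt X x0).Walk v t.1 ((Xt X x0).base t.2.1) := by
  exact U4_lift v L hL

theorem Xt_conn : (Xt X x0).Conn := by
  obtain ⟨b0, hb0⟩ : ∃ b0 : UV X x0, b0 = ⟨(RC.mk 1, x0), [], rfl, rfl⟩ := ⟨_, rfl⟩
  have hb0e : b0.endp = x0 := by rw [hb0]; rfl
  have hb0c : b0.1.1 = RC.mk 1 := by rw [hb0]
  have key : ∀ v : UV X x0, ∃ w, IsWalk UE.src UE.tgt b0 w v := by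
    intro v
    obtain ⟨p, hp, hp'⟩ := v.2
    have hp2 : X.Walk b0.endp p v.endp := by rw [hb0e]; exact hp
    have h1 : b0.go p v.endp hp2 = v := by
      refine UV.ext ?_ rfl
      show RC.mul b0.1.1 (FreeGroup.mk p) = v.1.1
      rw [hb0c, RC.mk_mul, one_mul, hp']
    have h2 := b0.lift_walk p v.endp hp2
    rw [h1] at h2
    exact ⟨_, h2⟩
  refine ⟨⟨b0⟩, fun x y => ?_⟩
  obtain ⟨w, hw⟩ := key x
  obtain ⟨w', hw'⟩ := key y
  exact ⟨FreeGroup.invRev w ++ w', isWalk_append.2 ⟨_, isWalk_invRev hw, hw'⟩⟩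

theorem Xt_sc : (Xt X x0).LolliSC := by
  intro v w hw
  obtain ⟨w0, hw0⟩ : ∃ w0, w0 = w.map (Prod.map (cov X x0).e id) := ⟨_, rfl⟩
  obtain ⟨h, hgo⟩ := go_eq_of_walk hw
  have h1 : RC.mul v.1.1 (FreeGroup.mk w0) = v.1.1 := by
    rw [hw0]
    exact congrArg (fun u : UV X x0 => u.1.1) hgo
  obtain ⟨p, hp, hp'⟩ := v.2
  rw [← hp', RC.mk_mul, RC.mk_eq] at h1
  have h2 := inv_mem h1
  obtain ⟨L, hL, hLp⟩ := nf_lolli h2
  have h3 : FreeGroup.mk w0 = ((L.map (fun t => (FreeGroup.invRev p ++ t.1, t.2))).map X.lolli).prod := by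
    rw [← prod_shift, ← hLp, ← FreeGroup.inv_mk]
    group
  obtain ⟨W, L', hW, hm, hm', hL'⟩ := lift_lolli v
    (L.map (fun t => (FreeGroup.invRev p ++ t.1, t.2))) (by
      intro t ht
      obtain ⟨s, hs, rfl⟩ := List.mem_map.1 ht
      exact isWalk_append.2 ⟨_, isWalk_invRev hp, hL s hs⟩)
  have h4 := (cov_imm (X := X) (x0 := x0)).mk_eq hw hW (by rw [hm, ← h3, hw0])
  exact ⟨L', hL', h4.1.trans hm'⟩

end Pool.Agent.H50.CI
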