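import Pool.Agent.H50.CI.TD
import Pool.Agent.H50.CI.U2
import Pool.Agent.H50.CI.U4
import Pool.Agent.H60.CI.HIm

/-!
# Integration on `Z = D(T, M, s) / Cl`: definitions, descent
-/

noncomputable section

set_option autoImplicit false
set_option linter.unusedVariables false

namespace Pool.Agent.H60.CI

namespace Cpx

/-- the integral only depends on the class in the free group -/
theorem integ_mk {E M : Type} [AddCommGroup M] (w : E → M) {l l' : List (E × Bool)}
    (h : FreeGroup.mk l = FreeGroup.mk l') : integ w l = integ w l' := by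
  have key : ∀ l : List (E × Bool), Multiplicative.ofAdd (integ w l)
      = FreeGroup.lift (fun e => Multiplicative.ofAdd (w e)) (FreeGroup.mk l) := by
    intro l
    induction l with
    | nil => rfl
    | cons a l ih =>
      have h1 : FreeGroup.mk (a :: l) = FreeGroup.mk [a] * FreeGroup.mk l := by
        rw [FreeGroup.mul_mk]; rfl
      rw [h1, map_mul, ← ih, integ_cons, ofAdd_add]
      congr 1
      obtain ⟨e, b⟩ := a
      cases b <;> simp [FreeGroup.lift_mk]
  have := (key l).trans ((congrArg _ h).trans (key l').symm)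
  exact Multiplicative.ofAdd.injective this

theorem integ_invRev {E M : Type} [AddCommGroup M] (w : E → M) (l : List (E × Bool)) :
    integ w (FreeGroup.invRev l) = - integ w l := by
  induction l with
  | nil => simp [integ]
  | cons a l ih =>
    have h3 : FreeGroup.invRev (a :: l) = FreeGroup.invRev l ++ [(a.1, !a.2)] := by
      simp [FreeGroup.invRev]
    rw [h3, integ_append, ih, integ_cons, integ_cons, integ_nil]
    obtain ⟨e, b⟩ := a
    cases b <;> simp [add_comm]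

theorem integ_eq_wsum {E : Type} (w : E → ℚ) (l : List (E × Bool)) : integ w l = wsum w l := by
  induction l with
  | nil => rfl
  | cons a l ih =>
    rw [integ_cons, wsum_cons, ih]
    obtain ⟨e, b⟩ := a
    cases b <;> simp [sgnb]

end Cpx

/-- value of a word in the letters `s j` -/
def ev {K : Type} [Group K] {n : ℕ} (s : Fin n → K) (ρ : List (Fin n × Bool)) : K :=
  (ρ.map fun a => if a.2 then s a.1 else (s a.1)⁻¹).prod

theorem ev_cons {K : Type} [Group K] {n : ℕ} (s : Fin n → K) (a : Fin n × Bool)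
    (ρ : List (Fin n × Bool)) : ev s (a :: ρ) = (if a.2 then s a.1 else (s a.1)⁻¹) * ev s ρ := by
  simp [ev]

/-- the integral of a cochain `lam` of the Cayley graph (`lam k j` = value on the edge from `k` to
`k s_j`) along the path starting at `k` with label `ρ` -/
def Lam {K : Type} [Group K] {n : ℕ} (s : Fin n → K) (lam : K → Fin n → ℚ) :
    K → List (Fin n × Bool) → ℚ
  | _, [] => 0
  | k, (j, true) :: ρ => lam k j + Lam s lam (k * s j) ρ
  | k, (j, false) :: ρ => - lam (k * (s j)⁻¹) j + Lam s lam (k * (s j)⁻¹) ρ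

namespace TD

variable {K : Type} [Group K] {B : HCpx K} {D : TD B}

/-- descent of functions on the trees to `Z` -/
theorem desc {N : Type} [AddCommGroup N] (ψ : D.W → N) (w : D.ZV → B.E → N)
    (h1 : ∀ {x e y}, D.tadj x e y → ψ y = ψ x + w (D.cls x) e)
    (h2 : ∀ k j, ψ (k * D.s j, ⟨[], D.nil_mem⟩) = ψ (k, ⟨D.ws j, D.ws_mem j⟩))
    (h3 : ∀ (k : K) (t) (ht : t ∈ D.M) (h : t.1 ∈ D.T),
      ψ (k, ⟨t.1, h⟩) = ψ (k, ⟨t.1 ++ B.bd t.2, D.M_mem t ht⟩))
    {x y : D.W} (h : D.Rel x y) : ψ x = ψ y := by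
  induction h with
  | refl x => rfl
  | symm _ ih => exact ih.symm
  | trans _ _ ih ih' => exact ih.trans ih'
  | gs k j => exact h2 k j
  | gm k t ht h => exact h3 k t ht h
  | fwd h h' hr ih =>
    rw [h1 h, h1 h', ih, cls_eq.2 hr]
  | bwd h h' hr ih =>
    have h4 := Rel.bwd h h' hr
    have h5 := (h1 h).symm.trans (ih.trans (h1 h'))
    rw [cls_eq.2 h4] at h5
    exact add_right_cancel h5

/-- the root of the `k`-th tree -/
def root (D : TD B) (k : K) : D.W := (k, ⟨[], D.nil_mem⟩)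

/-- the end of the word `ws j` in the `k`-th tree -/
def wsv (D : TD B) (k : K) (j : Fin D.n) : D.W := (k, ⟨D.ws j, D.ws_mem j⟩)

theorem cls_gs (k : K) (j : Fin D.n) : D.cls (D.root (k * D.s j)) = D.cls (D.wsv k j) :=
  cls_eq.2 (.gs k j)

theorem smul_root (k k' : K) : k • D.cls (D.root k') = D.cls (D.root (k * k')) := rfl

/-- the edge of `Z` of a tree edge -/
def edg {x y : D.W} {e : B.E} (h : D.tadj x e y) : D.Z.Edg :=
  ⟨(D.cls x, e, D.cls y), x, y, rfl, rfl, h⟩

theorem exists_pth (x : D.W) : ∃ L : List (D.Z.Edg × Bool),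
    D.Z.toIm.toCpx.Walk (D.cls (D.root x.1)) L (D.cls x) ∧
      L.map (Prod.map D.Z.epr id) = x.2.1.map (Prod.map (x.1 • ·) id) := by
  obtain ⟨k, u, hu⟩ := x
  exact D.Z.exists_walk (tree_path k u [] D.nil_mem hu)

/-- the path of `Z` from the root to `x` -/
def pth (x : D.W) : List (D.Z.Edg × Bool) := (exists_pth x).choose

theorem pth_walk (x : D.W) : D.Z.toIm.toCpx.Walk (D.cls (D.root x.1)) (pth x) (D.cls x) :=
  (exists_pth x).choose_spec.1

theorem pth_map (x : D.W) :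
    (pth x).map (Prod.map D.Z.epr id) = x.2.1.map (Prod.map (x.1 • ·) id) :=
  (exists_pth x).choose_spec.2

theorem pth_unique (x : D.W) {L : List (D.Z.Edg × Bool)} {y : D.ZV}
    (h : D.Z.toIm.toCpx.Walk (D.cls (D.root x.1)) L y)
    (h' : L.map (Prod.map D.Z.epr id) = x.2.1.map (Prod.map (x.1 • ·) id)) : L = pth x :=
  D.Z.toIm.walk_unique h (pth_walk x) (h'.trans (pth_map x).symm)

/-- the integral of a 1-cochain from the root to `x` -/
def psi0 (b : D.Z.Edg → ℚ) (x : D.W) : ℚ := Cpx.integ b (pth x)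

theorem psi0_nil (b : D.Z.Edg → ℚ) (k : K) : psi0 b (D.root k) = 0 := by
  have : ([] : List (D.Z.Edg × Bool)) = pth (D.root k) :=
    pth_unique (D.root k) (y := D.cls (D.root k)) rfl rfl
  rw [psi0, ← this]
  rfl

theorem psi0_step (b : D.Z.Edg → ℚ) {x y : D.W} {e : B.E} (h : D.tadj x e y) :
    psi0 b y = psi0 b x + b (edg h) := by
  obtain ⟨k, u, hu⟩ := x
  obtain ⟨k', u', hu'⟩ := y
  have h1 : k = k' := h.1
  subst h1
  rcases h.2 with h2 | h2
  · have h3 : pth (k, ⟨u, hu⟩) ++ [(edg h, true)] = pth (k, ⟨u', hu'⟩) := by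
      refine pth_unique _ (y := D.cls (k, ⟨u', hu'⟩))
        (isWalk_append.2 ⟨_, pth_walk (k, ⟨u, hu⟩), rfl, rfl⟩) ?_
      rw [List.map_append, pth_map]
      have h2' : u' = u ++ [(k⁻¹ • e, true)] := h2
      show u.map (Prod.map (k • ·) id) ++ [(e, true)] = u'.map (Prod.map (k • ·) id)
      rw [h2', List.map_append]
      simp
    rw [psi0, psi0, ← h3, Cpx.integ_append, Cpx.integ_cons, Cpx.integ_nil]
    simp
  · have h3 : pth (k, ⟨u', hu'⟩) ++ [(edg h, false)] = pth (k, ⟨u, hu⟩) := by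
      refine pth_unique _ (y := D.cls (k, ⟨u, hu⟩))
        (isWalk_append.2 ⟨_, pth_walk (k, ⟨u', hu'⟩), rfl, rfl⟩) ?_
      rw [List.map_append, pth_map]
      have h2' : u = u' ++ [(k⁻¹ • e, false)] := h2
      show u'.map (Prod.map (k • ·) id) ++ [(e, false)] = u.map (Prod.map (k • ·) id)
      rw [h2', List.map_append]
      simp
    rw [psi0, psi0, ← h3, Cpx.integ_append, Cpx.integ_cons, Cpx.integ_nil]
    simp

/-- the mark of `Z` of a tree mark -/
def mrk {x : D.W} {σ : B.F} (h : D.tmark x σ) : D.Z.Mks := ⟨(D.cls x, σ), x, rfl, h⟩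

theorem psi0_gm (b : D.Z.Edg → ℚ) (hb : ∀ τ : D.Z.Mks, Cpx.integ b (D.Z.toIm.bdw τ) = 0)
    (k : K) (t : List (B.E × Bool) × B.F) (ht : t ∈ D.M) (h : t.1 ∈ D.T) :
    psi0 b (k, ⟨t.1, h⟩) = psi0 b (k, ⟨t.1 ++ B.bd t.2, D.M_mem t ht⟩) := by
  have hm : D.tmark (k, ⟨t.1, h⟩) (k • t.2) := by
    show (t.1, k⁻¹ • k • t.2) ∈ D.M
    rw [inv_smul_smul]
    exact ht
  have h3 : pth (k, ⟨t.1, h⟩) ++ D.Z.toIm.bdw (mrk hm)
      = pth (k, ⟨t.1 ++ B.bd t.2, D.M_mem t ht⟩) := by
    refine pth_unique _ (y := D.cls (k, ⟨t.1, h⟩))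
      (isWalk_append.2 ⟨_, pth_walk (k, ⟨t.1, h⟩), D.Z.toIm.bdw_walk (mrk hm)⟩) ?_
    rw [List.map_append, pth_map, D.Z.toIm.bdw_map]
    show t.1.map (Prod.map (k • ·) id) ++ B.bd (k • t.2) = (t.1 ++ B.bd t.2).map _
    rw [List.map_append, B.bd_smul]
  rw [psi0, psi0, ← h3, Cpx.integ_append, hb, add_zero]

theorem psi0_smul (b : D.Z.Edg → ℚ) (hb : ∀ (k : K) (ε : D.Z.Edg), b (k • ε) = b ε) (k : K)
    (x : D.W) : psi0 b (tr k x) = psi0 b x := by
  have h3 : (pth x).map (Prod.map (fun ε : D.Z.Edg => k • ε) id) = pth (tr k x) := by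
    refine pth_unique _ (y := k • D.cls x) ?_ ?_
    · exact isWalk_map (fun x : D.Z.V => k • x) (fun ε : D.Z.Edg => k • ε) (fun _ => rfl)
        (fun _ => rfl) (pth_walk x)
    · rw [List.map_map]
      have h4 : (Prod.map D.Z.epr id ∘ Prod.map (fun ε : D.Z.Edg => k • ε) id
          : D.Z.Edg × Bool → B.E × Bool) = Prod.map (k • ·) id ∘ Prod.map D.Z.epr id := rfl
      rw [h4, ← List.map_map, pth_map, List.map_map]
      show _ = x.2.1.map (Prod.map ((k * x.1) • ·) id)
      refine List.map_congr_left fun a _ => ?_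
      exact Prod.ext (mul_smul k x.1 a.1).symm rfl
  rw [psi0, psi0, ← h3, Cpx.integ_map]
  congr 1
  exact funext fun ε => hb k ε

/-- value of a 1-cochain on the edge over `e` starting at `X` -/
def bval (b : D.Z.Edg → ℚ) (X : D.ZV) (e : B.E) : ℚ :=
  open Classical in if h : ∃ Y, D.Z.adj X e Y then b ⟨(X, e, h.choose), h.choose_spec⟩ else 0

theorem bval_eq (b : D.Z.Edg → ℚ) (ε : D.Z.Edg) : b ε = bval b (D.Z.esrc ε) (D.Z.epr ε) := by
  have h : ∃ Y, D.Z.adj (D.Z.esrc ε) (D.Z.epr ε) Y := ⟨_, ε.2⟩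
  rw [bval, dif_pos h]
  congr 1
  exact D.Z.toIm.hom_isImm.src_inj _ _ rfl rfl

/-- a cocycle whose periods over the generators are a coboundary `c` of the Cayley graph is exact -/
theorem exact_of (b : D.Z.Edg → ℚ) (hb : ∀ τ : D.Z.Mks, Cpx.integ b (D.Z.toIm.bdw τ) = 0)
    (c : K → ℚ) (hc : ∀ k j, c (k * D.s j) = c k + psi0 b (D.wsv k j)) :
    ∃ Ψ : D.ZV → ℚ, (∀ x, Ψ (D.cls x) = c x.1 + psi0 b x) ∧
      ∀ ε : D.Z.Edg, b ε = Ψ (D.Z.etgt ε) - Ψ (D.Z.esrc ε) := by
  have key : ∀ {x y : D.W}, D.Rel x y → c x.1 + psi0 b x = c y.1 + psi0 b y := by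
    intro x y hxy
    refine desc (fun x => c x.1 + psi0 b x) (bval b) ?_ ?_ ?_ hxy
    · intro x e y h
      show c y.1 + psi0 b y = c x.1 + psi0 b x + bval b (D.cls x) e
      rw [psi0_step b h, ← h.1, bval_eq b (edg h), add_assoc]
      rfl
    · intro k j
      show c (k * D.s j) + psi0 b (D.root (k * D.s j)) = c k + psi0 b (D.wsv k j)
      rw [psi0_nil, add_zero, hc]
    · intro k t ht h
      show c k + _ = c k + _
      rw [psi0_gm b hb k t ht h]
  refine ⟨Quotient.lift (fun x => c x.1 + psi0 b x) (fun _ _ h => key h), fun x => rfl, ?_⟩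
  rintro ⟨⟨X, e, Y⟩, hε⟩
  obtain ⟨x, y, hx, hy, h⟩ := hε
  change D.cls x = X at hx
  change D.cls y = Y at hy
  subst hx
  subst hy
  show b (edg h) = (c y.1 + psi0 b y) - (c x.1 + psi0 b x)
  rw [psi0_step b h, h.1]
  ring

end TD

end Pool.Agent.H60.CI
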