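import Pool.Agent.H60.CI.Clo
import Pool.Agent.H50.CI.TA

/-!
# Attaching a finite tree of words with marks to an immersed complex, and folding

`Z : Im B`, `v` a vertex of `Z`, `T` a prefix closed set of walks of `B` from `Z.p v`, `M` marks
`(u, σ)` with `u` a walk to the base point of `σ`, `u ++ bd σ ∈ T`. `L.DP` is the disjoint union of `Z` and the
tree, `L.G` the generating pairs `v ~ []`, `u ~ u ++ bd σ`, `L.B2` the quotient by the generated congruence,
`L.io : Z → B2`, `L.R` its kernel.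
-/

noncomputable section

set_option autoImplicit false
set_option linter.unusedVariables false

namespace Pool.Agent.H60.CI

/-- data for attaching a tree of words to `Z` -/
structure LD {B : Cpx} (Z : Im B) where
  v : Z.V
  T : Set (List (B.E × Bool))
  nil_mem : [] ∈ T
  pre : ∀ u a, u ++ [a] ∈ T → u ∈ T
  walk : ∀ u ∈ T, ∃ y, B.Walk (Z.p v) u y
  M : Set (List (B.E × Bool) × B.F)
  M_walk : ∀ t ∈ M, B.Walk (Z.p v) t.1 (B.base t.2)
  M_mem : ∀ t ∈ M, t.1 ++ B.bd t.2 ∈ T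

namespace LD

variable {B : Cpx} {Z : Im B} (L : LD Z)

theorem mem_of_append (u w : List (B.E × Bool)) (h : u ++ w ∈ L.T) : u ∈ L.T := by
  induction w using List.reverseRecOn with
  | nil => simpa using h
  | append_singleton w a ih => exact ih (L.pre _ a (by simpa using h))

theorem walk_end {u : List (B.E × Bool)} (h : u ∈ L.T) :
    B.Walk (Z.p L.v) u (endW B.src B.tgt (Z.p L.v) u) := by
  obtain ⟨y, hy⟩ := L.walk u h
  rw [endW_eq hy]
  exact hy

/-- adjacency of the disjoint union -/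
inductive Adj : Z.V ⊕ {u // u ∈ L.T} → B.E → Z.V ⊕ {u // u ∈ L.T} → Prop
  | inl {x e y} : Z.adj x e y → Adj (.inl x) e (.inl y)
  | fw {u u' : {u // u ∈ L.T}} {e} : u'.1 = u.1 ++ [(e, true)] → Adj (.inr u) e (.inr u')
  | bw {u u' : {u // u ∈ L.T}} {e} : u.1 = u'.1 ++ [(e, false)] → Adj (.inr u) e (.inr u')

/-- marks of the disjoint union -/
inductive Mrk : Z.V ⊕ {u // u ∈ L.T} → B.F → Prop
  | inl {x σ} : Z.mark x σ → Mrk (.inl x) σ
  | inr {u : {u // u ∈ L.T}} {σ} : (u.1, σ) ∈ L.M → Mrk (.inr u) σ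

/-- the disjoint union of `Z` and the tree -/
def DP : PC B where
  V := Z.V ⊕ {u // u ∈ L.T}
  p := Sum.elim Z.p (fun u => endW B.src B.tgt (Z.p L.v) u.1)
  adj := L.Adj
  mark := L.Mrk
  adj_src := by
    intro x e y h
    cases h with
    | inl h => exact Z.adj_src h
    | @fw u u' e h =>
      have h1 := L.walk_end u'.2
      rw [h] at h1
      obtain ⟨z, hz, hz'⟩ := isWalk_append.1 h1
      show endW B.src B.tgt (Z.p L.v) u.1 = B.src e
      rw [endW_eq hz]
      exact hz'.1.symm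
    | @bw u u' e h =>
      show endW B.src B.tgt (Z.p L.v) u.1 = B.src e
      rw [h, endW_append]
      rfl
  adj_tgt := by
    intro x e y h
    cases h with
    | inl h => exact Z.adj_tgt h
    | @fw u u' e h =>
      show endW B.src B.tgt (Z.p L.v) u'.1 = B.tgt e
      rw [h, endW_append]
      rfl
    | @bw u u' e h =>
      have h1 := L.walk_end u.2
      rw [h] at h1
      obtain ⟨z, hz, hz'⟩ := isWalk_append.1 h1
      show endW B.src B.tgt (Z.p L.v) u'.1 = B.tgt e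
      rw [endW_eq hz]
      exact hz'.1.symm
  mark_base := by
    intro x σ h
    cases h with
    | inl h => exact Z.mark_base h
    | @inr u σ h =>
      show endW B.src B.tgt (Z.p L.v) u.1 = B.base σ
      rw [endW_eq (L.M_walk _ h)]

/-- generating pairs -/
inductive G : L.DP.V → L.DP.V → Prop
  | root : G (Sum.inl L.v) (Sum.inr ⟨[], L.nil_mem⟩)
  | mk (t) (ht : t ∈ L.M) (h : t.1 ∈ L.T) :
      G (Sum.inr ⟨t.1, h⟩) (Sum.inr ⟨t.1 ++ B.bd t.2, L.M_mem t ht⟩)

theorem G_fib {x y : L.DP.V} (h : L.G x y) : L.DP.p x = L.DP.p y := by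
  cases h with
  | root => rfl
  | mk t ht h =>
    show endW B.src B.tgt (Z.p L.v) t.1 = endW B.src B.tgt (Z.p L.v) (t.1 ++ B.bd t.2)
    rw [endW_eq (L.M_walk t ht), endW_eq (isWalk_append.2 ⟨_, L.M_walk t ht, B.bd_walk t.2⟩)]

/-- the path of the tree -/
theorem tree_path (w : List (B.E × Bool)) (u : List (B.E × Bool)) (hu : u ∈ L.T)
    (h : u ++ w ∈ L.T) : L.DP.W (Sum.inr ⟨u, hu⟩) w (Sum.inr ⟨u ++ w, h⟩) := by
  induction w generalizing u with
  | nil =>
    show (Sum.inr _ : L.DP.V) = Sum.inr _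
    congr 1
    exact Subtype.ext (by simp)
  | cons a w ih =>
    obtain ⟨e, b⟩ := a
    have h1 : u ++ [(e, b)] ∈ L.T := L.mem_of_append _ w (by simpa using h)
    have h2 : u ++ [(e, b)] ++ w ∈ L.T := by simpa using h
    refine ⟨Sum.inr ⟨u ++ [(e, b)], h1⟩, ?_, ?_⟩
    · cases b
      · show L.Adj _ e _
        exact .bw rfl
      · show L.Adj _ e _
        exact .fw rfl
    · have h4 := ih (u ++ [(e, b)]) h1 h2
      have h5 : (⟨u ++ [(e, b)] ++ w, h2⟩ : {u // u ∈ L.T}) = ⟨u ++ (e, b) :: w, h⟩ :=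
        Subtype.ext (by simp)
      rw [h5] at h4
      exact h4

theorem inl_path {x y : Z.V} {w : List (B.E × Bool)} (h : Z.W x w y) :
    L.DP.W (Sum.inl x) w (Sum.inl y) := by
  induction w generalizing x with
  | nil => exact congrArg Sum.inl h
  | cons a w ih =>
    obtain ⟨z, h1, h2⟩ := h
    refine ⟨Sum.inl z, ?_, ih h2⟩
    obtain ⟨e, b⟩ := a
    cases b
    · have h1' : Z.adj z e x := by simpa [PC.oadj] using h1
      show L.Adj _ e _
      exact .inl h1'
    · have h1' : Z.adj x e z := by simpa [PC.oadj] using h1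
      show L.Adj _ e _
      exact .inl h1'

/-- the congruence generated by `G` -/
def cg : Setoid L.DP.V := L.DP.Cl L.G

theorem cg_cong : L.DP.Cong L.cg := PC.Cl_cong L.G_fib

theorem hcl {x : L.DP.V} {σ : B.F} (h : L.DP.mark x σ) :
    ∃ y, L.DP.W x (B.bd σ) y ∧ L.cg x y := by
  cases h with
  | @inl x σ h => exact ⟨Sum.inl x, L.inl_path (Z.mark_walk h), L.cg.refl _⟩
  | @inr u σ h =>
    exact ⟨Sum.inr ⟨u.1 ++ B.bd σ, L.M_mem (u.1, σ) h⟩, L.tree_path _ _ u.2 _,
      PC.ClR.base (G.mk (u.1, σ) h u.2)⟩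

/-- the quotient -/
def B2 : Im B := L.DP.quo L.cg L.cg_cong L.hcl

/-- the projection of the disjoint union -/
def pr : PC.Mor L.DP L.B2.toPC := L.DP.quoMor L.cg L.cg_cong L.hcl

/-- the map `Z → B2` -/
def io : PC.Mor Z.toPC L.B2.toPC where
  f := fun x => L.pr.f (Sum.inl x)
  p_f := fun x => rfl
  adj_f := fun h => L.pr.adj_f (.inl h)
  mark_f := fun h => L.pr.mark_f (.inl h)

/-- its kernel -/
def R : Setoid Z.V := Setoid.ker L.io.f

theorem R_iff {x y : Z.V} : L.R x y ↔ L.cg (Sum.inl x) (Sum.inl y) :=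
  ⟨fun h => Quotient.exact (s := L.cg) h, fun h => Quotient.sound (s := L.cg) h⟩

theorem R_cong : Z.toPC.Cong L.R where
  fib := fun {x y} h => L.cg_cong.fib (L.R_iff.1 h)
  fwd := fun {x e y x' y'} h h' hx => L.R_iff.2 (L.cg_cong.fwd
    (show L.DP.adj _ e _ from .inl h) (show L.DP.adj _ e _ from .inl h') (L.R_iff.1 hx))
  bwd := fun {x e y x' y'} h h' hx => L.R_iff.2 (L.cg_cong.bwd
    (show L.DP.adj _ e _ from .inl h) (show L.DP.adj _ e _ from .inl h') (L.R_iff.1 hx))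

/-- the vertex of `B2` of a word of the tree -/
def tv (u : {u // u ∈ L.T}) : L.B2.V := L.pr.f (Sum.inr u)

theorem root_eq : L.io.f L.v = L.tv ⟨[], L.nil_mem⟩ :=
  Quotient.sound (s := L.cg) (PC.ClR.base .root)

/-- the marks of `B2` coming from `M` -/
def MC : Set L.B2.Mks := {m | ∃ t, ∃ _ : t ∈ L.M, ∃ h : t.1 ∈ L.T,
  L.B2.mbase m = L.tv ⟨t.1, h⟩ ∧ L.B2.mpr m = t.2}

theorem MC_finite (hM : L.M.Finite) : L.MC.Finite := by
  classical
  have h1 : ∀ t : List (B.E × Bool) × B.F, ({m | ∃ _ : t ∈ L.M, ∃ h : t.1 ∈ L.T,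
      L.B2.mbase m = L.tv ⟨t.1, h⟩ ∧ L.B2.mpr m = t.2} : Set L.B2.Mks).Finite := by
    intro t
    refine Set.Subsingleton.finite ?_
    rintro m ⟨h1, h2, h3, h4⟩ m' ⟨h1', h2', h3', h4'⟩
    exact L.B2.mks_ext (h3.trans h3'.symm) (h4.trans h4'.symm)
  refine (hM.biUnion fun t _ => h1 t).subset ?_
  rintro m ⟨t, ht, h⟩
  exact Set.mem_biUnion ht ⟨ht, h⟩

end LD

end Pool.Agent.H60.CI
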