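import Pool.Agent.H50.CI.SA

/-!
# ROW SB: the kernel of `Z → B2` has finite codimension data
Definitions: `SA.lean` (`LD`, `DP`, `Adj`, `G`, `cg`, `R`), `H60/CI/Clo.lean` (`PC.ClR`, `PC.Cl`, `Cl_min`, `KK`,
`DD`, `DD_gen`, `KK_gen`).

`fd`: for `T`, `M` finite there is a finite set `S` of vectors of `Z.V →₀ ℚ` with
`KK R ≤ DD R ⊔ span S`.
Write `δ x y = single y 1 - single x 1`. All vectors live in `L.DP.V →₀ ℚ`, `L.DP.V = Z.V ⊕ T`.
(1) `W1` := finite set of the `δ x y` with `L.G x y` (`root`, and one for every `t ∈ M`).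
    `KK cg ≤ DD cg ⊔ span W1`: for `cg x y` we show `δ x y ∈ N := DD cg ⊔ span W1` by `PC.Cl_min` with the relation
    `fun x y => δ x y ∈ N` (an equivalence: `δ x x = 0`, `δ y x = - δ x y`, `δ x z = δ x y + δ y z`); generating pairs are
    clear; `fwd`: `δ y y' = δ x x' + (δ x' y' - δ x y)` and `δ x' y' - δ x y` is minus a generator of `DD cg` (it is
    `-( (single y - single x) - (single y' - single x') )`, `DD_gen` with `ClR G x x'`); `bwd`: `ClR.bwd` gives `ClR G x x'`,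
    and `δ x x' = δ y y' - (δ x' y' - δ x y)`.
(2) tree edges: the set `TE` of triples `(u, e, u')` (`u, u' ∈ T`, `L.Adj (inr u) e (inr u')`) is finite: `e` is the
    edge of the last letter of `u'` or of `u` (e.g. `TE` is contained in the finite set of all `(u, e, u')` with
    `e` an edge occurring in a word of `T`). For a tree edge `ε = (u, e, u')` say that it is good if there is an
    edge `x -e- y` of `Z` with `cg (inr u) (inl x)`; for good `ε` choose such `(x_ε, y_ε)`. `W2` := the finite set of all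
    `δ (inr u) (inr u')` (`ε ∈ TE`) and all `δ (inl x_ε) (inl y_ε)` (`ε` good).
    `DD cg ≤ map i (DD R) ⊔ span W2` where `i = Finsupp.lmapDomain ℚ ℚ Sum.inl`. Let
    `(δ x y) - (δ x' y')` be a generator, `Adj x e y`, `Adj x' e y'`, `cg x x'`. Cases (`cases` on `Adj`): both in `Z`:
    it is the image of a generator of `DD R` (`R_iff`). Both tree edges: in `span W2`. First tree edge `ε`,
    second `x' -e- y'` in `Z`: `ε` is good, `δ ε - δ (x', y') = δ ε - δ (x_ε, y_ε) + (δ (x_ε, y_ε) - δ (x', y'))` and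
    the last bracket is the image of a generator of `DD R` (`cg (inl x_ε) (inl x')` by symmetry and
    transitivity). Symmetric case: negative.
(3) Let `π : (L.DP.V →₀ ℚ) →ₗ[ℚ] (Z.V →₀ ℚ)` be the linear map with `π (single (inl x) 1) = single x 1` and
    `π (single (inr u) 1) = 0` (`Finsupp.linearCombination ℚ (Sum.elim (fun x => single x 1) 0)`). `π ∘ i = id`. For a
    generator `single y 1 - single x 1` of `KK R` (`R x y`): `i` of it is in `KK cg`, so it is in
    `map i (DD R) ⊔ span (W1 ∪ W2)`; apply `π`: it lies in `DD R ⊔ span (π '' (W1 ∪ W2))`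
    (`Submodule.map_sup`, `Submodule.map_span`, `Submodule.map_comp`). `S := π '' (W1 ∪ W2)`.
-/

noncomputable section

set_option autoImplicit false
set_option linter.unusedVariables false

namespace Pool.Agent.H60.CI.LD

open Finsupp

variable {B : Cpx} {Z : Im B}

/-- difference of two vertices -/
def SB_d (L : LD Z) (x y : L.DP.V) : L.DP.V →₀ ℚ := single y 1 - single x 1

/-- the inclusion of the chains of `Z` -/
def SB_i (L : LD Z) : (Z.V →₀ ℚ) →ₗ[ℚ] (L.DP.V →₀ ℚ) := Finsupp.lmapDomain ℚ ℚ Sum.inl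

theorem SB_i_d (L : LD Z) (x y : Z.V) :
    L.SB_i (single y 1 - single x 1) = L.SB_d (Sum.inl x) (Sum.inl y) := by
  unfold SB_i SB_d
  rw [map_sub]
  simp only [Finsupp.lmapDomain_apply, Finsupp.mapDomain_single]

/-- tree edges -/
def SB_TE (L : LD Z) : Set ({u // u ∈ L.T} × B.E × {u // u ∈ L.T}) :=
  {t | L.Adj (Sum.inr t.1) t.2.1 (Sum.inr t.2.2)}

theorem SB_TE_finite (L : LD Z) (hT : L.T.Finite) : L.SB_TE.Finite := by
  have : Finite {u // u ∈ L.T} := hT
  have h1 : ∀ q : {u // u ∈ L.T} × {u // u ∈ L.T},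
      ({t | t ∈ L.SB_TE ∧ t.1 = q.1 ∧ t.2.2 = q.2} : Set _).Finite := by
    intro q
    refine Set.Subsingleton.finite ?_
    rintro ⟨u, e, u'⟩ ⟨h1, h2, h3⟩ ⟨v, e', v'⟩ ⟨h1', h2', h3'⟩
    simp only at h2 h3 h2' h3'
    subst h2
    subst h3
    obtain rfl : v = q.1 := h2'
    obtain rfl : v' = q.2 := h3'
    have key : e = e' := by
      have g1 : L.Adj (Sum.inr q.1) e (Sum.inr q.2) := h1
      have g2 : L.Adj (Sum.inr q.1) e' (Sum.inr q.2) := h1'
      cases g1 with
      | fw a1 =>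
        cases g2 with
        | fw a2 =>
          have a3 := a1.symm.trans a2
          simpa using a3
        | bw a2 =>
          exfalso
          have b1 := congrArg List.length a1
          have b2 := congrArg List.length a2
          simp only [List.length_append, List.length_cons, List.length_nil] at b1 b2
          omega
      | bw a1 =>
        cases g2 with
        | fw a2 =>
          exfalso
          have b1 := congrArg List.length a1
          have b2 := congrArg List.length a2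
          simp only [List.length_append, List.length_cons, List.length_nil] at b1 b2
          omega
        | bw a2 =>
          have a3 := a1.symm.trans a2
          simpa using a3
    rw [key]
  refine ((Set.finite_univ (α := {u // u ∈ L.T} × {u // u ∈ L.T})).biUnion
    fun q _ => h1 q).subset ?_
  intro t ht
  exact Set.mem_biUnion (Set.mem_univ (t.1, t.2.2)) ⟨ht, rfl, rfl⟩

theorem SB_we (L : LD Z) (t : {u // u ∈ L.T} × B.E × {u // u ∈ L.T}) :
    ∃ w : L.DP.V →₀ ℚ, ∀ x' y', Z.adj x' t.2.1 y' → L.cg (Sum.inr t.1) (Sum.inl x') →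
      w - L.SB_d (Sum.inl x') (Sum.inl y') ∈ (Z.toPC.DD L.R).map L.SB_i := by
  by_cases hg : ∃ x y, Z.adj x t.2.1 y ∧ L.cg (Sum.inr t.1) (Sum.inl x)
  · obtain ⟨x, y, h1, h2⟩ := hg
    refine ⟨L.SB_d (Sum.inl x) (Sum.inl y), fun x' y' h1' h2' => ?_⟩
    have h3 : L.R x x' := L.R_iff.2 (L.cg.trans (L.cg.symm h2) h2')
    have h4 := PC.DD_gen h1 h1' h3
    refine ⟨_, h4, ?_⟩
    rw [map_sub, SB_i_d, SB_i_d]
  · refine ⟨0, fun x' y' h1' h2' => absurd ⟨x', y', h1', h2'⟩ hg⟩

theorem SB_cases (L : LD Z) {x y : L.DP.V} {e : B.E} (h : L.DP.adj x e y) :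
    (∃ a b : Z.V, x = Sum.inl a ∧ y = Sum.inl b ∧ Z.adj a e b) ∨
      (∃ a b : {u // u ∈ L.T}, x = Sum.inr a ∧ y = Sum.inr b ∧ (a, e, b) ∈ L.SB_TE) := by
  have h' : L.Adj x e y := h
  cases h' with
  | inl g => exact Or.inl ⟨_, _, rfl, rfl, g⟩
  | fw g => exact Or.inr ⟨_, _, rfl, rfl, .fw g⟩
  | bw g => exact Or.inr ⟨_, _, rfl, rfl, .bw g⟩

theorem SB_step2 (L : LD Z) (hT : L.T.Finite) :
    ∃ W : Set (L.DP.V →₀ ℚ), W.Finite ∧
      L.DP.DD L.cg ≤ (Z.toPC.DD L.R).map L.SB_i ⊔ Submodule.span ℚ W := by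
  choose w hw using L.SB_we
  have hTE := L.SB_TE_finite hT
  refine ⟨(fun t : {u // u ∈ L.T} × B.E × {u // u ∈ L.T} =>
      L.SB_d (Sum.inr t.1) (Sum.inr t.2.2)) '' L.SB_TE ∪ w '' L.SB_TE,
    (hTE.image _).union (hTE.image _), ?_⟩
  have m1 : ∀ t ∈ L.SB_TE, L.SB_d (Sum.inr t.1) (Sum.inr t.2.2) ∈
      (Z.toPC.DD L.R).map L.SB_i ⊔ Submodule.span ℚ
        ((fun t : {u // u ∈ L.T} × B.E × {u // u ∈ L.T} =>
          L.SB_d (Sum.inr t.1) (Sum.inr t.2.2)) '' L.SB_TE ∪ w '' L.SB_TE) := fun t ht =>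
    Submodule.mem_sup_right (Submodule.subset_span (Or.inl ⟨t, ht, rfl⟩))
  have m2 : ∀ t ∈ L.SB_TE, w t ∈
      (Z.toPC.DD L.R).map L.SB_i ⊔ Submodule.span ℚ
        ((fun t : {u // u ∈ L.T} × B.E × {u // u ∈ L.T} =>
          L.SB_d (Sum.inr t.1) (Sum.inr t.2.2)) '' L.SB_TE ∪ w '' L.SB_TE) := fun t ht =>
    Submodule.mem_sup_right (Submodule.subset_span (Or.inr ⟨t, ht, rfl⟩))
  unfold PC.DD
  rw [Submodule.span_le]
  rintro z ⟨x, y, x', y', e, h1, h2, h3, rfl⟩
  rcases L.SB_cases h1 with ⟨a, b, rfl, rfl, g1⟩ | ⟨a, b, rfl, rfl, g1⟩ <;>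
    rcases L.SB_cases h2 with ⟨a', b', rfl, rfl, g2⟩ | ⟨a', b', rfl, rfl, g2⟩
  · refine Submodule.mem_sup_left ⟨_, PC.DD_gen g1 g2 (L.R_iff.2 h3), ?_⟩
    rw [map_sub, SB_i_d, SB_i_d]
    rfl
  · have e1 := hw (a', e, b') a b g1 (L.cg.symm h3)
    have e2 := m2 _ g2
    have e3 := m1 _ g2
    have e4 := Submodule.sub_mem _ (Submodule.sub_mem _ e2 (Submodule.mem_sup_left e1)) e3
    have e5 : (single (Sum.inl b) 1 - single (Sum.inl a) 1) -
        (single (Sum.inr b') 1 - single (Sum.inr a') 1)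
        = w (a', e, b') - (w (a', e, b') - L.SB_d (Sum.inl a) (Sum.inl b))
          - L.SB_d (Sum.inr a') (Sum.inr b') := by
      unfold SB_d
      abel
    exact e5 ▸ e4
  · have e1 := hw (a, e, b) a' b' g2 h3
    have e2 := m2 _ g1
    have e3 := m1 _ g1
    have e4 := Submodule.add_mem _ (Submodule.sub_mem _ e3 e2) (Submodule.mem_sup_left e1)
    have e5 : (single (Sum.inr b) 1 - single (Sum.inr a) 1) -
        (single (Sum.inl b') 1 - single (Sum.inl a') 1)
        = L.SB_d (Sum.inr a) (Sum.inr b) - w (a, e, b)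
          + (w (a, e, b) - L.SB_d (Sum.inl a') (Sum.inl b')) := by
      unfold SB_d
      abel
    exact e5 ▸ e4
  · exact Submodule.sub_mem _ (m1 _ g1) (m1 _ g2)

theorem SB_G_finite (L : LD Z) (hM : L.M.Finite) :
    ({w | ∃ x y, L.G x y ∧ w = L.SB_d x y} : Set (L.DP.V →₀ ℚ)).Finite := by
  classical
  have h1 : ∀ t : List (B.E × Bool) × B.F, ({w | ∃ ht : t ∈ L.M, ∃ h : t.1 ∈ L.T,
      w = L.SB_d (Sum.inr ⟨t.1, h⟩) (Sum.inr ⟨t.1 ++ B.bd t.2, L.M_mem t ht⟩)}
        : Set (L.DP.V →₀ ℚ)).Finite := by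
    intro t
    refine Set.Subsingleton.finite ?_
    rintro m ⟨h1, h2, rfl⟩ m' ⟨h1', h2', rfl⟩
    rfl
  refine ((Set.finite_singleton (L.SB_d (Sum.inl L.v) (Sum.inr ⟨[], L.nil_mem⟩))).union
    (hM.biUnion fun t _ => h1 t)).subset ?_
  rintro w ⟨x, y, hG, rfl⟩
  cases hG with
  | root => exact Or.inl rfl
  | mk t ht h => exact Or.inr (Set.mem_biUnion ht ⟨ht, h, rfl⟩)

theorem SB_step1 (L : LD Z) : L.DP.KK L.cg ≤ L.DP.DD L.cg ⊔
    Submodule.span ℚ {w | ∃ x y, L.G x y ∧ w = L.SB_d x y} := by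
  have key : ∀ x y, L.DP.ClR L.G x y → L.SB_d x y ∈ L.DP.DD L.cg ⊔
      Submodule.span ℚ {w | ∃ x y, L.G x y ∧ w = L.SB_d x y} := by
    intro x y h
    refine PC.Cl_min (D := L.DP) (G := L.G) (R := fun x y => L.SB_d x y ∈ L.DP.DD L.cg ⊔
      Submodule.span ℚ {w | ∃ x y, L.G x y ∧ w = L.SB_d x y}) ⟨fun x => ?_, fun {x y} h => ?_,
      fun {x y z} h h' => ?_⟩ (fun {x y} h => ?_) ?_ ?_ h
    · have e : L.SB_d x x = 0 := sub_self _
      rw [e]
      exact Submodule.zero_mem _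
    · have e : L.SB_d y x = - L.SB_d x y := by unfold SB_d; abel
      rw [e]
      exact Submodule.neg_mem _ h
    · have e : L.SB_d x z = L.SB_d x y + L.SB_d y z := by unfold SB_d; abel
      rw [e]
      exact Submodule.add_mem _ h h'
    · exact Submodule.mem_sup_right (Submodule.subset_span ⟨x, y, h, rfl⟩)
    · intro x e y x' y' h1 h2 h3 h4
      have g : (single y 1 - single x 1) - (single y' 1 - single x' 1) ∈ L.DP.DD L.cg :=
        PC.DD_gen h1 h2 h3
      have g2 := Submodule.sub_mem _ h4 (Submodule.mem_sup_left (T := Submodule.span ℚ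
        {w | ∃ x y, L.G x y ∧ w = L.SB_d x y}) g)
      have e1 : L.SB_d y y' = L.SB_d x x' -
          ((single y 1 - single x 1) - (single y' 1 - single x' 1)) := by
        unfold SB_d; abel
      show L.SB_d y y' ∈ _
      rw [e1]
      exact g2
    · intro x e y x' y' h1 h2 h3 h4
      have g : (single y 1 - single x 1) - (single y' 1 - single x' 1) ∈ L.DP.DD L.cg :=
        PC.DD_gen h1 h2 (PC.ClR.bwd h1 h2 h3)
      have g2 := Submodule.add_mem _ h4 (Submodule.mem_sup_left (T := Submodule.span ℚ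
        {w | ∃ x y, L.G x y ∧ w = L.SB_d x y}) g)
      have e1 : L.SB_d x x' = L.SB_d y y' +
          ((single y 1 - single x 1) - (single y' 1 - single x' 1)) := by
        unfold SB_d; abel
      show L.SB_d x x' ∈ _
      rw [e1]
      exact g2
  unfold PC.KK
  rw [Submodule.span_le]
  rintro z ⟨x, y, h, rfl⟩
  exact key x y h

/-- the projection of the chains to the chains of `Z` -/
def SB_pi (L : LD Z) : (L.DP.V →₀ ℚ) →ₗ[ℚ] (Z.V →₀ ℚ) :=
  Finsupp.linearCombination ℚ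
    (Sum.elim (fun x : Z.V => (single x (1 : ℚ) : Z.V →₀ ℚ)) (fun _ : {u // u ∈ L.T} => 0))

theorem SB_pi_i (L : LD Z) (z : Z.V →₀ ℚ) : L.SB_pi (L.SB_i z) = z := by
  induction z using Finsupp.induction_linear with
  | zero => simp
  | add f g hf hg => rw [map_add, map_add, hf, hg]
  | single x r =>
    have h1 : L.SB_i (single x r) = (single (Sum.inl x : L.DP.V) r : L.DP.V →₀ ℚ) := by
      unfold SB_i
      rw [Finsupp.lmapDomain_apply]
      exact Finsupp.mapDomain_single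
    have h2 : L.SB_pi (single (Sum.inl x : L.DP.V) r : L.DP.V →₀ ℚ)
        = r • (single x (1 : ℚ) : Z.V →₀ ℚ) := by
      unfold SB_pi
      exact Finsupp.linearCombination_single _ _ _
    rw [h1, h2, Finsupp.smul_single, smul_eq_mul, mul_one]

theorem fd (L : LD Z) (hT : L.T.Finite) (hM : L.M.Finite) :
    ∃ S : Set (Z.V →₀ ℚ), S.Finite ∧ Z.toPC.KK L.R ≤ Z.toPC.DD L.R ⊔ Submodule.span ℚ S := by
  obtain ⟨W, hW, hW2⟩ := L.SB_step2 hT
  have h1 := L.SB_step1
  have hG := L.SB_G_finite hM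
  refine ⟨L.SB_pi '' W ∪ L.SB_pi '' {w | ∃ x y, L.G x y ∧ w = L.SB_d x y},
    (hW.image _).union (hG.image _), ?_⟩
  have h2 : L.DP.KK L.cg ≤ ((Z.toPC.DD L.R).map L.SB_i ⊔ Submodule.span ℚ W) ⊔
      Submodule.span ℚ {w | ∃ x y, L.G x y ∧ w = L.SB_d x y} :=
    h1.trans (sup_le_sup_right hW2 _)
  have h3 := Submodule.map_mono (f := L.SB_pi) h2
  rw [Submodule.map_sup, Submodule.map_sup, Submodule.map_span, Submodule.map_span,
    ← Submodule.map_comp] at h3
  have h4 : L.SB_pi ∘ₗ L.SB_i = LinearMap.id := LinearMap.ext fun z => L.SB_pi_i z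
  rw [h4, Submodule.map_id] at h3
  rw [Submodule.span_union, ← sup_assoc]
  refine le_trans ?_ h3
  unfold PC.KK
  rw [Submodule.span_le]
  rintro z ⟨x, y, h, rfl⟩
  refine ⟨L.SB_d (Sum.inl x) (Sum.inl y), PC.KK_gen (L.R_iff.1 h), ?_⟩
  rw [← SB_i_d, SB_pi_i]

end Pool.Agent.H60.CI.LD
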