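import Pool.Agent.H50.CI.SA
import Pool.Agent.H50.CI.U2

/-!
# ROW SC: the image of a closed path in `B2` is killed by the finitely many marks `MC`
Definitions: `SA.lean` (`LD`, `B2`, `pr`, `io`, `tv`, `MC`, `tree_path`, `root_eq`), `Im.lean` (`Im.bdw`, `W_of_walk`,
`exists_walk`, `W_fun`, `Im.hom_isImm`, `PC.Mor.W`, `PC.Mor.fe`), `U2.lean` (`Cpx.Hom.IsImm.mk_eq`), `U0.lean`
(`isWalk_append`, `isWalk_invRev`, `Cpx.lolli`).

`closed_mem`. Let `N` be the normal closure on the right side.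
(1) for `u ∈ T` there is a walk `P u` of `B2` (`L.B2.toCpx.Walk`) from `io v = tv []` to `tv u` with image
    `(P u).map (Prod.map epr id) = u`: `tree_path` from `[]` and `L.pr.W`, `exists_walk`.
(2) for a list `C` with `(t.1, t.2.1) ∈ M` for `t ∈ C` there is a walk `Q` of `B2` from `io v` to `io v` with
    `FreeGroup.mk Q ∈ N` and `FreeGroup.mk (Q.map (Prod.map epr id)) = (C.map B.lolli).prod`. Induction on `C`; for
    `t = (u, σ, c)`: let `m : L.B2.Mks` be the mark at `tv u` over `σ` (`L.pr.mark_f (.inr _)`), `m ∈ MC`,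
    `Q = P u ++ (bdw m or its invRev) ++ invRev (P u)`. `FreeGroup.mk Q` is a conjugate of
    `(FreeGroup.mk (bdw m))^{±1}` (`FreeGroup.mul_mk`, `FreeGroup.inv_mk`), and the image is `B.lolli t`
    (`Im.bdw_map`; `(FreeGroup.invRev w).map (Prod.map f id) = FreeGroup.invRev (w.map (Prod.map f id))` is `U4_map_invRev`
    in `U4.lean`).
(3) `w' := w.map (Prod.map L.io.fe id)` is a closed walk of `B2` at `io v` (`isWalk_map`, file `Im.lean`), its image in
    `B` is `w.map (Prod.map Z.epr id)`, whose class is `(C.map B.lolli).prod`, the class of the image of `Q`. By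
    `mk_eq` (for `L.B2.hom_isImm`) `FreeGroup.mk w' = FreeGroup.mk Q ∈ N`.
-/

noncomputable section

set_option autoImplicit false
set_option linter.unusedVariables false

namespace Pool.Agent.H60.CI.LD

variable {B : Cpx} {Z : Im B}

theorem SC_map_invRev {E E' : Type} (f : E → E') (L : List (E × Bool)) :
    (FreeGroup.invRev L).map (Prod.map f id) = FreeGroup.invRev (L.map (Prod.map f id)) := by
  simp only [FreeGroup.invRev, List.map_reverse, List.map_map]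
  rfl

theorem SC_path (L : LD Z) (u : {u // u ∈ L.T}) :
    ∃ P : List (L.B2.Edg × Bool), L.B2.toCpx.Walk (L.io.f L.v) P (L.tv u) ∧
      P.map (Prod.map L.B2.epr id) = u.1 := by
  have h0 : [] ++ u.1 ∈ L.T := by simp
  have h := L.pr.W (L.tree_path u.1 [] L.nil_mem h0)
  have h1 : L.B2.W (L.tv ⟨[], L.nil_mem⟩) u.1 (L.tv u) := h
  rw [← L.root_eq] at h1
  exact L.B2.exists_walk h1

theorem SC_one (L : LD Z) (u : List (B.E × Bool)) (σ : B.F) (c : Bool) (hM : (u, σ) ∈ L.M) :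
    ∃ Q : List (L.B2.Edg × Bool), L.B2.toCpx.Walk (L.io.f L.v) Q (L.io.f L.v) ∧
      FreeGroup.mk Q ∈ Subgroup.normalClosure ((fun m => FreeGroup.mk (L.B2.bdw m)) '' L.MC) ∧
      FreeGroup.mk (Q.map (Prod.map L.B2.epr id)) = B.lolli (u, σ, c) := by
  have hu : u ∈ L.T := L.mem_of_append u _ (L.M_mem _ hM)
  obtain ⟨P, hP, hP'⟩ := L.SC_path ⟨u, hu⟩
  have hmk : L.B2.mark (L.tv ⟨u, hu⟩) σ := L.pr.mark_f (Mrk.inr hM)
  let m : L.B2.Mks := ⟨(L.tv ⟨u, hu⟩, σ), hmk⟩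
  have hm : m ∈ L.MC := ⟨(u, σ), hM, hu, rfl, rfl⟩
  have hN : FreeGroup.mk (L.B2.bdw m) ∈
      Subgroup.normalClosure ((fun m => FreeGroup.mk (L.B2.bdw m)) '' L.MC) :=
    Subgroup.subset_normalClosure ⟨m, hm, rfl⟩
  have hw : L.B2.toCpx.Walk (L.tv ⟨u, hu⟩) (L.B2.bdw m) (L.tv ⟨u, hu⟩) := L.B2.bdw_walk m
  have hmap : (L.B2.bdw m).map (Prod.map L.B2.epr id) = B.bd σ := L.B2.bdw_map m
  have hinv : L.B2.toCpx.Walk (L.tv ⟨u, hu⟩) (FreeGroup.invRev P) (L.io.f L.v) := isWalk_invRev hP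
  cases c with
  | true =>
    refine ⟨P ++ L.B2.bdw m ++ FreeGroup.invRev P, ?_, ?_, ?_⟩
    · exact isWalk_append.2 ⟨_, isWalk_append.2 ⟨_, hP, hw⟩, hinv⟩
    · rw [← FreeGroup.mul_mk, ← FreeGroup.mul_mk, ← FreeGroup.inv_mk]
      exact Subgroup.normalClosure_normal.conj_mem _ hN _
    · rw [List.map_append, List.map_append, SC_map_invRev, hP', hmap, ← FreeGroup.mul_mk,
        ← FreeGroup.mul_mk, ← FreeGroup.inv_mk]
      simp [Cpx.lolli]
  | false =>
    refine ⟨P ++ FreeGroup.invRev (L.B2.bdw m) ++ FreeGroup.invRev P, ?_, ?_, ?_⟩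
    · exact isWalk_append.2 ⟨_, isWalk_append.2 ⟨_, hP, isWalk_invRev hw⟩, hinv⟩
    · rw [← FreeGroup.mul_mk, ← FreeGroup.mul_mk, ← FreeGroup.inv_mk, ← FreeGroup.inv_mk]
      exact Subgroup.normalClosure_normal.conj_mem _ (inv_mem hN) _
    · rw [List.map_append, List.map_append, SC_map_invRev, SC_map_invRev, hP', hmap,
        ← FreeGroup.mul_mk, ← FreeGroup.mul_mk, ← FreeGroup.inv_mk, ← FreeGroup.inv_mk]
      simp [Cpx.lolli]

theorem SC_list (L : LD Z) (C : List (List (B.E × Bool) × B.F × Bool))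
    (hC : ∀ t ∈ C, (t.1, t.2.1) ∈ L.M) :
    ∃ Q : List (L.B2.Edg × Bool), L.B2.toCpx.Walk (L.io.f L.v) Q (L.io.f L.v) ∧
      FreeGroup.mk Q ∈ Subgroup.normalClosure ((fun m => FreeGroup.mk (L.B2.bdw m)) '' L.MC) ∧
      FreeGroup.mk (Q.map (Prod.map L.B2.epr id)) = (C.map B.lolli).prod := by
  induction C with
  | nil =>
    refine ⟨[], rfl, ?_, ?_⟩
    · rw [← FreeGroup.one_eq_mk]
      exact one_mem _
    · simp [← FreeGroup.one_eq_mk]
  | cons t C ih =>
    obtain ⟨Q, h1, h2, h3⟩ := ih (fun t ht => hC t (List.mem_cons_of_mem _ ht))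
    obtain ⟨u, σ, c⟩ := t
    obtain ⟨Q', h1', h2', h3'⟩ := L.SC_one u σ c (hC _ List.mem_cons_self)
    refine ⟨Q' ++ Q, isWalk_append.2 ⟨_, h1', h1⟩, ?_, ?_⟩
    · rw [← FreeGroup.mul_mk]
      exact mul_mem h2' h2
    · rw [List.map_append, ← FreeGroup.mul_mk, h3, h3', List.map_cons, List.prod_cons]

theorem closed_mem (L : LD Z) (w : List (Z.Edg × Bool)) (hw : Z.toCpx.Walk L.v w L.v)
    (C : List (List (B.E × Bool) × B.F × Bool)) (hC : ∀ t ∈ C, (t.1, t.2.1) ∈ L.M)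
    (he : FreeGroup.mk (w.map (Prod.map Z.epr id)) = (C.map B.lolli).prod) :
    FreeGroup.mk (w.map (Prod.map L.io.fe id)) ∈
      Subgroup.normalClosure ((fun m => FreeGroup.mk (L.B2.bdw m)) '' L.MC) := by
  obtain ⟨Q, h1, h2, h3⟩ := L.SC_list C hC
  have hw' : L.B2.toCpx.Walk (L.io.f L.v) (w.map (Prod.map L.io.fe id)) (L.io.f L.v) :=
    isWalk_map L.io.f L.io.fe (fun _ => rfl) (fun _ => rfl) hw
  have h4 : (w.map (Prod.map L.io.fe id)).map (Prod.map L.B2.epr id) = w.map (Prod.map Z.epr id) := by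
    rw [List.map_map]
    rfl
  have h5 : FreeGroup.mk ((w.map (Prod.map L.io.fe id)).map (Prod.map L.B2.hom.e id))
      = FreeGroup.mk (Q.map (Prod.map L.B2.hom.e id)) := by
    show FreeGroup.mk ((w.map (Prod.map L.io.fe id)).map (Prod.map L.B2.epr id))
      = FreeGroup.mk (Q.map (Prod.map L.B2.epr id))
    rw [h4, he, h3]
  have h6 := (L.B2.hom_isImm.mk_eq hw' h1 h5).1
  rw [h6]
  exact h2

end Pool.Agent.H60.CI.LD
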