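import Pool.Agent.H60.CI.Hz

/-!
# ROW SD: the cohomological conditions (H1), (H2)
`Cpx.H1z`, `Cpx.H2z`, `Cpx.L1`, `Cpx.L2`, `wch`, `wsum`: `H60/CI/Hcx.lean`; `wsum_eq_integ`: `H60/CI/Hz.lean`.
For `b : E → ℚ` let `φ_b = Finsupp.linearCombination ℚ b : (E →₀ ℚ) →ₗ[ℚ] ℚ`; `φ_b (wch w) = wsum b w
= Cpx.integ b w` (`linearCombination_wch`), and every linear functional `φ` is `φ_b` with `b e = φ (single e 1)`.

`coh2`: `L2` is injective (`H2z`, `LinearMap.ker_eq_bot`), so it has a left inverse `s`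
(`LinearMap.exists_leftInverse_of_injective`), `φ := (linearCombination ℚ δ) ∘ s`, `b e := φ (single e 1)`;
`integ b (bd τ) = φ (wch (bd τ)) = φ (L2 (single τ 1)) = δ τ`.

`coh1`: `G := Finsupp.lmapDomain ℚ ℚ g.e : (Y.E →₀ ℚ) → (Y2.E →₀ ℚ)`, `G (L2 c) = L2 (mapDomain g.f c)`
(`Cpx.Hom.L2_map` in `H60/CI`, or by linearity and `mapDomain_wch`, `g.bd_e`). `Z1 := ker Y.L1`, `U := map G Z1`,
`V := span {wch (bd τ) | τ ∈ I2}`.
KEY: `z ∈ Z1`, `G z ∈ V` ⇒ `φ_a z = 0`. Proof: `z = L2 c` (`H1z`), `G z = L2 d` with `d` supported in `I2` (elements of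
`V` are such: `Submodule.span_induction` or `Finsupp.mem_span_image_iff_linearCombination`). So
`L2 (mapDomain g.f c) = L2 d`, so `mapDomain g.f c = d` (`H2z`). For `τ ∉ M1`: `c τ = (mapDomain g.f c) (g.f τ)` because `τ` is the
only preimage of `g.f τ` (`hinj`), and this is `d (g.f τ) = 0` since `g.f τ ∉ I2` (`hI`). So `c` is supported in `M1` and
`φ_a (L2 c) = ∑ c τ * integ a (bd τ) = 0`.
Now define a linear functional on `U ⊔ V` by `G z + v ↦ φ_a z`, well defined by KEY; the quickest way: the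
linear map `Ψ : Z1 × V → (Y2.E →₀ ℚ)`, `(z, v) ↦ G z + v`, has kernel contained in the kernel of `(z, v) ↦ φ_a z`; so there is
a linear functional `φ` on `Y2.E →₀ ℚ` with `φ ∘ Ψ = φ_a ∘ fst` (`LinearMap.exists_extend` after
`Submodule.liftQ`/`LinearMap.range` or: `LinearMap.exists_leftInverse...`; in Mathlib over a field: for linear
maps `f`, `g` with `ker f ≤ ker g` there is `h` with `g = h ∘ f`: `LinearMap.range_dualMap_eq_dualAnnihilator_ker`,
`Module.Dual`: `LinearMap.mem_range_dualMap...`). Put `b e := φ (single e 1)`; `integ b (bd τ) = φ (wch (bd τ)) = 0` for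
`τ ∈ I2` (take `z = 0`). The functional `φ_a - φ ∘ G` vanishes on `Z1 = ker L1`; so with
`w e := a e - b (g.e e)` the integral of `w` over every closed walk is `0` (`L1_wch`), and `θ x := integ w (path from x0 to x)`
(`Conn`, choose paths) satisfies `w e = θ (tgt e) - θ (src e)` (closed walk: path to `src e`, then `e`, then back;
`isWalk_append`, `isWalk_invRev`, `Cpx.integ_invRev` in `H50/CI/TA.lean` may be reproved here).
-/

noncomputable section

set_option autoImplicit false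
set_option linter.unusedVariables false

namespace Pool.Agent.H60.CI.Cpx

open Finsupp

theorem SD_ext {A B : Type} [AddCommGroup A] [Module ℚ A] [AddCommGroup B] [Module ℚ B]
    (f : A →ₗ[ℚ] B) (g : A →ₗ[ℚ] ℚ) (h : ∀ x, f x = 0 → g x = 0) :
    ∃ φ : B →ₗ[ℚ] ℚ, ∀ x, φ (f x) = g x := by
  have h1 : g ∈ LinearMap.range f.dualMap := by
    rw [LinearMap.range_dualMap_eq_dualAnnihilator_ker, Submodule.mem_dualAnnihilator]
    intro x hx
    exact h x hx
  obtain ⟨φ, hφ⟩ := h1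
  exact ⟨φ, fun x => LinearMap.congr_fun hφ x⟩

theorem SD_lc {E : Type} (φ : (E →₀ ℚ) →ₗ[ℚ] ℚ) (x : E →₀ ℚ) :
    Finsupp.linearCombination ℚ (fun e => φ (single e 1)) x = φ x := by
  induction x using Finsupp.induction_linear with
  | zero => simp
  | add f g hf hg => rw [map_add, map_add, hf, hg]
  | single e r =>
    rw [Finsupp.linearCombination_single, ← map_smul, Finsupp.smul_single, smul_eq_mul, mul_one]

theorem SD_integ {E : Type} (φ : (E →₀ ℚ) →ₗ[ℚ] ℚ) (l : List (E × Bool)) :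
    integ (fun e => φ (single e 1)) l = φ (wch l) := by
  rw [← wsum_eq_integ, ← linearCombination_wch, SD_lc]

theorem SD_L2_single (Y : Cpx) (τ : Y.F) : Y.L2 (single τ 1) = wch (Y.bd τ) := by
  rw [Cpx.L2, Finsupp.linearCombination_single, one_smul]
  rfl

theorem SD_L2_map {Y Y2 : Cpx} (g : Hom Y Y2) (c : Y.F →₀ ℚ) :
    (Y.L2 c).mapDomain g.e = Y2.L2 (c.mapDomain g.f) := by
  induction c using Finsupp.induction_linear with
  | zero => simp
  | add f h hf hh => rw [map_add, Finsupp.mapDomain_add, Finsupp.mapDomain_add, map_add, hf, hh]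
  | single τ r =>
    rw [Finsupp.mapDomain_single]
    unfold Cpx.L2
    rw [Finsupp.linearCombination_single, Finsupp.linearCombination_single,
      Finsupp.mapDomain_smul]
    congr 1
    unfold Cpx.d2
    rw [mapDomain_wch, g.bd_e]

theorem coh2 {Y2 : Cpx} (h2 : Y2.H2z) (δ : Y2.F → ℚ) :
    ∃ b : Y2.E → ℚ, ∀ τ, integ b (Y2.bd τ) = δ τ := by
  have hinj : LinearMap.ker Y2.L2 = ⊥ := by
    rw [LinearMap.ker_eq_bot']
    exact h2
  obtain ⟨s, hs⟩ := LinearMap.exists_leftInverse_of_injective Y2.L2 hinj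
  refine ⟨fun e => (Finsupp.linearCombination ℚ δ) (s (single e 1)), fun τ => ?_⟩
  have h3 := SD_integ ((Finsupp.linearCombination ℚ δ).comp s) (Y2.bd τ)
  have h4 : s (Y2.L2 (single τ 1)) = single τ 1 := LinearMap.congr_fun hs (single τ 1)
  rw [← SD_L2_single Y2 τ, LinearMap.comp_apply, h4, Finsupp.linearCombination_single,
    one_smul] at h3
  exact h3

theorem coh1 {Y Y2 : Cpx} (g : Hom Y Y2) (hc : Y.Conn) (h1 : Y.H1z) (h2 : Y2.H2z)
    (M1 : Set Y.F) (I2 : Set Y2.F) (hinj : ∀ τ τ', τ ∉ M1 → g.f τ' = g.f τ → τ' = τ)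
    (hI : ∀ τ, τ ∉ M1 → g.f τ ∉ I2) (a : Y.E → ℚ) (ha : ∀ τ ∈ M1, integ a (Y.bd τ) = 0) :
    ∃ (b : Y2.E → ℚ) (θ : Y.V → ℚ), (∀ τ ∈ I2, integ b (Y2.bd τ) = 0) ∧
      ∀ e, a e = b (g.e e) + θ (Y.tgt e) - θ (Y.src e) := by
  classical
  let φa : (Y.E →₀ ℚ) →ₗ[ℚ] ℚ := Finsupp.linearCombination ℚ a
  let G : (Y.E →₀ ℚ) →ₗ[ℚ] (Y2.E →₀ ℚ) := Finsupp.lmapDomain ℚ ℚ g.e
  let V : Submodule ℚ (Y2.E →₀ ℚ) := (Finsupp.supported ℚ ℚ I2).map Y2.L2
  have key : ∀ z : Y.E →₀ ℚ, Y.L1 z = 0 → G z ∈ V → φa z = 0 := by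
    intro z hz hGz
    obtain ⟨c, rfl⟩ := h1 z hz
    obtain ⟨d, hd, hd2⟩ := hGz
    have h3 : Y2.L2 (c.mapDomain g.f) = Y2.L2 d := by
      rw [← SD_L2_map, hd2]
      rfl
    have h4 : c.mapDomain g.f = d := by
      apply sub_eq_zero.1
      apply h2
      rw [map_sub, h3, sub_self]
    have h5 : ∀ τ, τ ∉ M1 → c τ = 0 := by
      intro τ hτ
      have h6 : (c.mapDomain g.f) (g.f τ) = c τ := by
        unfold Finsupp.mapDomain
        rw [Finsupp.sum_apply]
        have h7 : ∀ τ' r, (single (g.f τ') r : Y2.F →₀ ℚ) (g.f τ) = if τ' = τ then r else 0 := by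
          intro τ' r
          rw [Finsupp.single_apply]
          refine if_congr ⟨fun h => hinj τ τ' hτ h, fun h => by rw [h]⟩ rfl rfl
        simp only [h7]
        rw [Finsupp.sum]
        simp only [Finset.sum_ite_eq']
        split_ifs with h8
        · rfl
        · exact (Finsupp.notMem_support_iff.1 h8).symm
      rw [← h6, h4]
      by_contra hne
      exact hI τ hτ (hd (Finsupp.mem_support_iff.2 hne))
    have h6 : φa (Y.L2 c) = ∑ τ ∈ c.support, c τ • wsum a (Y.bd τ) := by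
      have h7 : Y.L2 c = ∑ τ ∈ c.support, c τ • Y.d2 τ := by
        rw [Cpx.L2, Finsupp.linearCombination_apply, Finsupp.sum]
      rw [h7, map_sum]
      refine Finset.sum_congr rfl fun τ _ => ?_
      rw [map_smul]
      congr 1
      exact linearCombination_wch a (Y.bd τ)
    rw [h6]
    refine Finset.sum_eq_zero fun τ _ => ?_
    by_cases hτ : τ ∈ M1
    · rw [wsum_eq_integ, ha τ hτ, smul_zero]
    · rw [h5 τ hτ, zero_smul]
  obtain ⟨φ, hφ⟩ := SD_ext ((G.comp (LinearMap.ker Y.L1).subtype).coprod V.subtype)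
    ((φa.comp (LinearMap.ker Y.L1).subtype).comp
      (LinearMap.fst ℚ (LinearMap.ker Y.L1) V)) (by
    rintro ⟨⟨z, hz⟩, ⟨v, hv⟩⟩ h3
    have h4 : G z + v = 0 := h3
    refine key z hz ?_
    rw [eq_neg_of_add_eq_zero_left h4]
    exact V.neg_mem hv)
  have hφG : ∀ z, Y.L1 z = 0 → φ (G z) = φa z := by
    intro z hz
    have h3 := hφ (⟨z, hz⟩, 0)
    simpa using h3
  have hφV : ∀ v ∈ V, φ v = 0 := by
    intro v hv
    have h3 := hφ (0, ⟨v, hv⟩)
    simpa using h3
  obtain ⟨Θ, hΘ⟩ := SD_ext Y.L1 (φa - φ.comp G) (by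
    intro z hz
    rw [LinearMap.sub_apply, LinearMap.comp_apply, hφG z hz, sub_self])
  refine ⟨fun e => φ (single e 1), fun x => Θ (single x 1), ?_, ?_⟩
  · intro τ hτ
    rw [SD_integ, ← SD_L2_single]
    exact hφV _ ⟨single τ 1, Finsupp.single_mem_supported ℚ 1 hτ, rfl⟩
  · intro e
    have h3 := hΘ (single e 1)
    have h4 : Y.L1 (single e 1) = single (Y.tgt e) 1 - single (Y.src e) 1 := by
      rw [Cpx.L1, Finsupp.linearCombination_single, one_smul]
      rfl
    have h5 : φa (single e 1) = a e := by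
      change Finsupp.linearCombination ℚ a (single e 1) = a e
      rw [Finsupp.linearCombination_single, one_smul]
    have h6 : G (single e 1) = single (g.e e) 1 := Finsupp.mapDomain_single
    rw [h4, map_sub, LinearMap.sub_apply, LinearMap.comp_apply, h5, h6] at h3
    linarith

end Pool.Agent.H60.CI.Cpx
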