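import Pool.Agent.H50.CI.SB
import Pool.Agent.H50.CI.SC
import Pool.Agent.H50.CI.SD
import Pool.Agent.H60.CI.Good
import Pool.Agent.H60.CI.H2dr
import Pool.Agent.H62.CI.GAU
import Pool.Agent.H62.CI.TIE

/-!
# Assembly of Section 5: finite closure implies weak simple connectivity
-/

noncomputable section

set_option autoImplicit false
set_option linter.unusedVariables false

namespace Pool.Agent.H60.CI

/-- the lollipop tree of a list of lollipops -/
def LD.ofList {B : Cpx} (Z : Im B) (v : Z.V) (C : List (List (B.E × Bool) × B.F × Bool))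
    (hC : ∀ t ∈ C, B.Walk (Z.p v) t.1 (B.base t.2.1)) : LD Z where
  v := v
  T := {u | u = [] ∨ ∃ t ∈ C, u <+: t.1 ++ B.bd t.2.1}
  nil_mem := Or.inl rfl
  pre := by
    rintro u a (h | ⟨t, ht, h⟩)
    · simp at h
    · exact Or.inr ⟨t, ht, (List.prefix_append u [a]).trans h⟩
  walk := by
    rintro u (h | ⟨t, ht, h⟩)
    · exact ⟨Z.p v, by subst h; rfl⟩
    · obtain ⟨w, hw⟩ := h
      have h1 : B.Walk (Z.p v) (t.1 ++ B.bd t.2.1) (B.base t.2.1) :=
        isWalk_append.2 ⟨_, hC t ht, B.bd_walk _⟩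
      rw [← hw] at h1
      obtain ⟨y, hy, _⟩ := isWalk_append.1 h1
      exact ⟨y, hy⟩
  M := {m | ∃ t ∈ C, m = (t.1, t.2.1)}
  M_walk := by
    rintro _ ⟨t, ht, rfl⟩
    exact hC t ht
  M_mem := by
    rintro _ ⟨t, ht, rfl⟩
    exact Or.inr ⟨t, ht, List.prefix_rfl⟩

theorem LD.ofList_T {B : Cpx} (Z : Im B) (v : Z.V) (C : List (List (B.E × Bool) × B.F × Bool))
    (hC : ∀ t ∈ C, B.Walk (Z.p v) t.1 (B.base t.2.1)) : (LD.ofList Z v C hC).T.Finite := by
  have h1 : ({u | ∃ t ∈ C, u <+: t.1 ++ B.bd t.2.1} : Set (List (B.E × Bool))).Finite := by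
    have h2 : ∀ t : List (B.E × Bool) × B.F × Bool,
        ({u | u <+: t.1 ++ B.bd t.2.1} : Set (List (B.E × Bool))).Finite := by
      intro t
      refine (List.finite_toSet (t.1 ++ B.bd t.2.1).inits).subset ?_
      intro u hu
      exact (List.mem_inits _ _).2 hu
    refine ((List.finite_toSet C).biUnion fun t _ => h2 t).subset ?_
    rintro u ⟨t, ht, h⟩
    exact Set.mem_biUnion ht h
  refine ((Set.finite_singleton ([] : List (B.E × Bool))).union h1).subset ?_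
  rintro u (h | h)
  · exact Or.inl h
  · exact Or.inr h

theorem LD.ofList_M {B : Cpx} (Z : Im B) (v : Z.V) (C : List (List (B.E × Bool) × B.F × Bool))
    (hC : ∀ t ∈ C, B.Walk (Z.p v) t.1 (B.base t.2.1)) : (LD.ofList Z v C hC).M.Finite := by
  refine ((List.finite_toSet C).image fun t => (t.1, t.2.1)).subset ?_
  rintro _ ⟨t, ht, rfl⟩
  exact ⟨t, ht, rfl⟩

variable {H : Type} [Group H] {B : HCpx H}

theorem weakSC_of_fc (hSC : B.LolliSC) (hDR : B.DR) (Z : HIm B) (hG : Z.Good)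
    (hfc : ∀ R : Setoid Z.V, Z.toPC.Cong R →
      (∃ S : Set (Z.V →₀ ℚ), S.Finite ∧ Z.toPC.KK R ≤ Z.toPC.DD R ⊔ Submodule.span ℚ S) →
      {x : Z.V | ∃ y, y ≠ x ∧ R x y}.Finite) : Z.toHCpx.WeakSC := by
  classical
  intro v w hw
  have hw1 : B.Walk (Z.p v) (w.map (Prod.map Z.epr id)) (Z.p v) := Z.toPC.p_W (Z.toPC.W_of_walk hw)
  obtain ⟨C, hC, he⟩ := hSC (Z.p v) (w.map (Prod.map Z.epr id)) hw1
  let L : LD Z.toIm := LD.ofList Z.toIm v C hC
  have hT : L.T.Finite := LD.ofList_T _ _ _ _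
  have hM : L.M.Finite := LD.ofList_M _ _ _ _
  have hV := hfc L.R L.R_cong (L.fd hT hM)
  set V0 : Set Z.V := {x : Z.V | ∃ y, y ≠ x ∧ L.R x y} with hV0
  let M1 : Set Z.Mks := {τ | Z.mbase τ ∈ V0 ∨ L.io.fm τ ∈ L.MC}
  have key : ∀ τ τ' : Z.Mks, Z.mbase τ ∉ V0 → L.io.fm τ' = L.io.fm τ → τ' = τ := by
    intro τ τ' h1 h2
    have h3 : L.io.f (Z.mbase τ') = L.io.f (Z.mbase τ) := congrArg L.B2.mbase h2
    have h4 : Z.mpr τ' = Z.mpr τ := congrArg L.B2.mpr h2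
    refine Z.toPC.mks_ext ?_ h4
    by_contra h5
    exact h1 ⟨Z.mbase τ', h5, h3.symm⟩
  have hM1 : M1.Finite := by
    have h1 : ({τ | Z.mbase τ ∈ V0} : Set Z.Mks).Finite := by
      have h2 : ∀ x : Z.V, ({τ | Z.mbase τ = x} : Set Z.Mks).Finite := by
        intro x
        refine Set.Finite.of_finite_image ((hG.fin.mks x).subset ?_) ?_ (f := Z.mpr)
        · rintro _ ⟨τ, hτ, rfl⟩
          have h3 : Z.mark (Z.mbase τ) (Z.mpr τ) := τ.2
          have h4 : Z.mbase τ = x := hτ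
          rw [h4] at h3
          exact h3
        · intro τ hτ τ' hτ' h
          exact Z.toPC.mks_ext (hτ.trans hτ'.symm) h
      refine (hV.biUnion fun x _ => h2 x).subset ?_
      intro τ hτ
      exact Set.mem_biUnion hτ rfl
    have h2 : ({τ | Z.mbase τ ∉ V0 ∧ L.io.fm τ ∈ L.MC} : Set Z.Mks).Finite := by
      refine Set.Finite.of_finite_image ((L.MC_finite hM).subset ?_) ?_ (f := L.io.fm)
      · rintro _ ⟨τ, hτ, rfl⟩
        exact hτ.2
      · intro τ hτ τ' hτ' h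
        exact key τ' τ hτ'.1 h
    refine (h1.union h2).subset ?_
    rintro τ (hτ | hτ)
    · exact Or.inl hτ
    · by_cases h3 : Z.mbase τ ∈ V0
      · exact Or.inl h3
      · exact Or.inr ⟨h3, hτ⟩
  let I2 : Set L.B2.Mks := L.io.fm '' M1 ∪ L.MC
  have hinj : ∀ τ τ' : Z.Mks, τ ∉ M1 → L.io.fm τ' = L.io.fm τ → τ' = τ := by
    intro τ τ' h1 h2
    exact key τ τ' (fun h => h1 (Or.inl h)) h2
  have hI : ∀ τ : Z.Mks, τ ∉ M1 → L.io.fm τ ∉ I2 := by
    rintro τ h1 (⟨τ', h2, h3⟩ | h2)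
    · have h4 := hinj τ τ' h1 h3
      rw [h4] at h2
      exact h1 h2
    · exact h1 (Or.inr h2)
  have h2z : L.B2.toCpx.H2z := H2z_of_DR (DR_im hDR L.B2)
  have hmem : FreeGroup.mk w ∈ Subgroup.normalClosure
      (Set.range fun i : {τ // τ ∈ M1} => FreeGroup.mk (Z.bdw i.1)) := by
    refine gauge_fin Z.esrc Z.etgt L.io.fe (fun i : {τ // τ ∈ M1} => Z.bdw i.1)
      (fun i : {m // m ∈ I2} => L.B2.bdw i.1)
      (fun i => ⟨L.io.fm i.1, Or.inl ⟨i.1, i.2, rfl⟩⟩) ?_ ?_ ?_ ?_ ?_ v w hw ?_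
    · intro i
      exact (L.io.hom.bd_e i.1).symm
    · intro i
      exact ⟨_, Z.bdw_walk i.1⟩
    · intro a ha
      obtain ⟨b, θ, h1, h2⟩ := Cpx.coh1 L.io.hom hG.conn hG.h1 h2z M1 I2 hinj hI a
        (fun τ hτ => ha ⟨τ, hτ⟩)
      exact ⟨b, θ, fun i => h1 i.1 i.2, h2⟩
    · intro δ
      obtain ⟨b, hb⟩ := Cpx.coh2 h2z (fun m => if h : m ∈ I2 then δ ⟨m, h⟩ else 0)
      refine ⟨b, fun i => ?_⟩
      have h1 := hb i.1
      rw [dif_pos i.2] at h1
      exact h1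
    · intro h hh
      have h3 : h ∉ Subgroup.normalClosure ((fun b : Z.Mks => FreeGroup.mk (Z.bdw b)) '' M1) := by
        intro h4
        apply hh
        have h5 : (Set.range fun i : {τ // τ ∈ M1} => FreeGroup.mk (Z.bdw i.1)) =
            (fun b : Z.Mks => FreeGroup.mk (Z.bdw b)) '' M1 := by
          ext x
          constructor
          · rintro ⟨i, rfl⟩
            exact ⟨i.1, i.2, rfl⟩
          · rintro ⟨τ, hτ, rfl⟩
            exact ⟨⟨τ, hτ⟩, rfl⟩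
        rw [h5]
        exact h4
      obtain ⟨G, hGr, hNF, θ, h6, h7⟩ := tietze Z.bdw M1 hM1
        (fun S hS hne => DR_im hDR Z.toIm S (hM1.subset hS) hne) h h3
      exact ⟨G, hGr, hNF, θ, fun i => h6 i.1 i.2, h7⟩
    · have h3 := L.closed_mem w hw C (fun t ht => ⟨t, ht, rfl⟩) he
      refine Subgroup.normalClosure_mono ?_ h3
      rintro _ ⟨m, hm, rfl⟩
      exact ⟨⟨m, Or.inr hm⟩, rfl⟩
  refine Subgroup.normalClosure_mono ?_ hmem
  rintro _ ⟨i, rfl⟩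
  exact ⟨i.1, rfl⟩

end Pool.Agent.H60.CI
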