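import Pool.Agent.H60.CI.FdD
import Pool.Agent.H60.CI.Orb
import Pool.Agent.H60.CI.Good

/-!
# Section 4: finite closure
-/

noncomputable section

set_option autoImplicit false
set_option linter.unusedVariables false

namespace Pool.Agent.H60.CI

open Finsupp

variable {H : Type} [Group H] {B : HCpx H}

/-- for a good complex with the smallest number of vertex orbits the tower ends with equality -/
theorem SG_bot (Z : HIm B) (hG : Z.Good) (hmin : ∀ Z' : HIm B, Z'.Good → Z.orbs ≤ Z'.orbs) :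
    ∃ n, ∀ x y, Z.tow n x y → x = y := by
  obtain ⟨n, hn⟩ := Z.tow_stable hG.fin
  refine ⟨n, Z.eq_bot_of_orbs hG.fin (Z.tow n) (Z.tow_cong n) (Z.tow_inv n) (hmin _ ?_)⟩
  refine ⟨Z.toIm.quo_Conn (Z.tow n) (Z.tow_cong n) hG.conn,
    Z.quo_HFin hG.fin _ _ _, Z.toIm.quo_H1z (Z.tow n) (Z.tow_cong n) hG.h1 ?_⟩
  intro x y hxy
  rw [← hn] at hxy
  exact hxy.2

theorem SG_pairs (Z : HIm B) (hF : Z.HFin) : ∃ P : Finset (Z.V × Z.V), ∀ x y, Z.p x = Z.p y →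
    ∃ h : H, ∃ q ∈ P, x = h • q.1 ∧ y = h • q.2 := by
  classical
  obtain ⟨S, hS⟩ := hF.orb
  refine ⟨S.biUnion fun s => (Z.fib_finite hF (Z.p s)).toFinset.image fun t => (s, t), ?_⟩
  intro x y hxy
  obtain ⟨h, s, hs, rfl⟩ := hS x
  refine ⟨h, (s, h⁻¹ • y), ?_, rfl, (smul_inv_smul h y).symm⟩
  rw [Finset.mem_biUnion]
  refine ⟨s, hs, Finset.mem_image.2 ⟨h⁻¹ • y, ?_, rfl⟩⟩
  rw [Set.Finite.mem_toFinset]
  show Z.p (h⁻¹ • y) = Z.p s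
  rw [Z.p_smul, ← hxy, Z.p_smul, inv_smul_smul]

theorem SG_step [NoZeroDivisors (MonoidAlgebra ℚ H)] (Z : HIm B) (hB1 : B.H1z) (hDR : B.DR)
    (hG : Z.Good) (n : ℕ) (R : Setoid Z.V) (W : Submodule ℚ (Z.V →₀ ℚ)) [FiniteDimensional ℚ W]
    (hW : Z.toPC.KK (R ⊓ Z.tow n) ≤ W ⊔ Z.toPC.DD (R ⊓ Z.tow n)) :
    {q : Z.V × Z.V | R q.1 q.2 ∧ Z.tow n q.1 q.2 ∧ ¬ Z.tow (n + 1) q.1 q.2}.Finite := by
  classical
  by_contra hinf
  obtain ⟨P, hP⟩ := SG_pairs Z hG.fin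
  have h1 : {q : Z.V × Z.V | R q.1 q.2 ∧ Z.tow n q.1 q.2 ∧ ¬ Z.tow (n + 1) q.1 q.2} ⊆
      ⋃ q ∈ P, (fun h : H => (h • q.1, h • q.2)) '' {h : H | R (h • q.1) (h • q.2) ∧
        Z.tow n (h • q.1) (h • q.2) ∧ ¬ Z.tow (n + 1) (h • q.1) (h • q.2)} := by
    rintro ⟨x, y⟩ hq
    obtain ⟨h, q, hqP, hx, hy⟩ := hP x y ((Z.tow_cong n).fib hq.2.1)
    refine Set.mem_biUnion hqP ⟨h, ?_, Prod.ext hx.symm hy.symm⟩
    show R (h • q.1) (h • q.2) ∧ Z.tow n (h • q.1) (h • q.2) ∧ ¬ Z.tow (n + 1) (h • q.1) (h • q.2)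
    rw [← hx, ← hy]
    exact hq
  have h2 : ∃ q ∈ P, {h : H | R (h • q.1) (h • q.2) ∧
        Z.tow n (h • q.1) (h • q.2) ∧ ¬ Z.tow (n + 1) (h • q.1) (h • q.2)}.Infinite := by
    by_contra hcon
    refine hinf ((P.finite_toSet.biUnion fun q hq => ?_).subset h1)
    refine Set.Finite.image _ ?_
    by_contra h3
    exact hcon ⟨q, hq, h3⟩
  obtain ⟨q, hq, hS⟩ := h2
  have hle : Z.toPC.DD (R ⊓ Z.tow n) ≤ Z.toPC.DD (Z.tow n) := PC.DD_mono inf_le_right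
  have h4 := Z.fdD hB1 hDR hG.conn hG.h1 n q.1 q.2 _ hS W (by
    intro h hh
    have h5 : (single (h • q.2) 1 - single (h • q.1) 1 : Z.V →₀ ℚ) ∈ Z.toPC.KK (R ⊓ Z.tow n) :=
      PC.KK_gen ⟨hh.1, hh.2.1⟩
    exact sup_le_sup_left hle W (hW h5))
  obtain ⟨h, hh⟩ := hS.nonempty
  apply hh.2.2
  have h6 : Z.tow n q.1 q.2 := by
    have := Z.tow_inv n h⁻¹ _ _ hh.2.1
    rwa [inv_smul_smul, inv_smul_smul] at this
  exact Z.tow_inv (n + 1) h _ _ (show Z.tow (n + 1) q.1 q.2 from ⟨h6, h4⟩)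

theorem SG_DD (Z : HIm B) (hF : Z.HFin) (n : ℕ) (R : Setoid Z.V)
    (hA : {q : Z.V × Z.V | R q.1 q.2 ∧ Z.tow n q.1 q.2 ∧ ¬ Z.tow (n + 1) q.1 q.2}.Finite) :
    ∃ W : Submodule ℚ (Z.V →₀ ℚ), FiniteDimensional ℚ W ∧
      Z.toPC.DD (R ⊓ Z.tow n) ≤ W ⊔ Z.toPC.DD (R ⊓ Z.tow (n + 1)) := by
  classical
  set A := {q : Z.V × Z.V | R q.1 q.2 ∧ Z.tow n q.1 q.2 ∧ ¬ Z.tow (n + 1) q.1 q.2} with hAdef
  let S : Set (Z.V →₀ ℚ) := ⋃ q ∈ A, ⋃ e ∈ {e : B.E | ∃ y, Z.adj q.1 e y},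
    {z | ∃ y y', Z.adj q.1 e y ∧ Z.adj q.2 e y' ∧
      z = (single y 1 - single q.1 1) - (single y' 1 - single q.2 1)}
  have hS : S.Finite := by
    refine hA.biUnion fun q hq => (hF.out q.1).biUnion fun e he => ?_
    refine Set.Subsingleton.finite ?_
    rintro z ⟨y, y', h1, h2, rfl⟩ z' ⟨w, w', h3, h4, rfl⟩
    rw [Z.fun_r h1 h3, Z.fun_r h2 h4]
  refine ⟨Submodule.span ℚ S, FiniteDimensional.span_of_finite ℚ hS, ?_⟩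
  conv_lhs => rw [PC.DD]
  rw [Submodule.span_le]
  rintro z ⟨x, y, x', y', e, h1, h2, h3, rfl⟩
  by_cases h4 : Z.tow (n + 1) x x'
  · exact Submodule.mem_sup_right (PC.DD_gen h1 h2 ⟨h3.1, h4⟩)
  · refine Submodule.mem_sup_left (Submodule.subset_span ?_)
    refine Set.mem_biUnion (show (x, x') ∈ A from ⟨h3.1, h3.2, h4⟩) ?_
    exact Set.mem_biUnion (show e ∈ {e : B.E | ∃ y, Z.adj x e y} from ⟨y, h1⟩) ⟨y, y', h1, h2, rfl⟩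

/-- finite closure -/
theorem finite_closure [NoZeroDivisors (MonoidAlgebra ℚ H)] (Z : HIm B) (hB1 : B.H1z)
    (hDR : B.DR) (hG : Z.Good) (hmin : ∀ Z' : HIm B, Z'.Good → Z.orbs ≤ Z'.orbs)
    (R : Setoid Z.V) (hR : Z.toPC.Cong R)
    (hfin : ∃ S : Set (Z.V →₀ ℚ), S.Finite ∧ Z.toPC.KK R ≤ Z.toPC.DD R ⊔ Submodule.span ℚ S) :
    {x : Z.V | ∃ y, y ≠ x ∧ R x y}.Finite := by
  classical
  have key : ∀ n, ∃ W : Submodule ℚ (Z.V →₀ ℚ), FiniteDimensional ℚ W ∧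
      Z.toPC.KK (R ⊓ Z.tow n) ≤ W ⊔ Z.toPC.DD (R ⊓ Z.tow n) := by
    intro n
    induction n with
    | zero =>
      obtain ⟨S, hS, h1⟩ := hfin
      refine ⟨Submodule.span ℚ S, FiniteDimensional.span_of_finite ℚ hS, ?_⟩
      have h2 : R ⊓ Z.tow 0 = R := by
        refine le_antisymm inf_le_left ?_
        intro x y hxy
        exact ⟨hxy, hR.fib hxy⟩
      rw [h2, sup_comm]
      exact h1
    | succ n ih =>
      obtain ⟨W, hW, h1⟩ := ih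
      obtain ⟨W', hW', h2⟩ := SG_DD Z hG.fin n R (SG_step Z hB1 hDR hG n R W h1)
      refine ⟨W ⊔ W', inferInstance, ?_⟩
      have h3 : R ⊓ Z.tow (n + 1) ≤ R ⊓ Z.tow n := inf_le_inf_left _ (Z.tow_le n)
      calc Z.toPC.KK (R ⊓ Z.tow (n + 1)) ≤ Z.toPC.KK (R ⊓ Z.tow n) := PC.KK_mono h3
        _ ≤ W ⊔ Z.toPC.DD (R ⊓ Z.tow n) := h1
        _ ≤ W ⊔ (W' ⊔ Z.toPC.DD (R ⊓ Z.tow (n + 1))) := sup_le_sup_left h2 W
        _ = W ⊔ W' ⊔ Z.toPC.DD (R ⊓ Z.tow (n + 1)) := (sup_assoc _ _ _).symm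
  have hA : ∀ n, {q : Z.V × Z.V | R q.1 q.2 ∧ Z.tow n q.1 q.2 ∧ ¬ Z.tow (n + 1) q.1 q.2}.Finite := by
    intro n
    obtain ⟨W, hW, h1⟩ := key n
    exact SG_step Z hB1 hDR hG n R W h1
  obtain ⟨N, hN⟩ := SG_bot Z hG hmin
  have hall : ∀ m, {q : Z.V × Z.V | R q.1 q.2 ∧ ¬ Z.tow m q.1 q.2}.Finite := by
    intro m
    induction m with
    | zero =>
      refine Set.finite_empty.subset ?_
      rintro q ⟨h1, h2⟩
      exact h2 (hR.fib h1)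
    | succ m ih =>
      refine (ih.union (hA m)).subset ?_
      rintro q ⟨h1, h2⟩
      by_cases h3 : Z.tow m q.1 q.2
      · exact Or.inr ⟨h1, h3, h2⟩
      · exact Or.inl ⟨h1, h3⟩
  refine ((hall N).image Prod.fst).subset ?_
  rintro x ⟨y, hne, hxy⟩
  exact ⟨(x, y), ⟨hxy, fun h => hne (hN _ _ h).symm⟩, rfl⟩

end Pool.Agent.H60.CI
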