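import Pool.Agent.H50.CI.TA

/-!
# ROW TB: paths with labels in the generators
Definitions: `TD.lean` (`TD`, `cls`, `Z`), `TA.lean` (`ev`, `Lam`, `root`, `wsv`, `pth`, `psi0`,
`Cpx.integ_mk`, `Cpx.integ_invRev`), `Im.lean` (`PC.exists_walk`, `Im.bdw`, `Im.hom_isImm`).

`gpath` is the path of `B` starting at `k • v` obtained by following the label `ρ`: letter `(j, true)`
means the translate `k • ws j` (from `k v` to `k s_j v`), letter `(j, false)` the inverse of
`k s_j⁻¹ • ws j`.

1. `gpath_walk`: induction on `ρ`; `isWalk_map` (file `Im.lean`, with `f = (k • ·)`, `g = (k • ·)`,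
   `B.src_smul`, `B.tgt_smul`), `isWalk_invRev` and `isWalk_append`; `ev_cons`; `mul_smul`, `mul_assoc`.
2. `gpath_smul`: induction on `ρ`; `List.map_append`, `List.map_map`, `mul_smul`, `mul_assoc`.
3. `gpath_lift`: induction on `ρ`, generalizing `k`. Letter `(j, true)`: the path `pth (D.wsv k j)` of `Z` goes
   from `cls (root k)` to `cls (wsv k j) = cls (root (k * s j))` (`cls_gs`), has image `k • ws j` (`pth_map`) and
   integral `psi0 b (wsv k j)` (definition). Letter `(j, false)`: with `k' = k * (s j)⁻¹` the inverse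
   (`FreeGroup.invRev`, `isWalk_invRev`, `Cpx.integ_invRev`, `U4_map_invRev` in `U4.lean`) of
   `pth (D.wsv k' j)`, from `cls (root (k' * s j)) = cls (root k)` to `cls (root k')`.
-/

noncomputable section

set_option autoImplicit false
set_option linter.unusedVariables false

namespace Pool.Agent.H60.CI

/-- the path of `B` starting at `k • v` with label `ρ` in the generators -/
def gpath {K : Type} [Group K] (B : HCpx K) {n : ℕ} (s : Fin n → K)
    (ws : Fin n → List (B.E × Bool)) : K → List (Fin n × Bool) → List (B.E × Bool)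
  | _, [] => []
  | k, (j, true) :: ρ => (ws j).map (Prod.map (k • ·) id) ++ gpath B s ws (k * s j) ρ
  | k, (j, false) :: ρ => (FreeGroup.invRev (ws j)).map (Prod.map ((k * (s j)⁻¹) • ·) id) ++
      gpath B s ws (k * (s j)⁻¹) ρ

theorem gpath_walk {K : Type} [Group K] (B : HCpx K) {n : ℕ} (s : Fin n → K)
    (ws : Fin n → List (B.E × Bool)) (v : B.V)
    (h : ∀ j, B.Walk v (ws j) (s j • v)) (k : K) (ρ : List (Fin n × Bool)) :
    B.Walk (k • v) (gpath B s ws k ρ) ((k * ev s ρ) • v) := by
  induction ρ generalizing k with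
  | nil =>
    show k • v = (k * ev s []) • v
    have h1 : ev s [] = 1 := rfl
    rw [h1, mul_one]
  | cons a ρ ih =>
    obtain ⟨j, b⟩ := a
    cases b
    · have h1 : B.Walk ((k * (s j)⁻¹) • v) ((ws j).map (Prod.map ((k * (s j)⁻¹) • ·) id))
          ((k * (s j)⁻¹) • (s j • v)) :=
        isWalk_map ((k * (s j)⁻¹) • ·) ((k * (s j)⁻¹) • ·) (fun e => B.src_smul _ e)
          (fun e => B.tgt_smul _ e) (h j)
      rw [smul_smul, inv_mul_cancel_right] at h1
      have h2 := isWalk_invRev h1
      rw [← U4_map_invRev] at h2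
      have h3 := ih (k * (s j)⁻¹)
      have h4 : k * ev s ((j, false) :: ρ) = k * (s j)⁻¹ * ev s ρ := by
        rw [ev_cons, mul_assoc]
        rfl
      rw [h4]
      exact isWalk_append.2 ⟨_, h2, h3⟩
    · have h1 : B.Walk (k • v) ((ws j).map (Prod.map (k • ·) id)) (k • (s j • v)) :=
        isWalk_map (k • ·) (k • ·) (fun e => B.src_smul _ e) (fun e => B.tgt_smul _ e) (h j)
      rw [smul_smul] at h1
      have h3 := ih (k * s j)
      have h4 : k * ev s ((j, true) :: ρ) = k * s j * ev s ρ := by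
        rw [ev_cons, mul_assoc]
        rfl
      rw [h4]
      exact isWalk_append.2 ⟨_, h1, h3⟩

theorem TB_map_map {K : Type} [Group K] (B : HCpx K) (h k : K) (L : List (B.E × Bool)) :
    (L.map (Prod.map (k • ·) id)).map (Prod.map (h • ·) id) =
      L.map (Prod.map ((h * k) • ·) id) := by
  rw [List.map_map]
  refine List.map_congr_left fun a _ => ?_
  exact Prod.ext (mul_smul h k a.1).symm rfl

theorem gpath_smul {K : Type} [Group K] (B : HCpx K) {n : ℕ} (s : Fin n → K)
    (ws : Fin n → List (B.E × Bool)) (h k : K) (ρ : List (Fin n × Bool)) :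
    gpath B s ws (h * k) ρ = (gpath B s ws k ρ).map (Prod.map (h • ·) id) := by
  induction ρ generalizing k with
  | nil => rfl
  | cons a ρ ih =>
    obtain ⟨j, b⟩ := a
    cases b
    · show (FreeGroup.invRev (ws j)).map (Prod.map ((h * k * (s j)⁻¹) • ·) id) ++
        gpath B s ws (h * k * (s j)⁻¹) ρ = ((FreeGroup.invRev (ws j)).map
          (Prod.map ((k * (s j)⁻¹) • ·) id) ++ gpath B s ws (k * (s j)⁻¹) ρ).map (Prod.map (h • ·) id)
      rw [List.map_append, TB_map_map, ← ih, mul_assoc]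
    · show (ws j).map (Prod.map ((h * k) • ·) id) ++ gpath B s ws (h * k * s j) ρ =
        ((ws j).map (Prod.map (k • ·) id) ++ gpath B s ws (k * s j) ρ).map (Prod.map (h • ·) id)
      rw [List.map_append, TB_map_map, ← ih, mul_assoc]

namespace TD

variable {K : Type} [Group K] {B : HCpx K} {D : TD B}

theorem gpath_lift (b : D.Z.Edg → ℚ) (k : K) (ρ : List (Fin D.n × Bool)) :
    ∃ L : List (D.Z.Edg × Bool),
      D.Z.toIm.toCpx.Walk (D.cls (D.root k)) L (D.cls (D.root (k * ev D.s ρ))) ∧
      L.map (Prod.map D.Z.epr id) = gpath B D.s D.ws k ρ ∧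
      Cpx.integ b L = Lam D.s (fun k j => psi0 b (D.wsv k j)) k ρ := by
  induction ρ generalizing k with
  | nil =>
    refine ⟨[], ?_, rfl, rfl⟩
    show D.cls (D.root k) = D.cls (D.root (k * ev D.s []))
    have h1 : ev D.s [] = 1 := rfl
    rw [h1, mul_one]
  | cons a ρ ih =>
    obtain ⟨j, b⟩ := a
    cases b
    · obtain ⟨k', hk'⟩ : ∃ k', k' = k * (D.s j)⁻¹ := ⟨_, rfl⟩
      obtain ⟨L2, hL2, hm2, hi2⟩ := ih (k * (D.s j)⁻¹)
      rw [← hk'] at hL2 hm2 hi2
      have h1 : D.Z.toIm.toCpx.Walk (D.cls (D.root k')) (pth (D.wsv k' j)) (D.cls (D.wsv k' j)) :=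
        pth_walk (D.wsv k' j)
      have h2 : D.cls (D.wsv k' j) = D.cls (D.root k) := by
        rw [← cls_gs, hk', inv_mul_cancel_right]
      rw [h2] at h1
      have h3 := isWalk_invRev h1
      have h4 : k * ev D.s ((j, false) :: ρ) = k' * ev D.s ρ := by
        rw [ev_cons, hk', mul_assoc]
        rfl
      refine ⟨FreeGroup.invRev (pth (D.wsv k' j)) ++ L2, ?_, ?_, ?_⟩
      · rw [h4]
        exact isWalk_append.2 ⟨_, h3, hL2⟩
      · rw [List.map_append, U4_map_invRev, pth_map, hm2]
        show FreeGroup.invRev ((D.ws j).map (Prod.map (k' • ·) id)) ++ gpath B D.s D.ws k' ρ =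
          (FreeGroup.invRev (D.ws j)).map (Prod.map ((k * (D.s j)⁻¹) • ·) id) ++
            gpath B D.s D.ws (k * (D.s j)⁻¹) ρ
        rw [← hk', U4_map_invRev]
      · rw [Cpx.integ_append, Cpx.integ_invRev, hi2]
        show -psi0 b (D.wsv k' j) + _ = -psi0 b (D.wsv (k * (D.s j)⁻¹) j) + Lam D.s _ (k * (D.s j)⁻¹) ρ
        rw [← hk']
    · obtain ⟨L2, hL2, hm2, hi2⟩ := ih (k * D.s j)
      have h1 : D.Z.toIm.toCpx.Walk (D.cls (D.root k)) (pth (D.wsv k j)) (D.cls (D.wsv k j)) :=
        pth_walk (D.wsv k j)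
      rw [← cls_gs] at h1
      have h4 : k * ev D.s ((j, true) :: ρ) = k * D.s j * ev D.s ρ := by
        rw [ev_cons, mul_assoc]
        rfl
      refine ⟨pth (D.wsv k j) ++ L2, ?_, ?_, ?_⟩
      · rw [h4]
        exact isWalk_append.2 ⟨_, h1, hL2⟩
      · rw [List.map_append, pth_map, hm2]
        rfl
      · rw [Cpx.integ_append, hi2]
        rfl

end TD

end Pool.Agent.H60.CI
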