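import Pool.Agent.H50.CI.N0

/-!
# The tree construction `Z = D(T, M, s) / Cl`

`B : HCpx K`, `v` a vertex, `T` a prefix closed set of walks from `v`, `M` a set of marks `(u, σ)`
(`u` a walk from `v` to the base point of `σ`, `u ++ bd σ ∈ T`), `s j : K` and `ws j ∈ T` a walk from
`v` to `s j • v`. The precomplex `D` consists of `K` copies of the tree `T`; `Z` is its quotient by
the smallest congruence with `(k s_j, []) ~ (k, ws j)` and `(k, u) ~ (k, u ++ bd σ)`.
-/

set_option autoImplicit false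
set_option linter.unusedVariables false

namespace Pool.Agent.H60.CI

/-- end of a word starting at `x` (only meaningful if the word is a walk) -/
def endW {V E : Type} (src tgt : E → V) : V → List (E × Bool) → V
  | x, [] => x
  | _, a :: u => endW src tgt (oT src tgt a) u

theorem endW_eq {V E : Type} {src tgt : E → V} {x y : V} {u : List (E × Bool)}
    (h : IsWalk src tgt x u y) : endW src tgt x u = y := by
  induction u generalizing x with
  | nil => exact h
  | cons a u ih => exact ih h.2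

theorem endW_append {V E : Type} (src tgt : E → V) (x : V) (u : List (E × Bool)) (a : E × Bool) :
    endW src tgt x (u ++ [a]) = oT src tgt a := by
  induction u generalizing x with
  | nil => rfl
  | cons b u ih => exact ih _

/-- the data of the tree construction -/
structure TD {K : Type} [Group K] (B : HCpx K) where
  v : B.V
  T : Set (List (B.E × Bool))
  nil_mem : [] ∈ T
  pre : ∀ u a, u ++ [a] ∈ T → u ∈ T
  walk : ∀ u ∈ T, ∃ y, IsWalk B.src B.tgt v u y
  n : ℕ
  s : Fin n → K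
  ws : Fin n → List (B.E × Bool)
  ws_mem : ∀ j, ws j ∈ T
  ws_walk : ∀ j, IsWalk B.src B.tgt v (ws j) (s j • v)
  M : Set (List (B.E × Bool) × B.F)
  M_walk : ∀ t ∈ M, IsWalk B.src B.tgt v t.1 (B.base t.2)
  M_mem : ∀ t ∈ M, t.1 ++ B.bd t.2 ∈ T

namespace TD

variable {K : Type} [Group K] {B : HCpx K} (D : TD B)

/-- vertices of the `K` copies of the tree -/
def W : Type := K × {u // u ∈ D.T}

/-- position in `B` -/
def pos (x : D.W) : B.V := x.1 • endW B.src B.tgt D.v x.2.1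

/-- tree edges, over the edges of `B` -/
def tadj (x : D.W) (e : B.E) (y : D.W) : Prop :=
  x.1 = y.1 ∧ (y.2.1 = x.2.1 ++ [(x.1⁻¹ • e, true)] ∨ x.2.1 = y.2.1 ++ [(x.1⁻¹ • e, false)])

/-- marks -/
def tmark (x : D.W) (σ : B.F) : Prop := (x.2.1, x.1⁻¹ • σ) ∈ D.M

/-- the smallest congruence containing the generating pairs -/
inductive Rel : D.W → D.W → Prop
  | refl (x) : Rel x x
  | symm {x y} : Rel x y → Rel y x
  | trans {x y z} : Rel x y → Rel y z → Rel x z
  | gs (k : K) (j : Fin D.n) : Rel (k * D.s j, ⟨[], D.nil_mem⟩) (k, ⟨D.ws j, D.ws_mem j⟩)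
  | gm (k : K) (t) (ht : t ∈ D.M) (h : t.1 ∈ D.T) :
      Rel (k, ⟨t.1, h⟩) (k, ⟨t.1 ++ B.bd t.2, D.M_mem t ht⟩)
  | fwd {x e y x' y'} : D.tadj x e y → D.tadj x' e y' → Rel x x' → Rel y y'
  | bwd {x e y x' y'} : D.tadj x e y → D.tadj x' e y' → Rel y y' → Rel x x'

/-- vertices of `Z` -/
def setoid : Setoid D.W := ⟨D.Rel, .refl, .symm, .trans⟩

def ZV : Type := Quotient D.setoid

/-- the class of a vertex of the trees -/
def cls (x : D.W) : D.ZV := Quotient.mk D.setoid x

variable {D} in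
theorem cls_eq {x y : D.W} : D.cls x = D.cls y ↔ D.Rel x y :=
  ⟨fun h => Quotient.exact (s := D.setoid) h, fun h => Quotient.sound (s := D.setoid) h⟩

variable {D} in
theorem ind_cls {P : D.ZV → Prop} (h : ∀ x, P (D.cls x)) (X : D.ZV) : P X :=
  Quotient.ind (s := D.setoid) h X

theorem mem_of_append (u w : List (B.E × Bool)) (h : u ++ w ∈ D.T) : u ∈ D.T := by
  induction w using List.reverseRecOn with
  | nil => simpa using h
  | append_singleton w a ih => exact ih (D.pre _ a (by simpa using h))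

variable {D}

theorem isWalk_end {u : List (B.E × Bool)} (h : u ∈ D.T) :
    IsWalk B.src B.tgt D.v u (endW B.src B.tgt D.v u) := by
  obtain ⟨y, hy⟩ := D.walk u h
  rw [endW_eq hy]
  exact hy

theorem smul_inv_smul_E (k : K) (e : B.E) : k • (k⁻¹ • e) = e := smul_inv_smul k e

theorem tadj_src {x : D.W} {e : B.E} {y : D.W} (h : D.tadj x e y) : D.pos x = B.src e := by
  obtain ⟨k, u, hu⟩ := x
  obtain ⟨k', u', hu'⟩ := y
  obtain ⟨h1, h2⟩ := h
  simp only at h1 h2
  subst h1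
  rcases h2 with h2 | h2
  · subst h2
    obtain ⟨z, hz, hz'⟩ := isWalk_append.1 (isWalk_end hu')
    have h3 : B.src (k⁻¹ • e) = z := hz'.1
    show k • endW B.src B.tgt D.v u = B.src e
    rw [endW_eq hz, ← h3, ← B.src_smul, smul_inv_smul]
  · subst h2
    show k • endW B.src B.tgt D.v (u' ++ [(k⁻¹ • e, false)]) = B.src e
    rw [endW_append]
    show k • B.src (k⁻¹ • e) = B.src e
    rw [← B.src_smul, smul_inv_smul]

theorem tadj_tgt {x : D.W} {e : B.E} {y : D.W} (h : D.tadj x e y) : D.pos y = B.tgt e := by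
  obtain ⟨k, u, hu⟩ := x
  obtain ⟨k', u', hu'⟩ := y
  obtain ⟨h1, h2⟩ := h
  simp only at h1 h2
  subst h1
  rcases h2 with h2 | h2
  · subst h2
    show k • endW B.src B.tgt D.v (u ++ [(k⁻¹ • e, true)]) = B.tgt e
    rw [endW_append]
    show k • B.tgt (k⁻¹ • e) = B.tgt e
    rw [← B.tgt_smul, smul_inv_smul]
  · subst h2
    obtain ⟨z, hz, hz'⟩ := isWalk_append.1 (isWalk_end hu)
    have h3 : B.tgt (k⁻¹ • e) = z := hz'.1
    show k • endW B.src B.tgt D.v u' = B.tgt e
    rw [endW_eq hz, ← h3, ← B.tgt_smul, smul_inv_smul]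

theorem tmark_base {x : D.W} {σ : B.F} (h : D.tmark x σ) : D.pos x = B.base σ := by
  have h1 := D.M_walk _ h
  show x.1 • endW B.src B.tgt D.v x.2.1 = B.base σ
  rw [endW_eq h1, ← B.base_smul, smul_inv_smul]

theorem Rel.pos_eq {x y : D.W} (h : D.Rel x y) : D.pos x = D.pos y := by
  induction h with
  | refl x => rfl
  | symm _ ih => exact ih.symm
  | trans _ _ ih ih' => exact ih.trans ih'
  | gs k j =>
    show (k * D.s j) • D.v = k • endW B.src B.tgt D.v (D.ws j)
    rw [endW_eq (D.ws_walk j), mul_smul]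
  | gm k t ht h =>
    show k • endW B.src B.tgt D.v t.1 = k • endW B.src B.tgt D.v (t.1 ++ B.bd t.2)
    have h1 := D.M_walk t ht
    have h2 : IsWalk B.src B.tgt D.v (t.1 ++ B.bd t.2) (B.base t.2) :=
      isWalk_append.2 ⟨_, h1, B.bd_walk t.2⟩
    rw [endW_eq h1, endW_eq h2]
  | fwd h h' _ _ => rw [tadj_tgt h, tadj_tgt h']
  | bwd h h' _ _ => rw [tadj_src h, tadj_src h']

/-! ## the action of `K` -/

/-- translate -/
def tr (k : K) (x : D.W) : D.W := (k * x.1, x.2)

theorem tadj_tr (k : K) {x : D.W} {e : B.E} {y : D.W} (h : D.tadj x e y) :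
    D.tadj (tr k x) (k • e) (tr k y) := by
  obtain ⟨h1, h2⟩ := h
  refine ⟨congrArg (k * ·) h1, ?_⟩
  have h3 : (k * x.1)⁻¹ • k • e = x.1⁻¹ • e := by
    rw [mul_inv_rev, mul_smul, inv_smul_smul]
  show y.2.1 = x.2.1 ++ [((k * x.1)⁻¹ • k • e, true)] ∨ x.2.1 = y.2.1 ++ [((k * x.1)⁻¹ • k • e, false)]
  rw [h3]
  exact h2

theorem tmark_tr (k : K) {x : D.W} {σ : B.F} (h : D.tmark x σ) : D.tmark (tr k x) (k • σ) := by
  show (x.2.1, (k * x.1)⁻¹ • k • σ) ∈ D.M
  have h3 : (k * x.1)⁻¹ • k • σ = x.1⁻¹ • σ := by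
    rw [mul_inv_rev, mul_smul, inv_smul_smul]
  rw [h3]
  exact h

theorem Rel.tr (k : K) {x y : D.W} (h : D.Rel x y) : D.Rel (tr k x) (tr k y) := by
  induction h with
  | refl x => exact .refl _
  | symm _ ih => exact ih.symm
  | trans _ _ ih ih' => exact ih.trans ih'
  | gs k' j =>
    have := Rel.gs (D := D) (k * k') j
    rw [mul_assoc] at this
    exact this
  | gm k' t ht h => exact Rel.gm (D := D) (k * k') t ht h
  | fwd h h' _ ih => exact Rel.fwd (tadj_tr k h) (tadj_tr k h') ih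
  | bwd h h' _ ih => exact Rel.bwd (tadj_tr k h) (tadj_tr k h') ih

instance : MulAction K D.ZV where
  smul k X := Quotient.map (TD.tr k) (fun _ _ h => Rel.tr k h) X
  one_smul := by
    refine ind_cls fun x => ?_
    exact congrArg D.cls (Prod.ext (one_mul _) rfl)
  mul_smul := by
    intro k k'
    refine ind_cls fun x => ?_
    exact congrArg D.cls (Prod.ext (mul_assoc _ _ _) rfl)

theorem smul_cls (k : K) (x : D.W) : k • D.cls x = D.cls (TD.tr k x) := rfl

variable (D)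

/-- the precomplex underlying `Z` -/
def ZPC : PC B.toCpx where
  V := D.ZV
  p := Quotient.lift D.pos (fun _ _ h => Rel.pos_eq h)
  adj := fun X e Y => ∃ x y, D.cls x = X ∧ D.cls y = Y ∧ D.tadj x e y
  mark := fun X σ => ∃ x, D.cls x = X ∧ D.tmark x σ
  adj_src := by
    rintro _ e _ ⟨x, y, rfl, rfl, h⟩
    exact tadj_src h
  adj_tgt := by
    rintro _ e _ ⟨x, y, rfl, rfl, h⟩
    exact tadj_tgt h
  mark_base := by
    rintro _ σ ⟨x, rfl, h⟩
    exact tmark_base h

variable {D}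

/-- a path of the tree gives a path of `Z` -/
theorem tree_path (k : K) (w : List (B.E × Bool)) (u : List (B.E × Bool)) (hu : u ∈ D.T)
    (h : u ++ w ∈ D.T) :
    D.ZPC.W (D.cls (k, ⟨u, hu⟩)) (w.map (Prod.map (k • ·) id)) (D.cls (k, ⟨u ++ w, h⟩)) := by
  induction w generalizing u with
  | nil =>
    show D.cls _ = D.cls _
    congr 2
    simp
  | cons a w ih =>
    obtain ⟨e, b⟩ := a
    have h1 : u ++ [(e, b)] ∈ D.T := D.mem_of_append _ w (by simpa using h)
    have h2 : u ++ [(e, b)] ++ w ∈ D.T := by simpa using h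
    refine ⟨D.cls (k, ⟨u ++ [(e, b)], h1⟩), ?_, ?_⟩
    · have h3 : k⁻¹ • k • e = e := inv_smul_smul k e
      cases b
      · show D.ZPC.adj _ (k • e) _
        refine ⟨_, _, rfl, rfl, rfl, Or.inr ?_⟩
        show u ++ [(e, false)] = u ++ [(k⁻¹ • k • e, false)]
        rw [h3]
      · show D.ZPC.adj _ (k • e) _
        refine ⟨_, _, rfl, rfl, rfl, Or.inl ?_⟩
        show u ++ [(e, true)] = u ++ [(k⁻¹ • k • e, true)]
        rw [h3]
    · have h4 := ih (u ++ [(e, b)]) h1 h2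
      have h5 : (⟨u ++ [(e, b)] ++ w, h2⟩ : {u // u ∈ D.T}) = ⟨u ++ (e, b) :: w, h⟩ :=
        Subtype.ext (by simp)
      rw [h5] at h4
      exact h4

variable (D)

/-- the complex `Z`, immersed in `B` -/
def Z : HIm B where
  toPC := D.ZPC
  fun_r := by
    rintro _ e _ _ ⟨x, y, rfl, rfl, h⟩ ⟨x', y', hx, rfl, h'⟩
    exact cls_eq.2 (.fwd h h' (cls_eq.1 hx.symm))
  fun_l := by
    rintro _ _ e _ ⟨x, y, rfl, rfl, h⟩ ⟨x', y', rfl, hy, h'⟩
    exact cls_eq.2 (.bwd h h' (cls_eq.1 hy.symm))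
  mark_walk := by
    rintro _ σ ⟨⟨k, u, hu⟩, rfl, h⟩
    have h1 : u ++ B.bd (k⁻¹ • σ) ∈ D.T := D.M_mem _ h
    have h2 := tree_path k (B.bd (k⁻¹ • σ)) u hu h1
    have h3 : (B.bd (k⁻¹ • σ)).map (Prod.map (k • ·) id) = B.bd σ := by
      rw [← B.bd_smul, smul_inv_smul]
    have h4 : D.cls (k, ⟨u ++ B.bd (k⁻¹ • σ), h1⟩) = D.cls (k, ⟨u, hu⟩) :=
      (cls_eq.2 (.gm k (u, k⁻¹ • σ) h hu)).symm
    rw [h3, h4] at h2
    exact h2
  act := inferInstanceAs (MulAction K D.ZV)
  p_smul := by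
    intro k
    refine ind_cls fun x => ?_
    show (k * x.1) • _ = k • x.1 • _
    rw [mul_smul]
    rfl
  adj_smul := by
    rintro k _ e _ ⟨x, y, rfl, rfl, h⟩
    exact ⟨_, _, rfl, rfl, tadj_tr k h⟩
  mark_smul := by
    rintro k _ σ ⟨x, rfl, h⟩
    exact ⟨_, rfl, tmark_tr k h⟩

end TD

end Pool.Agent.H60.CI
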