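import Pool.Agent.H50.CI.TB

/-!
# ROW TE: lollipops in `Z`
Definitions: `TD.lean` (`TD`, `cls`, `Z`), `TA.lean` (`ev`, `Lam`, `root`, `wsv`, `pth`, `psi0`,
`Cpx.integ_mk`, `Cpx.integ_invRev`), `TB.lean` (`gpath`), `Im.lean` (`PC.exists_walk`, `Im.bdw`,
`Im.hom_isImm`).

1. `lolli_lift`: induction on the list `L`. For one lollipop `(u, σ, c)` with `(u, σ) ∈ M`: `u ∈ T` by
   `D.mem_of_append`; `P = pth (k, u) ++ Q ++ invRev (pth (k, u))` where `Q = bdw (mrk _)` (mark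
   `(cls (k, u), k • σ)`; see the proof of `psi0_gm`) if `c = true` and its `invRev` if `c = false`.
   Image: `FreeGroup.map (k • ·) (B.lolli (u, σ, c))` (`Im.bdw_map`, `B.bd_smul`, `FreeGroup.map.mk`,
   `FreeGroup.inv_mk`, `FreeGroup.mul_mk`). Integral: `x ± 0 - x = 0`.
2. `lam_zero`: `gpath_lift` for `k` gives a path `L1` with image `gpath k ρ = k • gpath 1 ρ` (`gpath_smul` with
   `k * 1`), so `mk` of the image is `FreeGroup.map (k • ·) (mk (gpath 1 ρ))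
   = FreeGroup.map (k • ·) (L.map B.lolli).prod`, which is the image of the path `P` of `lolli_lift`;
   both start at `cls (root k)`, so `Cpx.Hom.IsImm.mk_eq` (file `U2.lean`, for `D.Z.toIm.hom_isImm`) gives
   `mk L1 = mk P`, and `Cpx.integ_mk` gives equality of the integrals.
3. `cls_eq_of_lolli`: the paths `pth (k, p)` and `P ++ pth (k, q)` start at `cls (root k)` and have images
   with the same class in the free group; `mk_eq` gives that the ends agree.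
-/

noncomputable section

set_option autoImplicit false
set_option linter.unusedVariables false

namespace Pool.Agent.H60.CI.TD

variable {K : Type} [Group K] {B : HCpx K} {D : TD B}

theorem TE_inv {E E' : Type} (f : E → E') (L : List (E × Bool)) :
    (FreeGroup.invRev L).map (Prod.map f id) = FreeGroup.invRev (L.map (Prod.map f id)) := by
  simp only [FreeGroup.invRev, List.map_reverse, List.map_map]
  rfl

theorem TE_mk {E E' : Type} (f : E → E') (L : List (E × Bool)) :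
    FreeGroup.mk (L.map (Prod.map f id)) = FreeGroup.map f (FreeGroup.mk L) := by
  rw [FreeGroup.map.mk]
  rfl

theorem TE_one (b : D.Z.Edg → ℚ) (hb : ∀ τ : D.Z.Mks, Cpx.integ b (D.Z.toIm.bdw τ) = 0) (k : K)
    (u : List (B.E × Bool)) (σ : B.F) (c : Bool) (ht : (u, σ) ∈ D.M) :
    ∃ P : List (D.Z.Edg × Bool),
      D.Z.toIm.toCpx.Walk (D.cls (D.root k)) P (D.cls (D.root k)) ∧
      FreeGroup.mk (P.map (Prod.map D.Z.epr id)) = FreeGroup.map (k • ·) (B.lolli (u, σ, c)) ∧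
      Cpx.integ b P = 0 := by
  have hu : u ∈ D.T := D.mem_of_append u (B.bd σ) (D.M_mem (u, σ) ht)
  have hm : D.tmark (k, ⟨u, hu⟩) (k • σ) := by
    show (u, k⁻¹ • k • σ) ∈ D.M
    rw [inv_smul_smul]
    exact ht
  obtain ⟨p, hp⟩ : ∃ p : List (D.Z.Edg × Bool), p = pth (k, ⟨u, hu⟩) := ⟨_, rfl⟩
  have hpw : D.Z.toIm.toCpx.Walk (D.cls (D.root k)) p (D.cls (k, ⟨u, hu⟩)) := by
    rw [hp]; exact pth_walk (k, ⟨u, hu⟩)
  have hpm : p.map (Prod.map D.Z.epr id) = u.map (Prod.map (k • ·) id) := by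
    rw [hp]; exact pth_map (k, ⟨u, hu⟩)
  obtain ⟨q, hq⟩ : ∃ q : List (D.Z.Edg × Bool), q = D.Z.toIm.bdw (mrk hm) := ⟨_, rfl⟩
  have hqw : D.Z.toIm.toCpx.Walk (D.cls (k, ⟨u, hu⟩)) q (D.cls (k, ⟨u, hu⟩)) := by
    rw [hq]; exact D.Z.toIm.bdw_walk (mrk hm)
  have hqm : q.map (Prod.map D.Z.epr id) = (B.bd σ).map (Prod.map (k • ·) id) := by
    rw [hq, ← B.bd_smul]
    exact D.Z.toIm.bdw_map (mrk hm)
  have hqi : Cpx.integ b q = 0 := by rw [hq]; exact hb _
  cases c with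
  | true =>
    refine ⟨p ++ (q ++ FreeGroup.invRev p), isWalk_append.2 ⟨_, hpw, isWalk_append.2 ⟨_, hqw,
      isWalk_invRev hpw⟩⟩, ?_, ?_⟩
    · rw [List.map_append, List.map_append, TE_inv, hpm, hqm, ← FreeGroup.mul_mk, ← FreeGroup.mul_mk,
        ← FreeGroup.inv_mk, TE_mk, TE_mk]
      simp only [Cpx.lolli, if_true, map_mul, map_inv]
      rw [mul_assoc]
    · rw [Cpx.integ_append, Cpx.integ_append, Cpx.integ_invRev, hqi]
      ring
  | false =>
    refine ⟨p ++ (FreeGroup.invRev q ++ FreeGroup.invRev p), isWalk_append.2 ⟨_, hpw, isWalk_append.2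
      ⟨_, isWalk_invRev hqw, isWalk_invRev hpw⟩⟩, ?_, ?_⟩
    · rw [List.map_append, List.map_append, TE_inv, TE_inv, hpm, hqm, ← FreeGroup.mul_mk, ← FreeGroup.mul_mk,
        ← FreeGroup.inv_mk, ← FreeGroup.inv_mk, TE_mk, TE_mk]
      simp only [Cpx.lolli, Bool.false_eq_true, if_false, map_mul, map_inv]
      rw [mul_assoc]
    · rw [Cpx.integ_append, Cpx.integ_append, Cpx.integ_invRev, Cpx.integ_invRev, hqi]
      ring

theorem lolli_lift (b : D.Z.Edg → ℚ) (hb : ∀ τ : D.Z.Mks, Cpx.integ b (D.Z.toIm.bdw τ) = 0) (k : K)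
    (L : List (List (B.E × Bool) × B.F × Bool)) (hL : ∀ t ∈ L, (t.1, t.2.1) ∈ D.M) :
    ∃ P : List (D.Z.Edg × Bool),
      D.Z.toIm.toCpx.Walk (D.cls (D.root k)) P (D.cls (D.root k)) ∧
      FreeGroup.mk (P.map (Prod.map D.Z.epr id)) = FreeGroup.map (k • ·) (L.map B.lolli).prod ∧
      Cpx.integ b P = 0 := by
  induction L with
  | nil =>
    refine ⟨[], rfl, ?_, rfl⟩
    rw [List.map_nil, List.map_nil, List.prod_nil, map_one]
    rfl
  | cons t L ih =>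
    obtain ⟨P, h1, h2, h3⟩ := ih (fun t' ht' => hL t' (List.mem_cons_of_mem _ ht'))
    obtain ⟨u, σ, c⟩ := t
    obtain ⟨Q, g1, g2, g3⟩ := TE_one b hb k u σ c (hL (u, σ, c) List.mem_cons_self)
    refine ⟨Q ++ P, isWalk_append.2 ⟨_, g1, h1⟩, ?_, ?_⟩
    · rw [List.map_append, ← FreeGroup.mul_mk, g2, h2, List.map_cons, List.prod_cons, map_mul]
    · rw [Cpx.integ_append, g3, h3, add_zero]

theorem lam_zero (b : D.Z.Edg → ℚ) (hb : ∀ τ : D.Z.Mks, Cpx.integ b (D.Z.toIm.bdw τ) = 0) (k : K)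
    (ρ : List (Fin D.n × Bool)) (L : List (List (B.E × Bool) × B.F × Bool))
    (hL : ∀ t ∈ L, (t.1, t.2.1) ∈ D.M)
    (he : FreeGroup.mk (gpath B D.s D.ws 1 ρ) = (L.map B.lolli).prod) :
    Lam D.s (fun k j => psi0 b (D.wsv k j)) k ρ = 0 := by
  obtain ⟨P, h1, h2, h3⟩ := lolli_lift b hb k L hL
  obtain ⟨L1, g1, g2, g3⟩ := gpath_lift (D := D) b k ρ
  rw [← g3, ← h3]
  apply Cpx.integ_mk
  refine (D.Z.toIm.hom_isImm.mk_eq (φ := D.Z.toIm.hom) g1 h1 ?_).1
  have h4 : gpath B D.s D.ws k ρ = (gpath B D.s D.ws 1 ρ).map (Prod.map (k • ·) id) := by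
    rw [← gpath_smul, mul_one]
  show FreeGroup.mk (L1.map (Prod.map D.Z.epr id)) = FreeGroup.mk (P.map (Prod.map D.Z.epr id))
  rw [g2, h2, h4, TE_mk, he]

theorem cls_eq_of_lolli (k : K) {p q : List (B.E × Bool)} (hp : p ∈ D.T) (hq : q ∈ D.T)
    (L : List (List (B.E × Bool) × B.F × Bool)) (hL : ∀ t ∈ L, (t.1, t.2.1) ∈ D.M)
    (he : FreeGroup.mk p = (L.map B.lolli).prod * FreeGroup.mk q) :
    D.cls (k, ⟨p, hp⟩) = D.cls (k, ⟨q, hq⟩) := by
  obtain ⟨P, h1, h2, h3⟩ := lolli_lift (fun _ => 0) (fun τ => by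
    have h : ∀ l : List (D.Z.Edg × Bool), Cpx.integ (fun _ => (0 : ℚ)) l = 0 := by
      intro l
      induction l with
      | nil => rfl
      | cons a l ih =>
        rw [Cpx.integ_cons, ih]
        simp
    exact h _) k L hL
  have g1 : D.Z.toIm.toCpx.Walk (D.cls (D.root k)) (P ++ pth (k, ⟨q, hq⟩)) (D.cls (k, ⟨q, hq⟩)) :=
    isWalk_append.2 ⟨_, h1, pth_walk (k, ⟨q, hq⟩)⟩
  refine (D.Z.toIm.hom_isImm.mk_eq (φ := D.Z.toIm.hom) (pth_walk (k, ⟨p, hp⟩)) g1 ?_).2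
  show FreeGroup.mk ((pth (k, ⟨p, hp⟩)).map (Prod.map D.Z.epr id)) =
    FreeGroup.mk ((P ++ pth (k, ⟨q, hq⟩)).map (Prod.map D.Z.epr id))
  rw [List.map_append, ← FreeGroup.mul_mk, h2, pth_map, pth_map, TE_mk, TE_mk, he, map_mul]

end Pool.Agent.H60.CI.TD
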