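import Pool.Agent.H50.CI.SE
import Pool.Agent.H50.CI.SG
import Pool.Agent.H50.CI.Fin
import Pool.Agent.H62.CI.EXM
import Pool.Agent.H62.CI.FPZ
import Pool.Agent.H62.CI.FPG

/-!
# Theorem A and the final theorem
-/

noncomputable section

set_option autoImplicit false

namespace Pool.Agent.H50.CI

open Pool.Agent.H60.CI Pool.Agent.H62.CI

theorem thmA : ThmA := by
  intro H _ B hC hSC hDR hN hFP
  obtain ⟨Z, hG, hmin⟩ := exists_min B (exists_good B hC hSC (fptwo_fg hFP) hFP)
  exact fp_of_weakSC Z hG.conn hG.fin (weakSC_of_fc hSC hDR Z hG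
    (finite_closure Z (H1z_of_LolliSC hC hSC) hDR hG hmin))

theorem top {X : Cpx} (hX : X.CNPI) (x0 : X.V) (H : Subgroup (Pi1 X x0))
    (h : FPtwo ℚ H) : Group.IsFinitelyPresented H :=
  main thmA hX x0 H h

end Pool.Agent.H50.CI
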