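import Pool.Agent.H60.CI.Defs0

/-!
# MP_ddee1b_al, universal cover part: the fundamental group and the vertices of the universal cover
-/

set_option autoImplicit false

namespace Pool.Agent.H60.CI

namespace Cpx

variable (X : Cpx)

/-- the lollipop `p (bd s) p⁻¹` (or its inverse) -/
def lolli (t : List (X.E × Bool) × X.F × Bool) : FreeGroup X.E :=
  FreeGroup.mk t.1 * (if t.2.2 then FreeGroup.mk (X.bd t.2.1) else (FreeGroup.mk (X.bd t.2.1))⁻¹)
    * (FreeGroup.mk t.1)⁻¹

/-- simply connected: every closed edge path is, up to backtracking, a product of lollipops -/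
def LolliSC : Prop := ∀ (v : X.V) (w : List (X.E × Bool)), X.Walk v w v →
  ∃ L : List (List (X.E × Bool) × X.F × Bool), (∀ t ∈ L, X.Walk v t.1 (X.base t.2.1)) ∧
    FreeGroup.mk w = (L.map X.lolli).prod

/-- diagrammatically reducible: every finite non-empty set of 2-cells has a free face -/
def DR : Prop := ∀ S : Set X.F, S.Finite → S.Nonempty → ∃ σ ∈ S, ∃ w₁ a w₂,
  X.bd σ = w₁ ++ a :: w₂ ∧ (∀ c ∈ w₁ ++ w₂, c.1 ≠ a.1) ∧
  ∀ σ' ∈ S, σ' ≠ σ → ∀ c ∈ X.bd σ', c.1 ≠ a.1

/-- homomorphisms compose -/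
def Hom.comp {X Y Z : Cpx} (ψ : Hom Y Z) (φ : Hom X Y) : Hom X Z where
  v := ψ.v ∘ φ.v
  e := ψ.e ∘ φ.e
  f := ψ.f ∘ φ.f
  src_v := fun ε => by simp [ψ.src_v, φ.src_v]
  tgt_v := fun ε => by simp [ψ.tgt_v, φ.tgt_v]
  base_v := fun τ => by simp [ψ.base_v, φ.base_v]
  bd_e := fun τ => by
    simp only [Function.comp, ψ.bd_e, φ.bd_e, List.map_map]
    rfl

theorem Hom.IsImm.comp {X Y Z : Cpx} {ψ : Hom Y Z} {φ : Hom X Y} (hψ : ψ.IsImm) (hφ : φ.IsImm) :
    (Hom.comp ψ φ).IsImm where
  src_inj := fun ε ε' h h' => hφ.src_inj _ _ h (hψ.src_inj _ _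
    (by rw [φ.src_v, φ.src_v, h]) h')
  tgt_inj := fun ε ε' h h' => hφ.tgt_inj _ _ h (hψ.tgt_inj _ _
    (by rw [φ.tgt_v, φ.tgt_v, h]) h')
  face_inj := fun τ τ' h h' => hφ.face_inj _ _ h (hψ.face_inj _ _
    (by rw [φ.base_v, φ.base_v, h]) h')

end Cpx

theorem isWalk_append {V E : Type} {src tgt : E → V} {x z : V} {w w' : List (E × Bool)} :
    IsWalk src tgt x (w ++ w') z ↔ ∃ y, IsWalk src tgt x w y ∧ IsWalk src tgt y w' z := by
  induction w generalizing x with
  | nil => simp [IsWalk]
  | cons a w ih =>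
    simp only [List.cons_append, IsWalk, ih]
    constructor
    · rintro ⟨h, y, h1, h2⟩; exact ⟨y, ⟨h, h1⟩, h2⟩
    · rintro ⟨y, ⟨h, h1⟩, h2⟩; exact ⟨h, y, h1, h2⟩

theorem isWalk_fun {V E : Type} {src tgt : E → V} {x y y' : V} {w : List (E × Bool)}
    (h : IsWalk src tgt x w y) (h' : IsWalk src tgt x w y') : y = y' := by
  induction w generalizing x with
  | nil => exact h.symm.trans h'
  | cons a w ih => exact ih h.2 h'.2

theorem isWalk_invRev {V E : Type} {src tgt : E → V} {x y : V} {w : List (E × Bool)}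
    (h : IsWalk src tgt x w y) : IsWalk src tgt y (FreeGroup.invRev w) x := by
  induction w generalizing x with
  | nil => exact h.symm
  | cons a w ih =>
    obtain ⟨h1, h2⟩ := h
    have h3 : FreeGroup.invRev (a :: w) = FreeGroup.invRev w ++ [(a.1, !a.2)] := by
      simp [FreeGroup.invRev]
    rw [h3, isWalk_append]
    refine ⟨_, ih h2, ?_⟩
    obtain ⟨e, b⟩ := a
    cases b <;> simp_all [IsWalk, oS, oT]

end Pool.Agent.H60.CI

namespace Pool.Agent.H50.CI

open Pool.Agent.H60.CI

variable (X : Cpx) (x0 : X.V)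

/-- closed edge paths at `x0`, up to backtracking: a subgroup of the free group on the edges -/
def loops : Subgroup (FreeGroup X.E) where
  carrier := {g | ∃ w, X.Walk x0 w x0 ∧ FreeGroup.mk w = g}
  one_mem' := ⟨[], rfl, rfl⟩
  mul_mem' := by
    rintro _ _ ⟨w, hw, rfl⟩ ⟨w', hw', rfl⟩
    exact ⟨w ++ w', isWalk_append.2 ⟨_, hw, hw'⟩, FreeGroup.mul_mk.symm⟩
  inv_mem' := by
    rintro _ ⟨w, hw, rfl⟩
    exact ⟨FreeGroup.invRev w, isWalk_invRev hw, FreeGroup.inv_mk.symm⟩

/-- relators: the closed paths `p (bd σ) p⁻¹`, `p` a path from `x0` to the base point of `σ` -/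
def relators : Set (loops X x0) :=
  {g | ∃ p σ, X.Walk x0 p (X.base σ) ∧
    (g : FreeGroup X.E) = FreeGroup.mk p * FreeGroup.mk (X.bd σ) * (FreeGroup.mk p)⁻¹}

/-- the (edge path) fundamental group -/
def Pi1 : Type := loops X x0 ⧸ Subgroup.normalClosure (relators X x0)

instance : Group (Pi1 X x0) :=
  QuotientGroup.Quotient.group (Subgroup.normalClosure (relators X x0))

/-- the class of a closed path -/
def Pi1.mk {X : Cpx} {x0 : X.V} (l : loops X x0) : Pi1 X x0 :=
  (QuotientGroup.mk l : loops X x0 ⧸ Subgroup.normalClosure (relators X x0))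

/-- the normal closure of the relators, as a subgroup of the free group -/
def Nf : Subgroup (FreeGroup X.E) :=
  (Subgroup.normalClosure (relators X x0)).map (loops X x0).subtype

/-- right cosets of `Nf` -/
def RC : Type := Quotient (QuotientGroup.rightRel (Nf X x0))

variable {X x0}

theorem Nf_conj {l n : FreeGroup X.E} (hl : l ∈ loops X x0) (hn : n ∈ Nf X x0) :
    l * n * l⁻¹ ∈ Nf X x0 := by
  obtain ⟨m, hm, rfl⟩ := hn
  exact ⟨⟨l, hl⟩ * m * ⟨l, hl⟩⁻¹, Subgroup.normalClosure_normal.conj_mem _ hm _, rfl⟩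

/-- the class of a word -/
def RC.mk (g : FreeGroup X.E) : RC X x0 := Quotient.mk _ g

theorem RC.mk_eq {g g' : FreeGroup X.E} :
    (RC.mk g : RC X x0) = RC.mk g' ↔ g' * g⁻¹ ∈ Nf X x0 :=
  ⟨fun h => QuotientGroup.rightRel_apply.1 (Quotient.exact h),
    fun h => Quotient.sound (QuotientGroup.rightRel_apply.2 h)⟩

/-- right multiplication -/
def RC.mul (c : RC X x0) (g : FreeGroup X.E) : RC X x0 :=
  Quotient.map (· * g) (by
    intro a b h
    have h' := QuotientGroup.rightRel_apply.1 h
    refine QuotientGroup.rightRel_apply.2 ?_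
    show b * g * (a * g)⁻¹ ∈ _
    have : b * g * (a * g)⁻¹ = b * a⁻¹ := by group
    rw [this]; exact h') c

theorem RC.mk_mul (g g' : FreeGroup X.E) : RC.mul (RC.mk g : RC X x0) g' = RC.mk (g * g') := rfl

theorem RC.mul_mul (c : RC X x0) (g g' : FreeGroup X.E) : RC.mul (RC.mul c g) g' = RC.mul c (g * g') := by
  induction c using Quotient.ind with
  | _ a => exact congrArg RC.mk (mul_assoc _ _ _)

theorem RC.mul_one (c : RC X x0) : RC.mul c 1 = c := by
  induction c using Quotient.ind with
  | _ a => exact congrArg RC.mk (_root_.mul_one _)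

/-- left action of the fundamental group -/
def RC.smul (h : Pi1 X x0) (c : RC X x0) : RC X x0 :=
  Quotient.map₂ (fun (l : loops X x0) (g : FreeGroup X.E) => (l : FreeGroup X.E) * g) (by
    intro l l' hl g g' hg
    have h1 : l⁻¹ * l' ∈ Subgroup.normalClosure (relators X x0) := QuotientGroup.leftRel_apply.1 hl
    have h2 : g' * g⁻¹ ∈ Nf X x0 := QuotientGroup.rightRel_apply.1 hg
    refine QuotientGroup.rightRel_apply.2 ?_
    have h3 : l' * l⁻¹ ∈ Subgroup.normalClosure (relators X x0) := by
      have := Subgroup.normalClosure_normal.conj_mem _ h1 l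
      convert this using 1
      group
    have h4 : ((l' * l⁻¹ : loops X x0) : FreeGroup X.E) ∈ Nf X x0 := ⟨_, h3, rfl⟩
    have h5 := Nf_conj l'.2 h2
    have h6 := mul_mem h5 h4
    convert h6 using 1
    push_cast
    group) h c

instance : MulAction (Pi1 X x0) (RC X x0) where
  smul := RC.smul
  one_smul := by
    intro c
    induction c using Quotient.ind with
    | _ a => exact congrArg RC.mk (_root_.one_mul _)
  mul_smul := by
    intro h h' c
    induction h using Quotient.ind with
    | _ l =>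
      induction h' using Quotient.ind with
      | _ l' =>
        induction c using Quotient.ind with
        | _ a => exact congrArg RC.mk (mul_assoc _ _ _)

theorem RC.smul_mul (h : Pi1 X x0) (c : RC X x0) (g : FreeGroup X.E) :
    RC.mul (h • c) g = h • RC.mul c g := by
  induction h using Quotient.ind with
  | _ l =>
    induction c using Quotient.ind with
    | _ a => exact congrArg RC.mk (mul_assoc _ _ _)

theorem RC.smul_mk (l : loops X x0) (g : FreeGroup X.E) :
    Pi1.mk l • (RC.mk g : RC X x0) = RC.mk ((l : FreeGroup X.E) * g) := rfl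

theorem RC.free {h : Pi1 X x0} {c : RC X x0} (hc : h • c = c) : h = 1 := by
  induction h using Quotient.ind with
  | _ l =>
    induction c using Quotient.ind with
    | _ a =>
      have h1 : (RC.mk ((l : FreeGroup X.E) * a) : RC X x0) = RC.mk a := hc
      rw [RC.mk_eq] at h1
      have h2 : ((l⁻¹ : loops X x0) : FreeGroup X.E) ∈ Nf X x0 := by
        convert h1 using 1
        push_cast
        group
      obtain ⟨m, hm, hm'⟩ := h2
      have h3 : m = l⁻¹ := Subtype.ext hm'
      rw [h3] at hm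
      have h4 : l ∈ Subgroup.normalClosure (relators X x0) := by
        have := inv_mem hm
        rwa [inv_inv] at this
      exact (QuotientGroup.eq_one_iff l).2 h4

end Pool.Agent.H50.CI
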