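import Pool.Agent.H50.CI.U0

/-!
# The universal cover of a 2-complex, as a complex with an action of the fundamental group
-/

set_option autoImplicit false
set_option linter.unusedVariables false

namespace Pool.Agent.H50.CI

open Pool.Agent.H60.CI

variable (X : Cpx) (x0 : X.V)

/-- vertices of the universal cover: classes of paths starting at `x0` -/
def UV : Type := {p : RC X x0 × X.V // ∃ w, X.Walk x0 w p.2 ∧ RC.mk (FreeGroup.mk w) = p.1}

variable {X x0}

/-- the end of a class of paths -/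
def UV.endp (v : UV X x0) : X.V := v.1.2

/-- the end of the lift of a walk -/
def UV.go (v : UV X x0) (w : List (X.E × Bool)) (y : X.V) (h : X.Walk v.endp w y) : UV X x0 :=
  ⟨(RC.mul v.1.1 (FreeGroup.mk w), y), by
    obtain ⟨p, hp, hp'⟩ := v.2
    refine ⟨p ++ w, isWalk_append.2 ⟨_, hp, h⟩, ?_⟩
    show RC.mk _ = RC.mul v.1.1 _
    rw [← hp', RC.mk_mul, FreeGroup.mul_mk]⟩

theorem UV.go_endp (v : UV X x0) (w : List (X.E × Bool)) (y : X.V) (h : X.Walk v.endp w y) :
    (v.go w y h).endp = y := rfl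

theorem UV.ext {v v' : UV X x0} (h : v.1.1 = v'.1.1) (h' : v.endp = v'.endp) : v = v' :=
  Subtype.ext (Prod.ext h h')

/-- one step -/
def UV.step (v : UV X x0) (a : X.E × Bool) (h : oS X.src X.tgt a = v.endp) : UV X x0 :=
  v.go [a] (oT X.src X.tgt a) ⟨h, rfl⟩

theorem UV.step_endp (v : UV X x0) (a : X.E × Bool) (h : oS X.src X.tgt a = v.endp) :
    (v.step a h).endp = oT X.src X.tgt a := rfl

theorem UV.step_step (v : UV X x0) (e : X.E) (b : Bool) (h : oS X.src X.tgt (e, b) = v.endp)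
    (h' : oS X.src X.tgt (e, !b) = (v.step (e, b) h).endp) : (v.step (e, b) h).step (e, !b) h' = v := by
  refine UV.ext ?_ ?_
  · show RC.mul (RC.mul v.1.1 _) _ = v.1.1
    rw [RC.mul_mul, FreeGroup.mul_mk]
    have : FreeGroup.mk ([(e, b)] ++ [(e, !b)]) = 1 := by
      have h1 := FreeGroup.Red.Step.not (L₁ := []) (L₂ := []) (x := e) (b := b)
      exact Quot.sound h1
    rw [this, RC.mul_one]
  · rw [UV.step_endp, ← h]
    cases b <;> rfl

/-- edges of the universal cover -/
def UE (X : Cpx) (x0 : X.V) : Type := {p : UV X x0 × X.E // p.1.endp = X.src p.2}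

/-- 2-cells of the universal cover -/
def UF (X : Cpx) (x0 : X.V) : Type := {p : UV X x0 × X.F // p.1.endp = X.base p.2}

def UE.src (ε : UE X x0) : UV X x0 := ε.1.1

def UE.tgt (ε : UE X x0) : UV X x0 := ε.1.1.step (ε.1.2, true) ε.2.symm

/-- the oriented edge over `a` starting at `v` -/
def UV.edge (v : UV X x0) : (a : X.E × Bool) → (h : oS X.src X.tgt a = v.endp) → UE X x0 × Bool
  | (e, true), h => (⟨(v, e), h.symm⟩, true)
  | (e, false), h => (⟨(v.step (e, false) h, e), rfl⟩, false)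

theorem UV.edge_oS (v : UV X x0) (a : X.E × Bool) (h : oS X.src X.tgt a = v.endp) :
    oS UE.src UE.tgt (v.edge a h) = v := by
  obtain ⟨e, b⟩ := a
  cases b
  · exact v.step_step e false h rfl
  · rfl

theorem UV.edge_oT (v : UV X x0) (a : X.E × Bool) (h : oS X.src X.tgt a = v.endp) :
    oT UE.src UE.tgt (v.edge a h) = v.step a h := by
  obtain ⟨e, b⟩ := a
  cases b <;> rfl

theorem UV.edge_proj (v : UV X x0) (a : X.E × Bool) (h : oS X.src X.tgt a = v.endp) :
    Prod.map (fun ε : UE X x0 => ε.1.2) id (v.edge a h) = a := by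
  obtain ⟨e, b⟩ := a
  cases b <;> rfl

/-- the lift of a walk -/
def UV.lift : (v : UV X x0) → (w : List (X.E × Bool)) → (y : X.V) → (h : X.Walk v.endp w y) →
    List (UE X x0 × Bool)
  | _, [], _, _ => []
  | v, a :: w, y, h => v.edge a h.1 :: UV.lift (v.step a h.1) w y h.2

theorem UV.lift_proj (v : UV X x0) (w : List (X.E × Bool)) (y : X.V) (h : X.Walk v.endp w y) :
    (v.lift w y h).map (Prod.map (fun ε : UE X x0 => ε.1.2) id) = w := by
  induction w generalizing v with
  | nil => rfl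
  | cons a w ih =>
    show Prod.map (fun ε : UE X x0 => ε.1.2) id (v.edge a h.1) ::
      (UV.lift (v.step a h.1) w y h.2).map _ = a :: w
    rw [UV.edge_proj, ih]

theorem UV.lift_walk (v : UV X x0) (w : List (X.E × Bool)) (y : X.V) (h : X.Walk v.endp w y) :
    IsWalk UE.src UE.tgt v (v.lift w y h) (v.go w y h) := by
  induction w generalizing v with
  | nil =>
    refine UV.ext ?_ h
    show v.1.1 = RC.mul v.1.1 (FreeGroup.mk [])
    exact (RC.mul_one _).symm
  | cons a w ih =>
    refine ⟨v.edge_oS a h.1, ?_⟩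
    show IsWalk UE.src UE.tgt (oT UE.src UE.tgt (v.edge a h.1)) (UV.lift (v.step a h.1) w y h.2) _
    rw [v.edge_oT a h.1]
    have h1 := ih (v.step a h.1) h.2
    have h2 : (v.step a h.1).go w y h.2 = v.go (a :: w) y h := by
      refine UV.ext ?_ rfl
      show RC.mul (RC.mul v.1.1 (FreeGroup.mk [a])) (FreeGroup.mk w) = RC.mul v.1.1 (FreeGroup.mk (a :: w))
      rw [RC.mul_mul, FreeGroup.mul_mk]
      rfl
    rw [h2] at h1
    exact h1

/-- the boundary of a 2-cell lifts to closed paths -/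
theorem UV.go_bd (v : UV X x0) (σ : X.F) (h : v.endp = X.base σ) (h' : X.Walk v.endp (X.bd σ) (X.base σ)) :
    v.go (X.bd σ) (X.base σ) h' = v := by
  refine UV.ext ?_ h.symm
  obtain ⟨p, hp, hp'⟩ := v.2
  show RC.mul v.1.1 (FreeGroup.mk (X.bd σ)) = v.1.1
  rw [← hp', RC.mk_mul, RC.mk_eq]
  have hp2 : X.Walk x0 p (X.base σ) := by
    rw [← h]; exact hp
  have h1 : FreeGroup.mk p * FreeGroup.mk (X.bd σ) * (FreeGroup.mk p)⁻¹ ∈ Nf X x0 := by
    refine ⟨⟨_, p ++ X.bd σ ++ FreeGroup.invRev p, ?_, ?_⟩, Subgroup.subset_normalClosure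
      ⟨p, σ, hp2, rfl⟩, rfl⟩
    · exact isWalk_append.2 ⟨_, isWalk_append.2 ⟨_, hp2, X.bd_walk σ⟩, isWalk_invRev hp2⟩
    · rw [← FreeGroup.mul_mk, ← FreeGroup.mul_mk, FreeGroup.inv_mk]
  have h2 := inv_mem h1
  convert h2 using 1
  group

/-- boundary words -/
def UF.bd (τ : UF X x0) : List (UE X x0 × Bool) :=
  τ.1.1.lift (X.bd τ.1.2) (X.base τ.1.2) (by rw [τ.2]; exact X.bd_walk _)

/-- the universal cover -/
def Xt (X : Cpx) (x0 : X.V) : Cpx where
  V := UV X x0
  E := UE X x0
  F := UF X x0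
  src := UE.src
  tgt := UE.tgt
  base := fun τ => τ.1.1
  bd := UF.bd
  bd_walk := fun τ => by
    have h := τ.1.1.lift_walk (X.bd τ.1.2) (X.base τ.1.2) (by rw [τ.2]; exact X.bd_walk _)
    rw [UV.go_bd τ.1.1 τ.1.2 τ.2] at h
    exact h

/-- the covering map -/
def cov (X : Cpx) (x0 : X.V) : Cpx.Hom (Xt X x0) X where
  v := UV.endp
  e := fun ε => ε.1.2
  f := fun τ => τ.1.2
  src_v := fun ε => ε.2.symm
  tgt_v := fun ε => rfl
  base_v := fun τ => τ.2.symm
  bd_e := fun τ => (UV.lift_proj _ _ _ _).symm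

/-! ## the action -/

instance : MulAction (Pi1 X x0) (UV X x0) where
  smul h v := ⟨(h • v.1.1, v.1.2), by
    obtain ⟨p, hp, hp'⟩ := v.2
    induction h using Quotient.ind with
    | _ l =>
      obtain ⟨w, hw, hw'⟩ := l.2
      refine ⟨w ++ p, isWalk_append.2 ⟨_, hw, hp⟩, ?_⟩
      show RC.mk (FreeGroup.mk (w ++ p)) = Pi1.mk l • v.1.1
      rw [← hp', RC.smul_mk, ← FreeGroup.mul_mk, hw']⟩
  one_smul := fun v => UV.ext (one_smul _ _) rfl
  mul_smul := fun h h' v => UV.ext (mul_smul _ _ _) rfl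

theorem UV.smul_endp (h : Pi1 X x0) (v : UV X x0) : (h • v).endp = v.endp := rfl

theorem UV.smul_go (h : Pi1 X x0) (v : UV X x0) (w : List (X.E × Bool)) (y : X.V)
    (hw : X.Walk v.endp w y) : (h • v).go w y hw = h • v.go w y hw :=
  UV.ext (RC.smul_mul _ _ _) rfl

theorem UV.smul_step (h : Pi1 X x0) (v : UV X x0) (a : X.E × Bool)
    (ha : oS X.src X.tgt a = v.endp) : (h • v).step a ha = h • v.step a ha :=
  UV.smul_go h v [a] _ ⟨ha, rfl⟩

instance : MulAction (Pi1 X x0) (UE X x0) where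
  smul h ε := ⟨(h • ε.1.1, ε.1.2), ε.2⟩
  one_smul := fun ε => Subtype.ext (Prod.ext (one_smul _ _) rfl)
  mul_smul := fun h h' ε => Subtype.ext (Prod.ext (mul_smul _ _ _) rfl)

instance : MulAction (Pi1 X x0) (UF X x0) where
  smul h τ := ⟨(h • τ.1.1, τ.1.2), τ.2⟩
  one_smul := fun ε => Subtype.ext (Prod.ext (one_smul _ _) rfl)
  mul_smul := fun h h' ε => Subtype.ext (Prod.ext (mul_smul _ _ _) rfl)

theorem UV.smul_edge (h : Pi1 X x0) (v : UV X x0) (a : X.E × Bool)
    (ha : oS X.src X.tgt a = v.endp) : (h • v).edge a ha = Prod.map (h • ·) id (v.edge a ha) := by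
  obtain ⟨e, b⟩ := a
  cases b
  · refine Prod.ext (Subtype.ext (Prod.ext ?_ rfl)) rfl
    exact UV.smul_step h v _ ha
  · rfl

theorem UV.smul_lift (h : Pi1 X x0) (v : UV X x0) (w : List (X.E × Bool)) (y : X.V)
    (hw : X.Walk v.endp w y) : (h • v).lift w y hw = (v.lift w y hw).map (Prod.map (h • ·) id) := by
  induction w generalizing v with
  | nil => rfl
  | cons a w ih =>
    show (h • v).edge a hw.1 :: UV.lift ((h • v).step a hw.1) w y hw.2 =
      Prod.map (h • ·) id (v.edge a hw.1) :: (UV.lift (v.step a hw.1) w y hw.2).map _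
    rw [UV.smul_edge]
    congr 1
    rw [← ih]
    have h1 : (h • v).step a hw.1 = h • v.step a hw.1 := UV.smul_step h v _ hw.1
    congr 1

/-- the universal cover with the action of the fundamental group -/
def XtH (X : Cpx) (x0 : X.V) : HCpx (Pi1 X x0) where
  toCpx := Xt X x0
  aV := inferInstanceAs (MulAction (Pi1 X x0) (UV X x0))
  aE := inferInstanceAs (MulAction (Pi1 X x0) (UE X x0))
  aF := inferInstanceAs (MulAction (Pi1 X x0) (UF X x0))
  src_smul := fun h ε => rfl
  tgt_smul := fun h ε => UV.smul_step h ε.1.1 (ε.1.2, true) ε.2.symm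
  base_smul := fun h τ => rfl
  bd_smul := fun h τ => UV.smul_lift h _ _ _ _
  free := fun h v hv => RC.free (congrArg (fun u : UV X x0 => u.1.1) hv)

end Pool.Agent.H50.CI

namespace Pool.Agent.H60.CI

/-- restriction of the action to a subgroup -/
def HCpx.restr {G : Type} [Group G] (B : HCpx G) (K : Subgroup G) : HCpx K where
  toCpx := B.toCpx
  aV := inferInstance
  aE := inferInstance
  aF := inferInstance
  src_smul := fun h ε => B.src_smul h ε
  tgt_smul := fun h ε => B.tgt_smul h ε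
  base_smul := fun h τ => B.base_smul h τ
  bd_smul := fun h τ => B.bd_smul h τ
  free := fun h v hv => Subtype.ext (B.free h v hv)

end Pool.Agent.H60.CI
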